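import Pool.Agent.Y172.Defs

/-!
Definitions: the base of the Iitaka fibration of a pair, varieties whose generic fibre over a
subfield of the function field has a finitely generated Cox ring, log discrepancies, and places of a
finite extension of the function field.
-/

set_option autoImplicit false

open FF Pool.Agent.W602.GT Pool.Agent.Y172

namespace Pool.Agent.NH31

section

variable {K L : Type} [Field K] [Algebra ℂ K] [Field L] [Algebra ℂ L] {N : ℕ}

/-- The quotients of sections of `m (K_X + B)`, for all `m ≥ 1`; `y` is the generic point of the
variety `X` of dimension `n`. -/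
def pluriRatios (y : Fin (N + 1) → K) (n : ℕ) (B : Place ℂ K → ℚ) : Set K :=
  {f | ∃ m : ℕ, 1 ≤ m ∧ ∃ ω ω' : (Fin n → Derivation ℂ K K) → K, IsSection y n m (m • B) ω ∧
    IsSection y n m (m • B) ω' ∧ ∃ E, ω' E ≠ 0 ∧ f = ω E / ω' E}

/-- The subfield `F` of the function field `K` of `X` is contained in the function field of the base
of the Iitaka fibration of `K_X + B`: its elements are algebraic over the field which is generated by
the quotients of sections of `m (K_X + B)`, for all `m ≥ 1`. -/
def BelowIitaka (y : Fin (N + 1) → K) (n : ℕ) (B : Place ℂ K → ℚ) (F : IntermediateField ℂ K) :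
    Prop :=
  ∀ x ∈ F, IsAlgebraic (IntermediateField.adjoin ℂ (pluriRatios y n B)) x

/-- The prime divisor `P` is horizontal over (dominates) the base with function field `F`: its
valuation is trivial on `F`. -/
def Horizontal (F : IntermediateField ℂ K) (P : Place ℂ K) : Prop := ∀ f ∈ F, f ≠ 0 → P.ord f = 0

/-- The Cox ring of the generic fibre of the normal projective variety `X` with generic point `y`
over the base with function field `F` is finitely generated (the prime divisors on the generic fibre
are the horizontal prime divisors of `X`): there are finitely many effective Weil divisors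
`E 0, ..., E (k - 1)` such that, for every Weil divisor `D`, every rational function `f ≠ 0` with
`div f + D ≥ 0` along the horizontal prime divisors is a linear combination over `F` of rational
functions `g` such that `div g + D` is a sum of multiples of the divisors `E i` along the horizontal
prime divisors. -/
def CoxFiniteOver (y : Fin (N + 1) → K) (F : IntermediateField ℂ K) : Prop :=
  ∃ (k : ℕ) (E : Fin k → Place ℂ K → ℤ),
    (∀ i, {P | IsPrimeDivisor y P ∧ E i P ≠ 0}.Finite ∧
      ∀ P, IsPrimeDivisor y P → Horizontal F P → 0 ≤ E i P) ∧
    ∀ D : Place ℂ K → ℤ, {P | IsPrimeDivisor y P ∧ D P ≠ 0}.Finite → ∀ f : K, f ≠ 0 →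
      (∀ P, IsPrimeDivisor y P → Horizontal F P → 0 ≤ P.ord f + D P) →
      f ∈ Submodule.span F {g : K | g ≠ 0 ∧ ∃ a : Fin k → ℕ, ∀ P, IsPrimeDivisor y P →
        Horizontal F P → P.ord g + D P = ∑ i, a i * E i P}

/-- The log discrepancy of the pair `(X, B)` along `Q` is at least `α`, where `Q` is a prime divisor
over `X`: there is an `r`-canonical form `η` which generates `r (K_X + B)` at the centre of `Q` on `X`
(its order is `- r B P` along all prime divisors `P` of `X` through this centre), with order at least
`r (α - 1)` along `Q`. -/
def LogDiscGe (y : Fin (N + 1) → K) (n : ℕ) (B : Place ℂ K → ℚ) (Q : Place ℂ K) (α : ℚ) : Prop :=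
  ∃ r : ℕ, 0 < r ∧ ∃ η : (Fin n → Derivation ℂ K K) → K, IsPluri r η ∧
    (∀ P, IsPrimeDivisor y P → Through y P Q → OrdEq P η (-(r * B P))) ∧
    OrdGe Q η (r * (α - 1))

/-- The place `Q` of the extension `L` of `K` lies over the place `P` of `K`, with ramification
index `e`. -/
def LiesOver [Algebra K L] (Q : Place ℂ L) (P : Place ℂ K) (e : ℕ) : Prop :=
  0 < e ∧ ∀ f : K, Q.ord (algebraMap K L f) = e * P.ord f

end

end Pool.Agent.NH31
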