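import Pool.Agent.NH31.Defs

/-!
Definitions: sections on the generic fibre over a base, and abundance for divisors on the generic
fibre.
-/

set_option autoImplicit false

open FF Pool.Agent.W602.GT Pool.Agent.Y172

namespace Pool.Agent.NH31

section

variable {K : Type} [Field K] [Algebra ℂ K] {N : ℕ}

/-- The rational function `f` is a section of the restriction of the Weil divisor `D` to the generic
fibre of `X` over the base with function field `F` (`y` is the generic point of `X`; the prime divisors
on the generic fibre are the horizontal prime divisors of `X`): `f = 0`, or `div f + D ≥ 0` along the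
horizontal prime divisors. -/
def FibreSection (y : Fin (N + 1) → K) (F : IntermediateField ℂ K) (D : Place ℂ K → ℤ) (f : K) :
    Prop :=
  ∀ P, IsPrimeDivisor y P → Horizontal F P → f = 0 ∨ -(D P) ≤ P.ord f

/-- The Kodaira dimension and the numerical dimension of the restriction of the divisor `D` to the
generic fibre over the base with function field `F` have the same value `k`: there are `k` quotients
of sections of a multiple of `D` which are algebraically independent over `F`, and for every Weil
divisor `A` the dimension over `F` of the space of the sections of `m D + A` on the generic fibre is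
`O (m ^ k)`. -/
def FibreAbundant (y : Fin (N + 1) → K) (F : IntermediateField ℂ K) (D : Place ℂ K → ℤ) : Prop :=
  ∃ k : ℕ,
    (∃ m : ℕ, 1 ≤ m ∧ ∃ g : Fin (k + 1) → K, (∀ i, FibreSection y F (m • D) (g i)) ∧ g 0 ≠ 0 ∧
      AlgebraicIndependent F fun i : Fin k => g i.succ / g 0) ∧
    ∀ A : Place ℂ K → ℤ, {P | IsPrimeDivisor y P ∧ A P ≠ 0}.Finite → ∃ C : ℕ, ∀ m : ℕ, 1 ≤ m →
      ∀ (r : ℕ) (f : Fin r → K), LinearIndependent F f →
        (∀ i, FibreSection y F (m • D + A) (f i)) → r ≤ C * m ^ k

end

end Pool.Agent.NH31
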