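import Pool.Agent.NH31.Defs2

/-!
Definitions: projective generic fibres, and semiample divisors on them.
-/

set_option autoImplicit false

open FF Pool.Agent.W602.GT Pool.Agent.Y172

namespace Pool.Agent.NH31

section

variable {K : Type} [Field K] [Algebra ℂ K] {N : ℕ}

/-- The rational map from `X` to the base with function field `F` is regular along the generic fibre
(so that the generic fibre is projective over `F`): `F` is contained in the local ring of `X` at the
centre of every place of `K` which is trivial on `F`. -/
def RegularFibration (y : Fin (N + 1) → K) (F : IntermediateField ℂ K) : Prop :=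
  ∀ Q : Place ℂ K, Horizontal F Q → ∀ f ∈ F, f ∈ localRing y Q

/-- The restriction of the divisor `D` to the generic fibre over the base with function field `F` is
semiample: finitely many sections `g i` of a multiple `m D` on the generic fibre have no common
zeros (at the centre of every place `Q` which is trivial on `F`, the section given by one of them does
not vanish: `div (g i) + m D` is zero along all prime divisors of `X` through this centre). -/
def FibreSemiample (y : Fin (N + 1) → K) (F : IntermediateField ℂ K) (D : Place ℂ K → ℤ) : Prop :=
  ∃ m : ℕ, 1 ≤ m ∧ ∃ (k : ℕ) (g : Fin k → K), (∀ i, g i ≠ 0 ∧ FibreSection y F (m • D) (g i)) ∧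
    ∀ Q : Place ℂ K, Horizontal F Q → ∃ i, ∀ P, IsPrimeDivisor y P → Through y P Q →
      P.ord (g i) + m * D P = 0

end

end Pool.Agent.NH31
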