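import Pool.Agent.NH31.Defs3

/-!
Definitions: finitely generated section rings, and generic fibres on which the effective divisors
are, up to pseudo-automorphisms, in a finitely generated cone with finitely generated section rings.
-/

set_option autoImplicit false

open FF Pool.Agent.W602.GT Pool.Agent.Y172

namespace Pool.Agent.NH31

section

variable {K : Type} [Field K] [Algebra ℂ K] {N : ℕ}

/-- The section ring `⨁ H⁰ (∑ d i • G i)`, over all tuples `d` of natural numbers, of the divisors
`G i` on the generic fibre over the base with function field `F` is a finitely generated algebra over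
`F`: there are finitely many homogeneous elements `g t`, of degrees `c t`, such that all sections of
`∑ d i • G i` are linear combinations over `F` of products of powers of the `g t` of degree `d`. -/
def SectionRingFG (y : Fin (N + 1) → K) (F : IntermediateField ℂ K) {r : ℕ}
    (G : Fin r → Place ℂ K → ℤ) : Prop :=
  ∃ (s : ℕ) (c : Fin s → Fin r → ℕ) (g : Fin s → K),
    (∀ t, FibreSection y F (∑ i, c t i • G i) (g t)) ∧
    ∀ (d : Fin r → ℕ) (f : K), FibreSection y F (∑ i, d i • G i) f →
      f ∈ Submodule.span F {x : K | ∃ n : Fin s → ℕ, (∀ i, ∑ t, n t * c t i = d i) ∧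
        x = ∏ t, g t ^ n t}

/-- The transform of the place `P` under the automorphism `τ` of `K`. -/
noncomputable def pull {F : IntermediateField ℂ K} (τ : K ≃ₐ[F] K) (P : Place ℂ K) : Place ℂ K where
  ord := fun f => P.ord (τ f)
  ord_zero := by rw [map_zero, P.ord_zero]
  ord_mul := fun {f g} hf hg => by
    rw [map_mul, P.ord_mul ((map_ne_zero τ).2 hf) ((map_ne_zero τ).2 hg)]
  ord_add := fun {f g} hf hg hfg => by
    rw [map_add]
    exact P.ord_add ((map_ne_zero τ).2 hf) ((map_ne_zero τ).2 hg)
      (by rw [← map_add]; exact (map_ne_zero τ).2 hfg)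
  ord_const := fun {c} hc => by
    have h1 : τ (algebraMap ℂ K c) = algebraMap ℂ K c := by
      rw [IsScalarTower.algebraMap_apply ℂ F K]
      exact τ.commutes _
    rw [h1]
    exact P.ord_const hc
  surj := by
    obtain ⟨t, ht0, ht⟩ := P.surj
    exact ⟨τ.symm t, (map_ne_zero τ.symm).2 ht0, by rw [AlgEquiv.apply_symm_apply, ht]⟩

/-- The automorphism `τ` of the function field of the generic fibre is a pseudo-automorphism: it
permutes the prime divisors on the generic fibre. -/
def IsPseudoAut (y : Fin (N + 1) → K) (F : IntermediateField ℂ K) (τ : K ≃ₐ[F] K) : Prop :=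
  ∀ P, Horizontal F P → (IsPrimeDivisor y (pull τ P) ↔ IsPrimeDivisor y P)

/-- Up to pseudo-automorphisms, the effective divisors on the generic fibre are in a finitely
generated cone with finitely generated section rings: there are effective divisors
`E 0, ..., E (k - 1)` such that for every effective divisor `A` the section ring of
`A, E 0, ..., E (k - 1)` is finitely generated, and such that for every effective divisor `D` a
multiple `q D`, `q ≥ 1`, is linearly equivalent on the generic fibre to the transform, under a
pseudo-automorphism, of a combination of the `E i` with natural numbers as coefficients. -/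
def ConeFinite (y : Fin (N + 1) → K) (F : IntermediateField ℂ K) : Prop :=
  ∃ (k : ℕ) (E : Fin k → Place ℂ K → ℤ),
    (∀ i, {P | IsPrimeDivisor y P ∧ E i P ≠ 0}.Finite ∧
      ∀ P, IsPrimeDivisor y P → Horizontal F P → 0 ≤ E i P) ∧
    (∀ A : Place ℂ K → ℤ, {P | IsPrimeDivisor y P ∧ A P ≠ 0}.Finite →
      (∀ P, IsPrimeDivisor y P → Horizontal F P → 0 ≤ A P) →
      SectionRingFG y F (Fin.cons A E : Fin (k + 1) → Place ℂ K → ℤ)) ∧
    ∀ D : Place ℂ K → ℤ, {P | IsPrimeDivisor y P ∧ D P ≠ 0}.Finite →
      (∀ P, IsPrimeDivisor y P → Horizontal F P → 0 ≤ D P) →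
      ∃ τ : K ≃ₐ[F] K, IsPseudoAut y F τ ∧ ∃ q : ℕ, 1 ≤ q ∧ ∃ (c : Fin k → ℕ) (g : K), g ≠ 0 ∧
        ∀ P, IsPrimeDivisor y P → Horizontal F P →
          q * D P = P.ord g + ∑ i, c i * E i (pull τ P)

end

end Pool.Agent.NH31
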