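import Pool.Agent.Y172.Rel

/-!
Polynomial growth for families of functions in a finite-dimensional space over a subfield.
-/

set_option autoImplicit false
set_option linter.overlappingInstances false
set_option linter.unusedSectionVars false

open FF MvPolynomial IntermediateField Pool.Agent.W603.LV Pool.Agent.W619.PQ
open Pool.Agent.TH122.AB Pool.Agent.Y172

namespace Pool.Agent.NH31

section

variable {k K : Type} [Field k] [CharZero k] [Field K] [Algebra k K] {a l B : ℕ}

/-- the exponents are bounded -/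
def Bx (B : ℕ) {M : Type} [CommSemiring M] {l : ℕ} (P : MvPolynomial (Fin l) M) : Prop :=
  ∀ d ∈ P.support, ∀ j, d j < B

theorem Bx.sum {B : ℕ} {M : Type} [CommSemiring M] {l : ℕ} {ι : Type} (s : Finset ι)
    {P : ι → MvPolynomial (Fin l) M} (h : ∀ i ∈ s, Bx B (P i)) : Bx B (∑ i ∈ s, P i) := by
  classical
  intro d hd j
  have h1 := MvPolynomial.support_sum hd
  rw [Finset.mem_biUnion] at h1
  obtain ⟨i, hi, hdi⟩ := h1
  exact h i hi d hdi j

theorem Bx.smul {B : ℕ} {M : Type} [CommSemiring M] {l : ℕ} {P : MvPolynomial (Fin l) M}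
    (h : Bx B P) (c : M) : Bx B (C c * P) := by
  intro d hd j
  refine h d ?_ j
  rw [mem_support_iff] at hd ⊢
  intro h0
  apply hd
  rw [coeff_C_mul, h0, mul_zero]

/-- shifted polynomials with bounded exponents are independent -/
theorem box_zero {M : Type} [CommRing M] {l m : ℕ} {R : (Fin l → Fin (m + 1)) → MvPolynomial (Fin l) M}
    (hR : ∀ c, Bx B (R c))
    (h : ∑ c, (monomial (Finsupp.equivFunOnFinite.symm fun j => B * (c j : ℕ)) (1 : M)) * R c = 0)
    (c : Fin l → Fin (m + 1)) : R c = 0 := by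
  classical
  ext d
  rw [coeff_zero]
  by_contra hne
  have hd : ∀ j, d j < B := hR c d (mem_support_iff.2 hne)
  have h1 := congrArg (coeff ((Finsupp.equivFunOnFinite.symm fun j => B * (c j : ℕ)) + d)) h
  rw [coeff_sum, coeff_zero] at h1
  rw [Finset.sum_eq_single c] at h1
  · rw [coeff_monomial_mul', if_pos (by simp), one_mul, add_tsub_cancel_left] at h1
    exact hne h1
  · intro c' _ hcc'
    rw [coeff_monomial_mul']
    split_ifs with hle
    · rw [one_mul]
      by_contra hne'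
      have hd' := hR c' _ (mem_support_iff.2 hne')
      apply hcc'
      funext j
      apply Fin.ext
      have h2 := hd' j
      have h3 := hle j
      have h4 := hd j
      simp only [Finsupp.coe_tsub, Finsupp.coe_add, Pi.sub_apply, Pi.add_apply,
        Finsupp.equivFunOnFinite_symm_apply_apply] at h2 h3
      have hB : 0 < B := by omega
      rcases lt_trichotomy (c' j : ℕ) (c j : ℕ) with h5 | h5 | h5
      · exfalso
        have h6 : B * ((c' j : ℕ) + 1) ≤ B * (c j : ℕ) := Nat.mul_le_mul_left B h5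
        rw [Nat.mul_add, mul_one] at h6
        omega
      · exact h5
      · exfalso
        have h6 : B * ((c j : ℕ) + 1) ≤ B * (c' j : ℕ) := Nat.mul_le_mul_left B h5
        rw [Nat.mul_add, mul_one] at h6
        omega
    · rfl
  · intro hc
    exact absurd (Finset.mem_univ c) hc

/-- shifted copies of a space of functions are independent -/
theorem shift_indep2 {M : IntermediateField k K} {u : Fin l → K} {s : ℕ} {e : Fin s → K}
    (he : ∀ P : Fin s → MvPolynomial (Fin l) M, ∑ i, aeval u (P i) * e i = 0 → ∀ i, P i = 0)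
    {p : K} (hp : p ≠ 0) {N m : ℕ} {f : Fin N → K} (hf : LinearIndependent k f)
    (hbox : ∀ i, ∃ b : Fin s → MvPolynomial (Fin l) M, (∀ t, Bx B (b t)) ∧
      f i * p = ∑ t, aeval u (b t) * e t) :
    LinearIndependent k fun x : (Fin l → Fin (m + 1)) × Fin N =>
      (∏ j, u j ^ (B * (x.1 j : ℕ))) * f x.2 := by
  classical
  choose b hbB hb using hbox
  rw [Fintype.linearIndependent_iff]
  intro α hα
  obtain ⟨R, hR⟩ : ∃ R : (Fin l → Fin (m + 1)) → Fin s → MvPolynomial (Fin l) M, ∀ c t,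
      R c t = ∑ i, C (algebraMap k M (α (c, i))) * b i t := ⟨fun c t => _, fun _ _ => rfl⟩
  have hmono : ∀ c : Fin l → Fin (m + 1), aeval u (monomial
      (Finsupp.equivFunOnFinite.symm fun j => B * (c j : ℕ)) (1 : M)) =
        ∏ j, u j ^ (B * (c j : ℕ)) := by
    intro c
    rw [aeval_monomial, map_one, one_mul, Finsupp.prod_fintype _ _ fun _ => pow_zero _]
    rfl
  have hsum : ∀ c, (∑ i, α (c, i) • f i) * p = ∑ t, aeval u (R c t) * e t := by
    intro c
    rw [Finset.sum_mul]
    have h2 : ∀ i, α (c, i) • f i * p =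
        ∑ t, aeval u (C (algebraMap k M (α (c, i))) * b i t) * e t := by
      intro i
      rw [Algebra.smul_def, mul_assoc, hb i, Finset.mul_sum]
      refine Finset.sum_congr rfl fun t _ => ?_
      rw [map_mul, aeval_C, mul_assoc]
      rfl
    rw [Finset.sum_congr rfl fun i _ => h2 i, Finset.sum_comm]
    refine Finset.sum_congr rfl fun t _ => ?_
    rw [hR, map_sum, Finset.sum_mul]
  have hR0 : ∀ t c, R c t = 0 := by
    intro t
    refine box_zero (B := B) (R := fun c => R c t) (fun c => ?_) ?_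
    · change Bx B (R c t)
      rw [hR]
      exact Bx.sum _ fun i _ => (hbB i t).smul _
    · refine he (fun t => ∑ c, (monomial (Finsupp.equivFunOnFinite.symm
        fun j => B * (c j : ℕ)) (1 : M)) * R c t) ?_ t
      have h1 : (∑ x : (Fin l → Fin (m + 1)) × Fin N,
          α x • ((∏ j, u j ^ (B * (x.1 j : ℕ))) * f x.2)) * p = 0 := by
        rw [hα, zero_mul]
      rw [← h1, Fintype.sum_prod_type, Finset.sum_mul]
      simp only [map_sum, map_mul, hmono, Finset.sum_mul]
      rw [Finset.sum_comm]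
      refine Finset.sum_congr rfl fun c _ => ?_
      have h3 : ∑ i, α (c, i) • ((∏ j, u j ^ (B * (c j : ℕ))) * f i) * p =
          (∏ j, u j ^ (B * (c j : ℕ))) * ((∑ i, α (c, i) • f i) * p) := by
        rw [Finset.sum_mul, Finset.mul_sum]
        refine Finset.sum_congr rfl fun i _ => ?_
        rw [Algebra.smul_def, Algebra.smul_def]
        ring
      rw [h3, hsum, Finset.mul_sum]
      refine Finset.sum_congr rfl fun t _ => ?_
      ring
  have hc : ∀ c, ∑ i, α (c, i) • f i = 0 := by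
    intro c
    have h1 := hsum c
    have h2 : ∑ t, aeval u (R c t) * e t = 0 :=
      Finset.sum_eq_zero fun t _ => by rw [hR0 t c, map_zero, zero_mul]
    rw [h2] at h1
    exact (mul_eq_zero.1 h1).resolve_right hp
  rintro ⟨c, i⟩
  exact Fintype.linearIndependent_iff.1 hf (fun i => α (c, i)) (hc c) i

/-- a finite-dimensional space of functions over a subfield, in coordinates -/
theorem exists_box {M : IntermediateField k K} {u : Fin l → K} (hu : AlgebraicIndependent M u)
    {τ : ℕ} (w : Fin τ → K) :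
    ∃ (B s : ℕ) (e : Fin s → K) (p : K), p ≠ 0 ∧
      (∀ P : Fin s → MvPolynomial (Fin l) M, ∑ i, aeval u (P i) * e i = 0 → ∀ i, P i = 0) ∧
      ∀ f ∈ Submodule.span M (Set.range w), ∃ b : Fin s → MvPolynomial (Fin l) M,
        (∀ t, Bx B (b t)) ∧ f * p = ∑ t, aeval u (b t) * e t := by
  classical
  obtain ⟨𝕂, h𝕂⟩ : ∃ 𝕂 : IntermediateField M K, 𝕂 = IntermediateField.adjoin M (Set.range u) :=
    ⟨_, rfl⟩
  obtain ⟨W, hW⟩ : ∃ W : Submodule 𝕂 K, W = Submodule.span 𝕂 (Set.range w) := ⟨_, rfl⟩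
  have hWfin : Module.Finite 𝕂 W := by
    rw [hW]
    exact Module.Finite.span_of_finite 𝕂 (Set.finite_range w)
  let bas := Module.finBasis 𝕂 W
  have hwW : ∀ i, w i ∈ W := fun i => by
    rw [hW]
    exact Submodule.subset_span ⟨i, rfl⟩
  obtain ⟨s, hs⟩ : ∃ s, s = Module.finrank 𝕂 W := ⟨_, rfl⟩
  rw [← hs] at bas
  let e : Fin s → K := fun i => (bas i : K)
  -- the coordinates are quotients of polynomials
  have hcoef : ∀ (i : Fin τ) (t : Fin s), ∃ P Q : MvPolynomial (Fin l) M, Q ≠ 0 ∧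
      ((bas.repr ⟨w i, hwW i⟩ t : 𝕂) : K) * aeval u Q = aeval u P := by
    intro i t
    have h1 : ((bas.repr ⟨w i, hwW i⟩ t : 𝕂) : K) ∈ IntermediateField.adjoin M (Set.range u) := by
      rw [← h𝕂]
      exact (bas.repr ⟨w i, hwW i⟩ t).2
    rw [IntermediateField.mem_adjoin_range_iff] at h1
    obtain ⟨P, Q, hPQ⟩ := h1
    by_cases hQ : Q = 0
    · refine ⟨0, 1, one_ne_zero, ?_⟩
      rw [hPQ, hQ, map_zero (aeval u), div_zero, zero_mul]
    · refine ⟨P, Q, hQ, ?_⟩
      have hQ0 : aeval u Q ≠ 0 := fun h => hQ ((injective_iff_map_eq_zero _).1 hu Q h)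
      rw [hPQ, div_mul_cancel₀ _ hQ0]
  choose P Q hQ0 hPQ using hcoef
  obtain ⟨D, hD⟩ : ∃ D : MvPolynomial (Fin l) M, D = ∏ i, ∏ t, Q i t := ⟨_, rfl⟩
  have hD0 : D ≠ 0 := by
    rw [hD]
    exact Finset.prod_ne_zero_iff.2 fun i _ => Finset.prod_ne_zero_iff.2 fun t _ => hQ0 i t
  have hdiv : ∀ i t, ∃ P' : MvPolynomial (Fin l) M,
      ((bas.repr ⟨w i, hwW i⟩ t : 𝕂) : K) * aeval u D = aeval u P' := by
    intro i t
    have h1 : Q i t ∣ D := by
      rw [hD]
      exact (Finset.dvd_prod_of_mem _ (Finset.mem_univ t)).trans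
        (Finset.dvd_prod_of_mem (fun i => ∏ t, Q i t) (Finset.mem_univ i))
    obtain ⟨D', hD'⟩ := h1
    refine ⟨P i t * D', ?_⟩
    rw [hD', map_mul, ← mul_assoc, hPQ, ← map_mul]
  choose P' hP' using hdiv
  obtain ⟨B, hB⟩ : ∃ B : ℕ, ∀ i t, Bx B (P' i t) := by
    refine ⟨(∑ i, ∑ t, (P' i t).totalDegree) + 1, fun i t d hd j => ?_⟩
    have h1 := le_totalDegree hd
    have h2 : d j ≤ d.sum fun _ e => e := by
      rw [Finsupp.sum]
      by_cases hj : d j = 0
      · rw [hj]
        exact Nat.zero_le _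
      · exact Finset.single_le_sum (f := fun i => d i) (fun _ _ => Nat.zero_le _)
          (Finsupp.mem_support_iff.2 hj)
    have h3 : (P' i t).totalDegree ≤ ∑ t, (P' i t).totalDegree :=
      Finset.single_le_sum (f := fun t => (P' i t).totalDegree) (fun _ _ => Nat.zero_le _)
        (Finset.mem_univ t)
    have h4 : ∑ t, (P' i t).totalDegree ≤ ∑ i, ∑ t, (P' i t).totalDegree :=
      Finset.single_le_sum (f := fun i => ∑ t, (P' i t).totalDegree) (fun _ _ => Nat.zero_le _)
        (Finset.mem_univ i)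
    omega
  refine ⟨B, s, e, aeval u D, fun h => hD0 ((injective_iff_map_eq_zero _).1 hu D h), ?_, ?_⟩
  · intro R hR i
    have hmem : ∀ F : MvPolynomial (Fin l) M, aeval u F ∈ 𝕂 := by
      intro F
      rw [h𝕂]
      exact IntermediateField.algebra_adjoin_le_adjoin M _ (by
        rw [Algebra.adjoin_range_eq_range_aeval]
        exact ⟨F, rfl⟩)
    have h1 : ∑ i, (⟨aeval u (R i), hmem _⟩ : 𝕂) • bas i = 0 := by
      apply Subtype.ext
      refine Eq.trans ?_ hR
      simp only [AddSubmonoidClass.coe_finsetSum, Submodule.coe_smul]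
      rfl
    have h2 := Fintype.linearIndependent_iff.1 bas.linearIndependent _ h1 i
    have h3 : aeval u (R i) = 0 := congrArg Subtype.val h2
    exact (injective_iff_map_eq_zero _).1 hu _ h3
  · have hw' : ∀ i, w i * aeval u D = ∑ t, aeval u (P' i t) * e t := by
      intro i
      have h1 := bas.sum_repr ⟨w i, hwW i⟩
      have h2 := congrArg Subtype.val h1
      simp only [AddSubmonoidClass.coe_finsetSum, Submodule.coe_smul] at h2
      rw [← h2, Finset.sum_mul]
      refine Finset.sum_congr rfl fun t _ => ?_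
      rw [← hP' i t]
      change ((bas.repr ⟨w i, hwW i⟩ t : 𝕂) : K) * (bas t : K) * aeval u D =
        ((bas.repr ⟨w i, hwW i⟩ t : 𝕂) : K) * aeval u D * (bas t : K)
      ring
    intro f hf
    rw [Submodule.mem_span_range_iff_exists_fun] at hf
    obtain ⟨c, rfl⟩ := hf
    refine ⟨fun t => ∑ i, C (c i) * P' i t, fun t => Bx.sum _ fun i _ => (hB i t).smul _, ?_⟩
    rw [Finset.sum_mul]
    simp only [map_sum, map_mul, aeval_C, Finset.sum_mul]
    rw [Finset.sum_comm]
    refine Finset.sum_congr rfl fun i _ => ?_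
    rw [Algebra.smul_def, mul_assoc, hw' i, Finset.mul_sum]
    refine Finset.sum_congr rfl fun t _ => ?_
    rw [mul_assoc]

/-- **Growth in a finite-dimensional space over a subfield.** -/
theorem growth_fin {n : ℕ} {Z : Fin n → K} (hZ : IsTranscendenceBasis k Z)
    (hfd : FiniteDimensional (IntermediateField.adjoin k (Set.range Z)) K)
    (S : Finset K) (𝓕 : ℕ → Set K)
    (hA : ∀ P : Place k K, ∃ C : ℕ, ∀ m, 1 ≤ m → ∀ f ∈ 𝓕 m, Ge P (-((C * m : ℕ) : ℤ)) f)
    (hB : ∀ P : Place k K, (∀ s ∈ S, P.Reg s) → ∀ m, 1 ≤ m → ∀ f ∈ 𝓕 m, P.Reg f)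
    {M : IntermediateField k K} {u : Fin l → K} (hu : AlgebraicIndependent M u)
    (hn : n = a + l) {τ : ℕ} (w : Fin τ → K)
    (hW : ∀ m, 1 ≤ m → ∀ f ∈ 𝓕 m, f ∈ Submodule.span M (Set.range w)) :
    ∃ C : ℕ, ∀ m, 1 ≤ m → ∀ (N : ℕ) (f : Fin N → K), LinearIndependent k f →
      (∀ i, f i ∈ 𝓕 m) → N ≤ C * m ^ a := by
  classical
  obtain ⟨B, s, e, p, hp, he, hbox⟩ := exists_box hu w
  have hu0 : ∀ j, u j ≠ 0 := fun j => hu.ne_zero j
  let 𝓖 : ℕ → Set K := fun m => {g | ∃ c : Fin l → Fin (m + 1), ∃ f ∈ 𝓕 m,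
    g = (∏ j, u j ^ (B * (c j : ℕ))) * f}
  obtain ⟨C, hC⟩ := growth hZ hfd (S ∪ Finset.univ.image u) 𝓖 (by
    intro P
    obtain ⟨C, hC⟩ := hA P
    refine ⟨C + B * ∑ j, (P.ord (u j)).natAbs, ?_⟩
    rintro m hm _ ⟨c, f, hf, rfl⟩
    have h1 := hC m hm f hf
    have h2 : Ge P (-((B * (∑ j, (P.ord (u j)).natAbs) * m : ℕ) : ℤ))
        (∏ j, u j ^ (B * (c j : ℕ))) := by
      right
      rw [ord_prod _ P _ fun j _ => pow_ne_zero _ (hu0 j)]
      have h3 : ∀ j, -((B * m * (P.ord (u j)).natAbs : ℕ) : ℤ) ≤ P.ord (u j ^ (B * (c j : ℕ))) := by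
        intro j
        rw [P.ord_pow]
        have h4 : (c j : ℕ) ≤ m := Nat.lt_succ_iff.1 (c j).2
        have h5 : ((B * (c j : ℕ) : ℕ) : ℤ) ≤ ((B * m : ℕ) : ℤ) := by
          exact_mod_cast Nat.mul_le_mul_left _ h4
        have h6 : -((P.ord (u j)).natAbs : ℤ) ≤ P.ord (u j) := by omega
        have h7 : (0 : ℤ) ≤ ((B * (c j : ℕ) : ℕ) : ℤ) := Int.natCast_nonneg _
        have h8 : (0 : ℤ) ≤ ((P.ord (u j)).natAbs : ℤ) := Int.natCast_nonneg _
        have h9 := mul_le_mul_of_nonneg_left h6 h7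
        have h10 := mul_le_mul_of_nonneg_right h5 h8
        have h11 : ((B * m * (P.ord (u j)).natAbs : ℕ) : ℤ) = ((B * m : ℕ) : ℤ) *
            ((P.ord (u j)).natAbs : ℤ) := by push_cast; ring
        rw [h11]
        linarith
      refine le_trans (le_of_eq ?_) (Finset.sum_le_sum fun j _ => h3 j)
      rw [Finset.sum_neg_distrib]
      congr 1
      rw [← Nat.cast_sum]
      congr 1
      rw [← Finset.mul_sum]
      ring
    have h3 := h2.mul h1
    refine h3.mono (le_of_eq ?_)
    push_cast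
    ring) (by
    rintro P hP m hm _ ⟨c, f, hf, rfl⟩
    refine P.reg_mul ?_ (hB P (fun s hs => hP s (Finset.mem_union_left _ hs)) m hm f hf)
    right
    rw [ord_prod _ P _ fun j _ => pow_ne_zero _ (hu0 j)]
    refine Finset.sum_nonneg fun j _ => ?_
    have h1 := (P.reg_iff (hu0 j)).1 (hP _ (Finset.mem_union_right _
      (Finset.mem_image_of_mem _ (Finset.mem_univ j))))
    rw [P.ord_pow]
    positivity)
  refine ⟨C, fun m hm N f hf hmem => ?_⟩
  have h1 := shift_indep2 (m := m) he hp hf fun i => hbox _ (hW m hm _ (hmem i))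
  let e' := (Fintype.equivFin ((Fin l → Fin (m + 1)) × Fin N))
  have h2 := h1.comp e'.symm e'.symm.injective
  have h3 := hC m hm _ _ h2 fun i => ⟨(e'.symm i).1, f (e'.symm i).2, hmem _, rfl⟩
  rw [Fintype.card_prod, Fintype.card_fun, Fintype.card_fin, Fintype.card_fin, Fintype.card_fin,
    hn, pow_add, ← mul_assoc] at h3
  have h4 : m ^ l ≤ (m + 1) ^ l := Nat.pow_le_pow_left (Nat.le_succ m) l
  have h5 : m ^ l * N ≤ C * m ^ a * m ^ l := (Nat.mul_le_mul_right N h4).trans h3
  rw [mul_comm] at h5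
  exact Nat.le_of_mul_le_mul_right h5 (pow_pos hm l)

end

end Pool.Agent.NH31
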