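import Pool.Agent.Y172.Grow

/-!
Polynomial growth for families of functions of bounded rank over a subfield.
-/

set_option autoImplicit false
set_option linter.overlappingInstances false
set_option linter.unusedSectionVars false

open FF MvPolynomial IntermediateField Pool.Agent.W603.LV Pool.Agent.W619.PQ
open Pool.Agent.TH122.AB Pool.Agent.Y172

namespace Pool.Agent.NH31

/-! ### linear algebra -/

section

variable {k1 M K : Type} [Field k1] [Field M] [Field K] [Algebra k1 M] [Algebra M K] [Algebra k1 K]
  [IsScalarTower k1 M K] {l : ℕ} {v : Fin l → K}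

/-- algebraic elements are independent over a purely transcendental extension -/
theorem lin_disj (hv : AlgebraicIndependent M v) {s : ℕ} {b : Fin s → M}
    (hb : LinearIndependent k1 b) (c : Fin s → K)
    (hc : ∀ i, c i ∈ IntermediateField.adjoin k1 (Set.range v))
    (h : ∑ i, c i * algebraMap M K (b i) = 0) (i : Fin s) : c i = 0 := by
  classical
  have h1 : ∀ i, ∃ P Q : MvPolynomial (Fin l) k1, aeval v Q ≠ 0 ∧ c i * aeval v Q = aeval v P := by
    intro i
    have h2 := hc i
    rw [IntermediateField.mem_adjoin_range_iff] at h2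
    obtain ⟨P, Q, hPQ⟩ := h2
    by_cases hQ : aeval v Q = 0
    · refine ⟨0, 1, by rw [map_one]; exact one_ne_zero, ?_⟩
      rw [hPQ, hQ, div_zero, zero_mul, map_zero]
    · exact ⟨P, Q, hQ, by rw [hPQ, div_mul_cancel₀ _ hQ]⟩
  choose P Q hQ hPQ using h1
  -- common denominators
  obtain ⟨R, hR⟩ : ∃ R : Fin s → MvPolynomial (Fin l) k1, ∀ i,
      R i = P i * ∏ j ∈ Finset.univ.erase i, Q j := ⟨_, fun _ => rfl⟩
  have hD : aeval v (∏ j, Q j) ≠ 0 := by
    rw [map_prod]
    exact Finset.prod_ne_zero_iff.2 fun j _ => hQ j
  have hRc : ∀ i, aeval v (R i) = c i * aeval v (∏ j, Q j) := by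
    intro i
    rw [hR, map_mul, ← hPQ, ← Finset.mul_prod_erase Finset.univ Q (Finset.mem_univ i), map_mul,
      mul_assoc]
  have hRM : ∀ i, aeval v (map (algebraMap k1 M) (R i)) = aeval v (R i) := fun i => by
    rw [aeval_map_algebraMap]
  have hsum : aeval v (∑ i, C (b i) * map (algebraMap k1 M) (R i)) = 0 := by
    rw [map_sum]
    have h2 : ∀ i, aeval v (C (b i) * map (algebraMap k1 M) (R i)) =
        (c i * algebraMap M K (b i)) * aeval v (∏ j, Q j) := by
      intro i
      rw [map_mul, hRM, hRc, aeval_C]
      ring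
    rw [Finset.sum_congr rfl fun i _ => h2 i, ← Finset.sum_mul, h, zero_mul]
  have h3 : ∑ i, C (b i) * map (algebraMap k1 M) (R i) = 0 :=
    (injective_iff_map_eq_zero _).1 hv _ hsum
  have h4 : ∀ i, R i = 0 := by
    intro i
    ext d
    have h5 := congrArg (coeff d) h3
    rw [coeff_sum, coeff_zero] at h5
    have h6 : ∀ j, coeff d (C (b j) * map (algebraMap k1 M) (R j)) = (coeff d (R j)) • b j := by
      intro j
      rw [coeff_C_mul, coeff_map, Algebra.smul_def, mul_comm]
    rw [Finset.sum_congr rfl fun j _ => h6 j] at h5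
    rw [coeff_zero]
    exact Fintype.linearIndependent_iff.1 hb _ h5 i
  have h5 := hRc i
  rw [h4 i, map_zero] at h5
  exact (mul_eq_zero.1 h5.symm).resolve_right hD

/-- the rank over a smaller field -/
theorem fam_rank_le [FiniteDimensional k1 M] {t R : ℕ} {f : Fin t → K} (hf : LinearIndependent k1 f)
    {𝓕 : Set K} (hfF : ∀ i, f i ∈ 𝓕)
    (hR : ∀ (r : ℕ) (g : Fin r → K), LinearIndependent M g → (∀ i, g i ∈ 𝓕) → r ≤ R) :
    t ≤ Module.finrank k1 M * R := by
  classical
  obtain ⟨κ, a, ha, hspan, hlin⟩ := exists_linearIndependent' M f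
  have hfinκ : Finite κ := Finite.of_injective a ha
  have := Fintype.ofFinite κ
  have h1 : Fintype.card κ ≤ R := by
    refine hR _ (fun i => f (a ((Fintype.equivFin κ).symm i))) ?_ fun i => hfF _
    exact hlin.comp _ (Fintype.equivFin κ).symm.injective
  have hW : Module.finrank M (Submodule.span M (Set.range f)) = Fintype.card κ := by
    rw [← hspan]
    exact finrank_span_eq_card hlin
  have hWfin : FiniteDimensional M (Submodule.span M (Set.range f)) :=
    FiniteDimensional.span_of_finite M (Set.finite_range _)
  have hWfin' : FiniteDimensional k1 (Submodule.span M (Set.range f)) :=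
    FiniteDimensional.trans k1 M _
  have h2 : LinearIndependent k1 fun i => (⟨f i, Submodule.subset_span ⟨i, rfl⟩⟩ :
      Submodule.span M (Set.range f)) := by
    refine LinearIndependent.of_comp
      ((Submodule.span M (Set.range f)).subtype.restrictScalars k1) ?_
    exact hf
  have h3 := h2.fintype_card_le_finrank
  rw [Fintype.card_fin, ← Module.finrank_mul_finrank k1 M, hW] at h3
  exact h3.trans (Nat.mul_le_mul_left _ h1)

end

section

variable {k k1 : Type} [Field k] [Field k1] [Algebra k k1]

/-- **Vectors with entries in a small space.** -/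
theorem entry_bound {I : Type} [Fintype I] {N s : ℕ} {c : Fin N → I → k1}
    (hc : LinearIndependent k c) {W : Submodule k k1} [FiniteDimensional k W]
    (hW : ∀ l i, c l i ∈ W)
    (hs : ∀ (t : ℕ) (a : Fin t → Fin N), LinearIndependent k1 (fun i => c (a i)) → t ≤ s) :
    N ≤ s * Module.finrank k W := by
  classical
  -- the columns
  obtain ⟨κ, j, hj, hspan, hlin⟩ := exists_linearIndependent' k1 (fun (i : I) (l : Fin N) => c l i)
  have hfinκ : Finite κ := Finite.of_injective j hj
  have := Fintype.ofFinite κ
  obtain ⟨κ', a, ha, hspan', hlin'⟩ := exists_linearIndependent' k1 c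
  have hfinκ' : Finite κ' := Finite.of_injective a ha
  have := Fintype.ofFinite κ'
  have h1 : Fintype.card κ' ≤ s := by
    refine hs _ (fun i => a ((Fintype.equivFin κ').symm i)) ?_
    exact hlin'.comp _ (Fintype.equivFin κ').symm.injective
  have h2 : Fintype.card κ = Fintype.card κ' := by
    have h3 : Module.finrank k1 (Submodule.span k1 (Set.range fun (i : I) (l : Fin N) => c l i)) =
        Fintype.card κ := by
      rw [← hspan]
      exact finrank_span_eq_card hlin
    have h4 : Module.finrank k1 (Submodule.span k1 (Set.range c)) = Fintype.card κ' := by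
      rw [← hspan']
      exact finrank_span_eq_card hlin'
    rw [← h3, ← h4]
    have h5 := Matrix.rank_eq_finrank_span_row (Matrix.of c)
    have h6 := Matrix.rank_eq_finrank_span_cols (Matrix.of c)
    rw [h5] at h6
    exact h6.symm
  have h3 : LinearIndependent k fun (l : Fin N) (x : κ) => (⟨c l (j x), hW l (j x)⟩ : W) := by
    rw [Fintype.linearIndependent_iff]
    intro g hg
    refine Fintype.linearIndependent_iff.1 hc g ?_
    funext i
    have h4 : (fun l => c l i) ∈ Submodule.span k1 (Set.range fun x : κ => fun l => c l (j x)) := by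
      have h5 : (fun l => c l i) ∈ Submodule.span k1 (Set.range fun (i : I) (l : Fin N) => c l i) :=
        Submodule.subset_span ⟨i, rfl⟩
      rw [← hspan] at h5
      exact h5
    rw [Submodule.mem_span_range_iff_exists_fun] at h4
    obtain ⟨b, hb⟩ := h4
    have h5 : ∀ l, c l i = ∑ x, b x * c l (j x) := by
      intro l
      rw [← congrFun hb l, Finset.sum_apply]
      rfl
    have h6 : ∀ x, ∑ l, g l • c l (j x) = 0 := by
      intro x
      have h7 := congrFun hg x
      have h8 := congrArg Subtype.val h7
      simpa using h8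
    rw [Finset.sum_apply]
    have h7 : ∀ l, (g l • c l) i = ∑ x, b x * (g l • c l (j x)) := by
      intro l
      rw [Pi.smul_apply, h5, Finset.smul_sum]
      refine Finset.sum_congr rfl fun x _ => ?_
      rw [mul_smul_comm]
    rw [Finset.sum_congr rfl fun l _ => h7 l, Finset.sum_comm, Pi.zero_apply]
    refine Finset.sum_eq_zero fun x _ => ?_
    rw [← Finset.mul_sum, h6, mul_zero]
  have h4 := h3.fintype_card_le_finrank
  rw [Fintype.card_fin, Module.finrank_pi_fintype, Finset.sum_const, Finset.card_univ,
    smul_eq_mul, h2] at h4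
  exact h4.trans (Nat.mul_le_mul_right _ h1)

end

end Pool.Agent.NH31
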