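import Pool.Agent.NH31.G2

/-!
Polynomial growth for families of functions of bounded rank over a subfield (coordinates; following
`Pool.Agent.Y172.Grow`).
-/

set_option autoImplicit false
set_option linter.overlappingInstances false
set_option linter.unusedSectionVars false

open FF MvPolynomial IntermediateField Pool.Agent.W603.LV Pool.Agent.W619.PQ
open Pool.Agent.TH122.AB Pool.Agent.Y172

namespace Pool.Agent.NH31

section

variable {k K : Type} [Field k] [CharZero k] [Field K] [Algebra k K] {n : ℕ}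

/-- **Growth, in coordinates.** -/
theorem growth_coord {Z : Fin n → K} (hZ : IsTranscendenceBasis k Z)
    (hfd : FiniteDimensional (IntermediateField.adjoin k (Set.range Z)) K)
    (S : Finset K) (𝓕 : ℕ → Set K)
    (hA : ∀ P : Place k K, ∃ C : ℕ, ∀ m, 1 ≤ m → ∀ f ∈ 𝓕 m, Ge P (-((C * m : ℕ) : ℤ)) f)
    (hB : ∀ P : Place k K, (∀ s ∈ S, P.Reg s) → ∀ m, 1 ≤ m → ∀ f ∈ 𝓕 m, P.Reg f) :
    ∃ e D : ℕ, ∀ m, 1 ≤ m →
      ∃ Ψ : K →ₗ[IntermediateField.adjoin k (Set.range Z)]
        (Fin e → IntermediateField.adjoin k (Set.range Z)), Function.Injective Ψ ∧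
        ∀ f ∈ 𝓕 m, ∀ i, (Ψ f i : K) ∈ Wsp (k := k) Z (D * m) := by
  classical
  obtain ⟨E, hE⟩ : ∃ E : IntermediateField k K, E = IntermediateField.adjoin k (Set.range Z) :=
    ⟨_, rfl⟩
  rw [← hE] at hfd
  let X : Fin n → E := fun i => ⟨Z i, by
    rw [hE]
    exact IntermediateField.subset_adjoin k _ ⟨i, rfl⟩⟩
  have hX : Gens (k := k) X := gens_of hZ.1 hE fun _ => rfl
  have hcK : CharZero K := charZero_of_injective_algebraMap (algebraMap k K).injective
  have hcE : CharZero E := charZero_of_injective_algebraMap (algebraMap k E).injective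
  have hXZ : ∀ P : MvPolynomial (Fin n) k, ((aeval X P : E) : K) = aeval Z P := fun P =>
    (MvPolynomial.aeval_algebraMap_apply K X P).symm
  have hZne : ∀ P : MvPolynomial (Fin n) k, P ≠ 0 → aeval Z P ≠ 0 := by
    intro P hP
    rw [← hXZ]
    have := hX.ne hP
    simpa using this
  -- uniform bounds over a place of `E`
  have hU : ∀ v : Place k E, ∃ C : ℕ, ∀ w : Place k K, (∃ e, Over w v e) → ∀ m, 1 ≤ m →
      ∀ f ∈ 𝓕 m, Ge w (-((C * m : ℕ) : ℤ)) f := by
    intro v
    choose c hc using hA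
    refine ⟨(finite_over (K' := K) v).toFinset.sup c, fun w hw m hm f hf => ?_⟩
    refine (hc w m hm f hf).mono ?_
    have h1 : c w ≤ (finite_over (K' := K) v).toFinset.sup c :=
      Finset.le_sup (f := c) (by simpa using hw)
    have h2 : c w * m ≤ (finite_over (K' := K) v).toFinset.sup c * m :=
      Nat.mul_le_mul_right _ h1
    exact_mod_cast neg_le_neg (by exact_mod_cast h2)
  choose cv hcv using hU
  let b := Module.finBasis E K
  -- a common denominator
  obtain ⟨Q0, hQ0, hQS⟩ : ∃ Q0 : MvPolynomial (Fin n) k, Q0 ≠ 0 ∧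
      ∀ z ∈ S ∪ Finset.univ.image (fun i => b i), ∀ w : Place k K,
        (∀ P : MvPolynomial (Fin n) k, w.Reg (aeval Z P)) → w.Reg (aeval Z Q0 * z) := by
    choose q hq0 hq using fun z : K => exists_mult hZ z
    refine ⟨∏ t ∈ S ∪ Finset.univ.image (fun i => b i), q t,
      Finset.prod_ne_zero_iff.2 fun t _ => hq0 t, ?_⟩
    intro z hz w hw
    rw [← Finset.mul_prod_erase _ q hz, map_mul, mul_comm (aeval Z (q z)), mul_assoc]
    exact w.reg_mul (hw _) (reg_of_int hw (hq z))
  -- the adic places of the factors of the denominator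
  choose va hva1 hva using fun (p : MvPolynomial (Fin n) k) (hp : Irreducible p) =>
    exists_adic hX hp
  let cp : MvPolynomial (Fin n) k → ℕ := fun p => if hp : Irreducible p then cv (va p hp) else 0
  obtain ⟨Q, hQ0', hQ1⟩ : ∃ Q : MvPolynomial (Fin n) k, Q ≠ 0 ∧ ∀ p, Irreducible p → p ∣ Q0 →
      ∀ v : Place k E, v.ord (aeval X p) = 1 →
      (∀ P, P ≠ 0 → 0 ≤ v.ord (aeval X P) ∧ (v.ord (aeval X P) = 0 ↔ ¬ p ∣ P)) →
      (cv v : ℤ) ≤ v.ord (aeval X Q) := by
    let F := (UniqueFactorizationMonoid.factors Q0).toFinset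
    have hF : ∀ p ∈ F, Irreducible p := fun p hp =>
      UniqueFactorizationMonoid.irreducible_of_factor p (Multiset.mem_toFinset.1 hp)
    refine ⟨∏ p ∈ F, p ^ cp p, Finset.prod_ne_zero_iff.2 fun p hp => pow_ne_zero _ (hF p hp).ne_zero,
      ?_⟩
    intro p hp hpQ v hv1 hv
    obtain ⟨p', hp', hass⟩ := UniqueFactorizationMonoid.exists_mem_factors_of_dvd hQ0 hp hpQ
    have hp'F : p' ∈ F := Multiset.mem_toFinset.2 hp'
    have hirr' := hF p' hp'F
    have hvv : v = va p' hirr' := by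
      refine adic_unique hX hirr' ?_ (fun P hP => ?_) (hva1 p' hirr') (hva p' hirr')
      · obtain ⟨u, hu⟩ := hass
        have h1 : v.ord (aeval X (u : MvPolynomial (Fin n) k)) = 0 := by
          rw [(hv _ u.ne_zero).2]
          intro h2
          exact hp.not_isUnit (isUnit_of_dvd_unit h2 u.isUnit)
        rw [← hu, map_mul, v.ord_mul (hX.ne hp.ne_zero) (hX.ne u.ne_zero), hv1, h1, add_zero]
      · rw [hass.symm.dvd_iff_dvd_left]
        exact hv P hP
    rw [map_prod, ord_prod _ v _ fun q hq => by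
      rw [map_pow]
      exact pow_ne_zero _ (hX.ne (hF q hq).ne_zero)]
    have h1 : ∀ q ∈ F, 0 ≤ v.ord (aeval X (q ^ cp q)) := fun q hq =>
      (hv _ (pow_ne_zero _ (hF q hq).ne_zero)).1
    refine le_trans ?_ (Finset.single_le_sum h1 hp'F)
    have h2 : cp p' = cv v := by
      rw [hvv]
      exact dif_pos hirr'
    rw [map_pow, v.ord_pow, h2]
    have h3 : v.ord (aeval X p') = 1 := by
      rw [hvv]
      exact hva1 p' hirr'
    rw [h3, mul_one]
  -- the trace
  let Ψ : ℕ → K →ₗ[E] (Fin (Module.finrank E K) → E) := fun m => LinearMap.pi fun i =>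
    (Algebra.trace E K).comp (LinearMap.mulRight E (aeval Z Q ^ m * (aeval Z Q0 * b i)))
  have hΨ : ∀ m f i, Ψ m f i = Algebra.trace E K (f * (aeval Z Q ^ m * (aeval Z Q0 * b i))) :=
    fun m f i => rfl
  have hQK : aeval Z Q ≠ 0 := hZne Q hQ0'
  have hQ0K : aeval Z Q0 ≠ 0 := hZne Q0 hQ0
  have hΨinj : ∀ m, Function.Injective (Ψ m) := by
    intro m
    rw [← LinearMap.ker_eq_bot, LinearMap.ker_eq_bot']
    intro f hf
    by_contra hf0
    have h1 : ∀ z, Algebra.trace E K (f * (aeval Z Q ^ m * (aeval Z Q0 * z))) = 0 := by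
      intro z
      rw [← b.sum_repr z, Finset.mul_sum, Finset.mul_sum, Finset.mul_sum, map_sum]
      refine Finset.sum_eq_zero fun i _ => ?_
      have h2 : f * (aeval Z Q ^ m * (aeval Z Q0 * (b.repr z i • b i))) =
          b.repr z i • (f * (aeval Z Q ^ m * (aeval Z Q0 * b i))) := by
        rw [Algebra.smul_def, Algebra.smul_def]
        ring
      rw [h2, map_smul, ← hΨ, congrFun hf i]
      simp
    have h2 := h1 ((f * (aeval Z Q ^ m * aeval Z Q0))⁻¹)
    have h3 : f * (aeval Z Q ^ m * (aeval Z Q0 * (f * (aeval Z Q ^ m * aeval Z Q0))⁻¹)) = 1 := by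
      have h4 : f * (aeval Z Q ^ m * aeval Z Q0) ≠ 0 :=
        mul_ne_zero hf0 (mul_ne_zero (pow_ne_zero _ hQK) hQ0K)
      calc f * (aeval Z Q ^ m * (aeval Z Q0 * (f * (aeval Z Q ^ m * aeval Z Q0))⁻¹)) =
          (f * (aeval Z Q ^ m * aeval Z Q0)) * (f * (aeval Z Q ^ m * aeval Z Q0))⁻¹ := by ring
        _ = 1 := mul_inv_cancel₀ h4
    have h5 := Algebra.trace_algebraMap (R := E) (S := K) 1
    rw [map_one] at h5
    rw [h3, h5, nsmul_eq_mul, mul_one] at h2
    have h6 : Module.finrank E K ≠ 0 := Module.finrank_pos.ne'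
    exact h6 (by exact_mod_cast h2)
  -- the traces are polynomials
  have hpoly : ∀ m, 1 ≤ m → ∀ f ∈ 𝓕 m, ∀ i, ∃ P : MvPolynomial (Fin n) k, Ψ m f i = aeval X P := by
    intro m hm f hf i
    refine poly_of_reg hX fun p hp v hv1 hv => ?_
    rw [hΨ]
    refine trace_reg v _ fun w e hw => ?_
    have hwZ : ∀ P : MvPolynomial (Fin n) k, w.Reg (aeval Z P) := by
      intro P
      rw [← hXZ]
      refine hw.reg.2 ?_
      by_cases hP : P = 0
      · rw [hP, map_zero]
        exact v.reg_zero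
      · exact Or.inr (hv P hP).1
    have hZv : ∀ P, w.ord (aeval Z P) = e * v.ord (aeval X P) := fun P => by
      rw [← hXZ]
      exact hw.2 _
    have h1 : w.Reg (f * aeval Z Q ^ m) := by
      by_cases hpQ : p ∣ Q0
      · have h2 := hcv v w ⟨e, hw⟩ m hm f hf
        rcases h2 with h2 | h2
        · rw [h2, zero_mul]
          exact w.reg_zero
        · by_cases hf0 : f = 0
          · rw [hf0, zero_mul]
            exact w.reg_zero
          right
          have h3 := hQ1 p hp hpQ v hv1 hv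
          have he : (1 : ℤ) ≤ e := by exact_mod_cast hw.1
          rw [w.ord_mul hf0 (pow_ne_zero _ hQK), w.ord_pow, hZv]
          push_cast at h2
          have h4 : (cv v : ℤ) ≤ e * v.ord (aeval X Q) := by
            nlinarith [Int.natCast_nonneg (cv v)]
          nlinarith [Int.natCast_nonneg m]
      · refine w.reg_mul ?_ ?_
        · refine hB w (fun s hs => ?_) m hm f hf
          have h2 := hQS s (Finset.mem_union_left _ hs) w hwZ
          have h3 : w.ord (aeval Z Q0) = 0 := by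
            rw [hZv, (hv Q0 hQ0).2.2 hpQ, mul_zero]
          by_cases hs0 : s = 0
          · exact Or.inl hs0
          right
          have h4 := h2.resolve_left (mul_ne_zero hQ0K hs0)
          rwa [w.ord_mul hQ0K hs0, h3, zero_add] at h4
        · rw [← map_pow]
          exact hwZ _
    have h2 : w.Reg (f * aeval Z Q ^ m * (aeval Z Q0 * b i)) :=
      w.reg_mul h1 (hQS (b i) (Finset.mem_union_right _ (Finset.mem_image_of_mem _
        (Finset.mem_univ i))) w hwZ)
    rw [mul_assoc] at h2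
    exact h2
  -- the degrees
  obtain ⟨D, hD⟩ : ∃ D : ℕ, ∀ m, 1 ≤ m → ∀ f ∈ 𝓕 m, ∀ i, ∀ P : MvPolynomial (Fin n) k,
      Ψ m f i = aeval X P → P.totalDegree ≤ D * m := by
    rcases Nat.eq_zero_or_pos n with hn | hn
    · subst hn
      refine ⟨0, fun m _ f _ i P _ => ?_⟩
      rw [MvPolynomial.eq_C_of_isEmpty P, totalDegree_C]
      exact Nat.zero_le _
    obtain ⟨v, hv⟩ := exists_degree hX hn
    obtain ⟨τ, hτ0, hτ⟩ := v.surj
    -- bounds for the orders of the fixed elements
    obtain ⟨c, hc⟩ : ∃ c : ℕ, ∀ w : Place k K, (∃ e, Over w v e) →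
        (-(c : ℤ) ≤ w.ord (aeval Z Q) ∧ ∀ i, -(c : ℤ) ≤ w.ord (aeval Z Q0 * b i)) := by
      let c0 : Place k K → ℕ := fun w => (w.ord (aeval Z Q)).natAbs +
        ∑ i, (w.ord (aeval Z Q0 * b i)).natAbs
      refine ⟨(finite_over (K' := K) v).toFinset.sup c0, fun w hw => ?_⟩
      have h1 : c0 w ≤ (finite_over (K' := K) v).toFinset.sup c0 :=
        Finset.le_sup (f := c0) (by simpa using hw)
      have h2 : ∀ i, (w.ord (aeval Z Q0 * b i)).natAbs ≤ ∑ i, (w.ord (aeval Z Q0 * b i)).natAbs :=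
        fun i => Finset.single_le_sum (f := fun i => (w.ord (aeval Z Q0 * b i)).natAbs)
          (fun _ _ => Nat.zero_le _) (Finset.mem_univ i)
      have h3 : c0 w = (w.ord (aeval Z Q)).natAbs + ∑ i, (w.ord (aeval Z Q0 * b i)).natAbs := rfl
      refine ⟨by omega, fun i => ?_⟩
      have := h2 i
      omega
    refine ⟨cv v + 2 * c, fun m hm f hf i P hP => ?_⟩
    by_cases hP0 : P = 0
    · rw [hP0, totalDegree_zero]
      exact Nat.zero_le _
    obtain ⟨M, hM⟩ : ∃ M : ℕ, M = (cv v + 2 * c) * m := ⟨_, rfl⟩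
    have h1 : v.Reg (Algebra.trace E K (algebraMap E K τ ^ M *
        (f * (aeval Z Q ^ m * (aeval Z Q0 * b i))))) := by
      refine trace_reg v _ fun w e hw => ?_
      have hbi : aeval Z Q0 * b i ≠ 0 := mul_ne_zero hQ0K (b.ne_zero i)
      have hτK : algebraMap E K τ ≠ 0 := by simpa using hτ0
      have h2 := hcv v w ⟨e, hw⟩ m hm f hf
      by_cases hf0 : f = 0
      · left
        rw [hf0, zero_mul, mul_zero]
      right
      have h2 := h2.resolve_left hf0
      obtain ⟨h3, h4⟩ := hc w ⟨e, hw⟩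
      have h5 := h4 i
      have he : (1 : ℤ) ≤ e := by exact_mod_cast hw.1
      have hτw : w.ord (algebraMap E K τ) = e := by
        rw [hw.2, hτ, mul_one]
      rw [w.ord_mul (pow_ne_zero _ hτK) (mul_ne_zero hf0 (mul_ne_zero (pow_ne_zero _ hQK) hbi)),
        w.ord_mul hf0 (mul_ne_zero (pow_ne_zero _ hQK) hbi),
        w.ord_mul (pow_ne_zero _ hQK) hbi, w.ord_pow, w.ord_pow, hτw, hM]
      push_cast at h2 ⊢
      have hm' : (1 : ℤ) ≤ m := by exact_mod_cast hm
      have h6 : (0 : ℤ) ≤ (cv v + 2 * c) * m := by positivity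
      nlinarith [Int.natCast_nonneg c, Int.natCast_nonneg (cv v), mul_le_mul_of_nonneg_left h3
        (Int.natCast_nonneg m), mul_le_mul_of_nonneg_left he h6, mul_le_mul_of_nonneg_left hm'
        (Int.natCast_nonneg c)]
    have h2 : Algebra.trace E K (algebraMap E K τ ^ M *
        (f * (aeval Z Q ^ m * (aeval Z Q0 * b i)))) = τ ^ M * aeval X P := by
      rw [← map_pow, ← Algebra.smul_def, map_smul, ← hΨ, hP, smul_eq_mul]
    rw [h2] at h1
    have h3 := h1.resolve_left (mul_ne_zero (pow_ne_zero _ hτ0) (hX.ne hP0))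
    rw [v.ord_mul (pow_ne_zero _ hτ0) (hX.ne hP0), v.ord_pow, hτ, hv P hP0] at h3
    rw [← hM]
    omega
  subst hE
  refine ⟨Module.finrank _ K, D, fun m hm => ⟨Ψ m, hΨinj m, fun f hf i => ?_⟩⟩
  obtain ⟨P, hP⟩ := hpoly m hm f hf i
  rw [hP, hXZ]
  exact mem_Wsp Z _ (hD m hm f hf i P hP)

end

end Pool.Agent.NH31
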