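import Pool.Agent.NH31.G3
import Pool.Agent.Y172.UpA

/-!
Polynomial growth for families of functions of bounded rank over a subfield.
-/

set_option autoImplicit false
set_option linter.overlappingInstances false
set_option linter.unusedSectionVars false

open FF MvPolynomial IntermediateField Pool.Agent.W603.LV Pool.Agent.W619.PQ
open Pool.Agent.TH122.AB Pool.Agent.Y172

namespace Pool.Agent.NH31

section

variable {k K : Type} [Field k] [CharZero k] [Field K] [Algebra k K] {n a l : ℕ}

/-- polynomials in two groups of variables -/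
theorem wsp_split {M : IntermediateField k K} {u : Fin a → M} {v : Fin l → K}
    {Z : Fin n → K} {e : Fin n ≃ Fin l ⊕ Fin a}
    (hZ : ∀ i, Z i = Sum.elim v (fun j => (u j : K)) (e i)) {D : ℕ} {x : K}
    (hx : x ∈ Wsp (k := k) Z D) :
    ∃ c : (Fin l → Fin (D + 1)) → M, (∀ β, c β ∈ Wsp (k := k) u D) ∧
      x = ∑ β, (c β : K) * ∏ j, v j ^ (β j : ℕ) := by
  classical
  unfold Wsp at hx
  induction hx using Submodule.span_induction with
  | mem x hx =>
    obtain ⟨m, rfl⟩ := hx
    have h1 : ∏ b, Z b ^ (m b : ℕ) = (∏ j : Fin l, v j ^ (m (e.symm (Sum.inl j)) : ℕ)) *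
        ((∏ j : Fin a, u j ^ (m (e.symm (Sum.inr j)) : ℕ) : M) : K) := by
      rw [← Equiv.prod_comp e.symm, Fintype.prod_sum_type]
      congr 1
      · refine Finset.prod_congr rfl fun j _ => ?_
        rw [hZ, Equiv.apply_symm_apply, Sum.elim_inl]
      · push_cast
        refine Finset.prod_congr rfl fun j _ => ?_
        rw [hZ, Equiv.apply_symm_apply, Sum.elim_inr]
    obtain ⟨β0, hβ0⟩ : ∃ β0 : Fin l → Fin (D + 1), β0 = fun j => m (e.symm (Sum.inl j)) := ⟨_, rfl⟩
    obtain ⟨c, hc⟩ : ∃ c : (Fin l → Fin (D + 1)) → M, ∀ β, c β = if β = β0 then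
      ∏ j : Fin a, u j ^ (m (e.symm (Sum.inr j)) : ℕ) else 0 := ⟨_, fun _ => rfl⟩
    refine ⟨c, fun β => ?_, ?_⟩
    · rw [hc]
      split_ifs with h
      · exact Submodule.subset_span ⟨fun j => m (e.symm (Sum.inr j)), rfl⟩
      · exact Submodule.zero_mem _
    · rw [Finset.sum_eq_single β0]
      · rw [hc, if_pos rfl]
        change ∏ b, Z b ^ (m b : ℕ) = _
        rw [h1, mul_comm, hβ0]
      · intro β _ hβ
        rw [hc, if_neg hβ]
        simp
      · intro h
        exact absurd (Finset.mem_univ _) h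
  | zero => exact ⟨0, fun β => Submodule.zero_mem _, by simp⟩
  | add x x' _ _ h h' =>
    obtain ⟨c, hc, rfl⟩ := h
    obtain ⟨c', hc', rfl⟩ := h'
    refine ⟨c + c', fun β => Submodule.add_mem _ (hc β) (hc' β), ?_⟩
    rw [← Finset.sum_add_distrib]
    refine Finset.sum_congr rfl fun β _ => ?_
    rw [Pi.add_apply]
    push_cast
    ring
  | smul t x _ h =>
    obtain ⟨c, hc, rfl⟩ := h
    refine ⟨t • c, fun β => Submodule.smul_mem _ _ (hc β), ?_⟩
    rw [Finset.smul_sum]
    refine Finset.sum_congr rfl fun β _ => ?_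
    rw [Pi.smul_apply, Algebra.smul_def, Algebra.smul_def]
    push_cast
    rw [mul_assoc]

/-- **Growth for families of bounded rank.** -/
theorem growth_rank [Algebra.EssFiniteType k K] (M : IntermediateField k K) {u : Fin a → M}
    (hu : IsTranscendenceBasis k u) {v : Fin l → K} (hv : IsTranscendenceBasis M v)
    (S : Finset K) (𝓕 : ℕ → Set K)
    (hA : ∀ P : Place k K, ∃ C : ℕ, ∀ m, 1 ≤ m → ∀ f ∈ 𝓕 m, Ge P (-((C * m : ℕ) : ℤ)) f)
    (hB : ∀ P : Place k K, (∀ s ∈ S, P.Reg s) → ∀ m, 1 ≤ m → ∀ f ∈ 𝓕 m, P.Reg f)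
    (R : ℕ → ℕ) (hR : ∀ m, 1 ≤ m → ∀ (r : ℕ) (g : Fin r → K), LinearIndependent M g →
      (∀ i, g i ∈ 𝓕 m) → r ≤ R m) :
    ∃ C : ℕ, ∀ m, 1 ≤ m → ∀ (N : ℕ) (f : Fin N → K), LinearIndependent k f →
      (∀ i, f i ∈ 𝓕 m) → N ≤ C * R m * m ^ a := by
  classical
  let e : Fin (l + a) ≃ Fin l ⊕ Fin a := finSumFinEquiv.symm
  obtain ⟨Z, hZdef⟩ : ∃ Z : Fin (l + a) → K, Z = Sum.elim v (fun j => (u j : K)) ∘ e := ⟨_, rfl⟩
  have hZi : ∀ i, Z i = Sum.elim v (fun j => (u j : K)) (e i) := fun i => by
    rw [hZdef]
    rfl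
  have hZ : IsTranscendenceBasis k Z := by
    rw [hZdef]
    have h1 := hu.sumElim_comp hv
    exact h1.comp_equiv e
  have hfd := fd_basis hZ
  obtain ⟨E', D, hΨ⟩ := growth_coord hZ hfd S 𝓕 hA hB
  -- the field generated by `u`
  let k1 : IntermediateField k M := IntermediateField.adjoin k (Set.range u)
  have : IsScalarTower k1 M K := IsScalarTower.of_algebraMap_eq fun _ => rfl
  have hk1E : ∀ c : k1, algebraMap k1 K c ∈ IntermediateField.adjoin k (Set.range Z) := by
    rintro ⟨c, hc⟩
    change (c : K) ∈ _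
    induction hc using IntermediateField.adjoin_induction with
    | mem x hx =>
      obtain ⟨j, rfl⟩ := hx
      refine IntermediateField.subset_adjoin k _ ⟨e.symm (Sum.inr j), ?_⟩
      rw [hZi, Equiv.apply_symm_apply, Sum.elim_inr]
    | algebraMap x => exact IntermediateField.algebraMap_mem _ x
    | add x x' _ _ h h' => exact add_mem h h'
    | inv x _ h => exact inv_mem h
    | mul x x' _ _ h h' => exact mul_mem h h'
  have hEk1 : ∀ x ∈ IntermediateField.adjoin k (Set.range Z),
      x ∈ IntermediateField.adjoin k1 (Set.range v) := by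
    intro x hx
    induction hx using IntermediateField.adjoin_induction with
    | mem x hx =>
      obtain ⟨i, rfl⟩ := hx
      rw [hZi]
      rcases e i with j | j
      · exact IntermediateField.subset_adjoin k1 _ ⟨j, rfl⟩
      · rw [Sum.elim_inr]
        have h1 : u j ∈ k1 := IntermediateField.subset_adjoin k _ ⟨j, rfl⟩
        exact IntermediateField.algebraMap_mem _ (⟨u j, h1⟩ : k1)
    | algebraMap x =>
      exact IntermediateField.algebraMap_mem _ (algebraMap k k1 x)
    | add x x' _ _ h h' => exact add_mem h h'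
    | inv x _ h => exact inv_mem h
    | mul x x' _ _ h h' => exact mul_mem h h'
  -- the field `M` is finite over the subfield
  have hfin : FiniteDimensional k1 M := by
    have h1 : Module.rank k1 M ≤
        ((Module.finrank (IntermediateField.adjoin k (Set.range Z)) K : ℕ) : Cardinal) := by
      refine _root_.rank_le fun s hs => ?_
      let es := Fintype.equivFin s
      have hs' : LinearIndependent k1 fun i : Fin (Fintype.card s) => ((es.symm i : s) : M) :=
        hs.comp _ es.symm.injective
      have h2 : LinearIndependent (IntermediateField.adjoin k (Set.range Z))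
          fun i : Fin (Fintype.card s) => (((es.symm i : s) : M) : K) := by
        rw [Fintype.linearIndependent_iff]
        intro g hg i
        apply Subtype.ext
        refine lin_disj (M := M) hv.1 hs' (fun i => (g i : K)) (fun i => hEk1 _ (g i).2) ?_ i
        rw [← hg]
        exact Finset.sum_congr rfl fun i _ => rfl
      have h3 := h2.fintype_card_le_finrank
      rwa [Fintype.card_fin, Fintype.card_coe] at h3
    exact Module.rank_lt_aleph0_iff.1 (h1.trans_lt Cardinal.natCast_lt_aleph0)
  refine ⟨Module.finrank k1 M * (D + 1) ^ a, fun m hm N f hf hmem => ?_⟩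
  obtain ⟨Ψ, hinj, hW⟩ := hΨ m hm
  -- the coordinates
  have hWu : ∀ x ∈ Wsp (k := k) u (D * m), x ∈ k1 := by
    intro x hx
    unfold Wsp at hx
    induction hx using Submodule.span_induction with
    | mem x hx =>
      obtain ⟨b, rfl⟩ := hx
      have hj : ∀ j, u j ∈ k1 := fun j => IntermediateField.subset_adjoin k _ ⟨j, rfl⟩
      exact prod_mem fun j _ => pow_mem (hj j) _
    | zero => exact zero_mem _
    | add x x' _ _ h h' => exact add_mem h h'
    | smul t x _ h =>
      rw [Algebra.smul_def]
      exact mul_mem (IntermediateField.algebraMap_mem _ t) h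
  choose c hc hcΨ using fun (s : Fin N) (i : Fin E') => wsp_split hZi (hW (f s) (hmem s) i)
  let u1 : Fin a → k1 := fun j => ⟨u j, IntermediateField.subset_adjoin k _ ⟨j, rfl⟩⟩
  let c1 : Fin N → (Fin E' × (Fin l → Fin (D * m + 1))) → k1 := fun s x =>
    ⟨c s x.1 x.2, hWu _ (hc s x.1 x.2)⟩
  have hc1 : ∀ s x, c1 s x ∈ Wsp (k := k) u1 (D * m) := by
    intro s x
    have h1 : ∀ x ∈ Wsp (k := k) u (D * m), ∀ hx : x ∈ k1, (⟨x, hx⟩ : k1) ∈ Wsp (k := k) u1 (D * m) := by
      intro x hx
      unfold Wsp at hx
      induction hx using Submodule.span_induction with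
      | mem x hx =>
        obtain ⟨b, rfl⟩ := hx
        intro hx
        refine Submodule.subset_span ⟨b, ?_⟩
        apply Subtype.ext
        push_cast
        rfl
      | zero =>
        intro hx
        exact Submodule.zero_mem _
      | add x x' hx hx' h h' =>
        intro _
        exact Submodule.add_mem _ (h (hWu x hx)) (h' (hWu x' hx'))
      | smul t x hx h =>
        intro _
        exact Submodule.smul_mem _ t (h (hWu x hx))
    exact h1 _ (hc s x.1 x.2) _
  have hcΨ1 : ∀ s i, (Ψ (f s) i : K) = ∑ β, algebraMap k1 K (c1 s (i, β)) * ∏ j, v j ^ (β j : ℕ) :=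
    fun s i => hcΨ s i
  have hind1 : LinearIndependent k c1 := by
    rw [Fintype.linearIndependent_iff]
    intro g hg
    refine Fintype.linearIndependent_iff.1 hf g ?_
    apply hinj
    rw [map_zero, map_sum]
    funext i
    rw [Finset.sum_apply, Pi.zero_apply]
    apply Subtype.ext
    have h1 : ∀ s, ((Ψ (g s • f s) i : IntermediateField.adjoin k (Set.range Z)) : K) =
        algebraMap k K (g s) * (Ψ (f s) i : K) := by
      intro s
      have h2 : g s • f s = (algebraMap k (IntermediateField.adjoin k (Set.range Z)) (g s)) • f s := by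
        rw [algebraMap_smul]
      rw [h2, map_smul, Pi.smul_apply, smul_eq_mul]
      rfl
    have h2 : ((∑ s, Ψ (g s • f s) i : IntermediateField.adjoin k (Set.range Z)) : K) =
        ∑ s, ((Ψ (g s • f s) i : IntermediateField.adjoin k (Set.range Z)) : K) :=
      map_sum (IntermediateField.adjoin k (Set.range Z)).val _ _
    rw [h2, Finset.sum_congr rfl fun s _ => h1 s]
    have h3 : ∀ s, algebraMap k K (g s) * (Ψ (f s) i : K) =
        ∑ β, algebraMap k1 K (g s • c1 s (i, β)) * ∏ j, v j ^ (β j : ℕ) := by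
      intro s
      rw [hcΨ1, Finset.mul_sum]
      refine Finset.sum_congr rfl fun β _ => ?_
      rw [Algebra.smul_def, map_mul, mul_assoc]
      rfl
    rw [Finset.sum_congr rfl fun s _ => h3 s, Finset.sum_comm]
    refine (Finset.sum_eq_zero fun β _ => ?_).trans rfl
    rw [← Finset.sum_mul, ← map_sum]
    have h4 := congrFun hg (i, β)
    rw [Finset.sum_apply] at h4
    have h5 : ∑ s, g s • c1 s (i, β) = 0 := h4
    rw [h5, map_zero, zero_mul]
  have hrank : ∀ (t : ℕ) (b : Fin t → Fin N), LinearIndependent k1 (fun i => c1 (b i)) →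
      t ≤ Module.finrank k1 M * R m := by
    intro t b hb
    refine fam_rank_le (M := M) (K := K) (f := fun i => f (b i)) ?_ (𝓕 := 𝓕 m)
      (fun i => hmem (b i)) fun r g hg hgm => hR m hm r g hg hgm
    rw [Fintype.linearIndependent_iff]
    intro g hg
    refine Fintype.linearIndependent_iff.1 hb g ?_
    funext ⟨i, β⟩
    -- apply the map
    have h1 : ∀ s, ((Ψ (g s • f (b s)) i : IntermediateField.adjoin k (Set.range Z)) : K) =
        algebraMap k1 K (g s) * (Ψ (f (b s)) i : K) := by
      intro s
      have h2 : g s • f (b s) = (⟨algebraMap k1 K (g s), hk1E (g s)⟩ :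
          IntermediateField.adjoin k (Set.range Z)) • f (b s) := by
        rw [Algebra.smul_def]
        rfl
      rw [h2, map_smul, Pi.smul_apply, smul_eq_mul]
      rfl
    have h2 : ∑ s, algebraMap k1 K (g s) * (Ψ (f (b s)) i : K) = 0 := by
      rw [← Finset.sum_congr rfl fun s _ => h1 s]
      have h3 : ((∑ s, Ψ (g s • f (b s)) i : IntermediateField.adjoin k (Set.range Z)) : K) =
          ∑ s, ((Ψ (g s • f (b s)) i : IntermediateField.adjoin k (Set.range Z)) : K) :=
        map_sum (IntermediateField.adjoin k (Set.range Z)).val _ _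
      rw [← h3, ← Finset.sum_apply, ← map_sum, hg, map_zero, Pi.zero_apply]
      rfl
    have h3 : ∑ β : Fin l → Fin (D * m + 1), (∑ s, g s * c1 (b s) (i, β)) •
        (∏ j, v j ^ (β j : ℕ)) = 0 := by
      rw [← h2]
      have h4 : ∀ s, algebraMap k1 K (g s) * (Ψ (f (b s)) i : K) =
          ∑ β, algebraMap k1 K (g s * c1 (b s) (i, β)) * ∏ j, v j ^ (β j : ℕ) := by
        intro s
        rw [hcΨ1, Finset.mul_sum]
        refine Finset.sum_congr rfl fun β _ => ?_
        rw [map_mul, mul_assoc]
      rw [Finset.sum_congr rfl fun s _ => h4 s, Finset.sum_comm]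
      refine Finset.sum_congr rfl fun β _ => ?_
      rw [Algebra.smul_def, map_sum, Finset.sum_mul]
    have h5 : LinearIndependent k1 fun β : Fin l → Fin (D * m + 1) => ∏ j, v j ^ (β j : ℕ) := by
      have h6 := (mono_indep hv.1).comp (fun (β : Fin l → Fin (D * m + 1)) j => (β j : ℕ))
        (fun β β' h => funext fun j => Fin.ext (congrFun h j))
      exact h6.restrict_scalars (R := k1) (fun x x' h => by
        have h7 : (algebraMap k1 M x) = algebraMap k1 M x' := by
          simpa [Algebra.smul_def] using h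
        exact (algebraMap k1 M).injective h7)
    have h6 := Fintype.linearIndependent_iff.1 h5 _ h3 β
    rw [Finset.sum_apply]
    exact h6
  have h1 := entry_bound hind1 hc1 hrank
  refine h1.trans ?_
  have h2 : Module.finrank k (Wsp (k := k) u1 (D * m)) ≤ (D + 1) ^ a * m ^ a := by
    rw [← mul_pow]
    refine (finrank_Wsp u1 _).trans (Nat.pow_le_pow_left ?_ _)
    rw [add_mul, one_mul]
    omega
  refine (Nat.mul_le_mul_left _ h2).trans (le_of_eq ?_)
  ring

end

end Pool.Agent.NH31
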