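import Pool.Agent.NH29.GK.Phi

/-!
# The infinitesimal Kobayashi pseudometric of open subsets of projective space
-/

set_option autoImplicit false

namespace Pool.Agent.NH31.KR

open MvPolynomial Metric Filter Topology
open Pool.Agent.NH29.GK (Mat Phi HolP nsq)

variable {n : ℕ}

/-- The norm for the Fubini-Study metric of the tangent vector which is the image of `w` under the
differential at `x` of `ℂ ^ (n + 1) \ 0 → ℙ ^ n`:
`|x ∧ w| / |x| ^ 2`, where `|x ∧ w| ^ 2 = |x| ^ 2 |w| ^ 2 - |⟨x, w⟩| ^ 2`. -/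
noncomputable def fubini (x w : Fin (n + 1) → ℂ) : ℝ :=
  Real.sqrt ((∑ i, ∑ j, ‖x i * w j - x j * w i‖ ^ 2) / 2) / ∑ i, ‖x i‖ ^ 2

/-- The infinitesimal Kobayashi pseudometric `F_M (p, v)` of the open subset `M` of `ℙ ^ n`, where
`U` is the set of the homogeneous coordinates of the points of `M`, `x` are homogeneous coordinates
of `p`, and `v` is the image of `w` under the differential at `x` of the map
`ℂ ^ (n + 1) \ 0 → ℙ ^ n`, the kernel of which is `ℂ x`: the infimum of the numbers `1 / R` for the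
holomorphic maps from the unit disc to `M` which map `0` to `p` and have the derivative `R v` at `0`.
(These maps have lifts to holomorphic maps `f` from the unit disc to `ℂ ^ (n + 1) \ 0` with
`f 0 = x`.) -/
noncomputable def royden (U : Set (Fin (n + 1) → ℂ)) (x w : Fin (n + 1) → ℂ) : ℝ :=
  sInf {r : ℝ | ∃ (R : ℝ) (f : ℂ → Fin (n + 1) → ℂ) (c : ℂ), 0 < R ∧ r = 1 / R ∧
    DifferentiableOn ℂ f (ball 0 1) ∧ (∀ t ∈ ball (0 : ℂ) 1, f t ∈ U) ∧ f 0 = x ∧
    deriv f 0 = (R : ℂ) • w + c • x}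

/-- The set is not empty if `U` is open. -/
theorem royden_nonempty {U : Set (Fin (n + 1) → ℂ)} (hU : IsOpen U) {x : Fin (n + 1) → ℂ}
    (hx : x ∈ U) (w : Fin (n + 1) → ℂ) :
    {r : ℝ | ∃ (R : ℝ) (f : ℂ → Fin (n + 1) → ℂ) (c : ℂ), 0 < R ∧ r = 1 / R ∧
      DifferentiableOn ℂ f (ball 0 1) ∧ (∀ t ∈ ball (0 : ℂ) 1, f t ∈ U) ∧ f 0 = x ∧
      deriv f 0 = (R : ℂ) • w + c • x}.Nonempty := by
  obtain ⟨δ, hδ, hδU⟩ := Metric.isOpen_iff.1 hU x hx
  have hw : 0 < ‖w‖ + 1 := by positivity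
  set R : ℝ := δ / (‖w‖ + 1) with hR
  have hR0 : 0 < R := div_pos hδ hw
  refine ⟨1 / R, R, fun t => x + t • ((R : ℂ) • w), 0, hR0, rfl, ?_, fun t ht => hδU ?_, ?_, ?_⟩
  · exact ((differentiable_const x).add (differentiable_id.smul_const _)).differentiableOn
  · rw [mem_ball_iff_norm, add_sub_cancel_left, norm_smul, norm_smul, Complex.norm_real,
      Real.norm_of_nonneg hR0.le]
    rw [mem_ball_zero_iff] at ht
    have h1 : R * (‖w‖ + 1) = δ := div_mul_cancel₀ δ hw.ne'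
    have h2 : 0 ≤ R * ‖w‖ := by positivity
    calc ‖t‖ * (R * ‖w‖) ≤ 1 * (R * ‖w‖) := mul_le_mul_of_nonneg_right ht.le h2
      _ < δ := by rw [one_mul, ← h1]; nlinarith
  · simp
  · rw [zero_smul, add_zero]
    have h1 : HasDerivAt (fun t : ℂ => x + t • ((R : ℂ) • w)) ((1 : ℂ) • ((R : ℂ) • w)) 0 :=
      ((hasDerivAt_id (0 : ℂ)).smul_const _).const_add x
    rw [h1.deriv, one_smul]

/-- The norm of `w` is not zero if `w` is not a multiple of `x`. -/
theorem fubini_pos {x w : Fin (n + 1) → ℂ} (hx : x ≠ 0) (hw : ∀ c : ℂ, w ≠ c • x) :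
    0 < fubini x w := by
  obtain ⟨i, hi⟩ := Function.ne_iff.1 hx
  have hi' : x i ≠ 0 := hi
  have h0 : 0 < ∑ i, ‖x i‖ ^ 2 :=
    Finset.sum_pos' (fun _ _ => by positivity) ⟨i, Finset.mem_univ _, by positivity⟩
  obtain ⟨j, hj⟩ : ∃ j, x i * w j - x j * w i ≠ 0 := by
    by_contra h
    push Not at h
    refine hw (w i / x i) (funext fun j => ?_)
    rw [Pi.smul_apply, smul_eq_mul]
    have h1 := h j
    field_simp
    linear_combination h1
  refine div_pos (Real.sqrt_pos.2 (div_pos ?_ two_pos)) h0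
  refine Finset.sum_pos' (fun _ _ => Finset.sum_nonneg fun _ _ => by positivity)
    ⟨i, Finset.mem_univ _, Finset.sum_pos' (fun _ _ => by positivity)
      ⟨j, Finset.mem_univ _, by positivity⟩⟩

/-- The norm does not depend on the choice of `w`. -/
theorem fubini_add {x w : Fin (n + 1) → ℂ} {R : ℝ} (hR : 0 ≤ R) (c : ℂ) :
    fubini x ((R : ℂ) • w + c • x) = R * fubini x w := by
  have h1 : ∀ i j, ‖x i * ((R : ℂ) • w + c • x) j - x j * ((R : ℂ) • w + c • x) i‖ ^ 2 =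
      R ^ 2 * ‖x i * w j - x j * w i‖ ^ 2 := by
    intro i j
    have : x i * ((R : ℂ) • w + c • x) j - x j * ((R : ℂ) • w + c • x) i =
        (R : ℂ) * (x i * w j - x j * w i) := by
      simp only [Pi.add_apply, Pi.smul_apply, smul_eq_mul]
      ring
    rw [this, norm_mul, mul_pow, Complex.norm_real, Real.norm_of_nonneg hR]
  unfold fubini
  have h2 : ∑ i, ∑ j, ‖x i * ((R : ℂ) • w + c • x) j - x j * ((R : ℂ) • w + c • x) i‖ ^ 2 =
      R ^ 2 * ∑ i, ∑ j, ‖x i * w j - x j * w i‖ ^ 2 := by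
    rw [Finset.mul_sum]
    refine Finset.sum_congr rfl fun i _ => ?_
    rw [Finset.mul_sum]
    exact Finset.sum_congr rfl fun j _ => h1 i j
  rw [h2, mul_div_assoc, Real.sqrt_mul (sq_nonneg R), Real.sqrt_sq hR, mul_div_assoc]

/-- The projection matrix fixes the vector. -/
theorem Phi_mul {v : Fin (n + 1) → ℂ} (hv : v ≠ 0) (j : Fin (n + 1)) :
    ∑ k, Phi v j k * v k = v j := by
  have h1 := Pool.Agent.NH29.GK.nsq_ne hv
  have h2 : ∑ k, Phi v j k * v k = v j * nsq v / nsq v := by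
    unfold Phi
    rw [nsq, Finset.mul_sum, Finset.sum_div]
    refine Finset.sum_congr rfl fun k _ => ?_
    ring
  rw [h2, mul_div_assoc, div_self h1, mul_one]

/-- The Fubini-Study norm is bounded by the norm of the derivative of the projection matrix. -/
theorem fubini_le {x u : Fin (n + 1) → ℂ} (hx : x ≠ 0) :
    fubini x u ≤ 2 * (n + 1) ^ 2 * ‖fderiv ℝ Phi x u‖ := by
  set A : Mat n := fderiv ℝ Phi x u with hA
  have hd : DifferentiableAt ℝ (Phi (M := n)) x :=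
    (Pool.Agent.NH29.GK.contDiffAt_Phi hx).differentiableAt (by norm_num)
  -- the derivative of `Phi v v = v`
  have key : ∀ j, ∑ k, (A j k * x k + Phi x j k * u k) = u j := by
    intro j
    have hPd : ∀ k, HasFDerivAt (fun v : Fin (n + 1) → ℂ => Phi v j k)
        ((ContinuousLinearMap.proj (R := ℝ) (φ := fun _ : Fin (n + 1) => ℂ) k).comp
          ((ContinuousLinearMap.proj (R := ℝ) (φ := fun _ : Fin (n + 1) => Fin (n + 1) → ℂ) j).comp
            (fderiv ℝ Phi x))) x := by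
      intro k
      have h1 := hd.hasFDerivAt
      rw [hasFDerivAt_pi'] at h1
      have h2 := h1 j
      rw [hasFDerivAt_pi'] at h2
      exact h2 k
    have hv : ∀ k, HasFDerivAt (fun v : Fin (n + 1) → ℂ => v k)
        (ContinuousLinearMap.proj (R := ℝ) (φ := fun _ : Fin (n + 1) => ℂ) k) x := fun k =>
      (ContinuousLinearMap.proj (R := ℝ) (φ := fun _ : Fin (n + 1) => ℂ) k).hasFDerivAt
    have hsum := HasFDerivAt.fun_sum (u := Finset.univ) fun k (_ : k ∈ Finset.univ) =>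
      (hPd k).mul (hv k)
    have heq : (fun v : Fin (n + 1) → ℂ => ∑ k, Phi v j k * v k) =ᶠ[𝓝 x] fun v => v j := by
      filter_upwards [isOpen_ne.mem_nhds hx] with v hv
      exact Phi_mul hv j
    have h3 := (hsum.congr_of_eventuallyEq heq.symm).unique (hv j)
    have h4 := congrArg (fun L : (Fin (n + 1) → ℂ) →L[ℝ] ℂ => L u) h3
    simp only [ContinuousLinearMap.sum_apply, ContinuousLinearMap.add_apply,
      ContinuousLinearMap.smul_apply, ContinuousLinearMap.comp_apply,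
      ContinuousLinearMap.proj_apply, smul_eq_mul] at h4
    rw [← h4]
    refine Finset.sum_congr rfl fun k _ => ?_
    rw [hA]
    ring
  have hPx : ∀ j, ∑ k, Phi x j k * u k = x j * ((∑ k, (starRingEnd ℂ) (x k) * u k) / nsq x) := by
    intro j
    unfold Phi
    rw [Finset.sum_div, Finset.mul_sum]
    refine Finset.sum_congr rfl fun k _ => ?_
    ring
  -- the component orthogonal to `x`
  have hw : ∀ j, u j = (∑ k, A j k * x k) +
      x j * ((∑ k, (starRingEnd ℂ) (x k) * u k) / nsq x) := by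
    intro j
    rw [← hPx j, ← Finset.sum_add_distrib, key j]
  have hwn : ∀ j, ‖∑ k, A j k * x k‖ ≤ (n + 1) * (‖A‖ * ‖x‖) := by
    intro j
    refine (norm_sum_le _ _).trans ?_
    have h1 : ∀ k ∈ Finset.univ, ‖A j k * x k‖ ≤ ‖A‖ * ‖x‖ := by
      intro k _
      rw [norm_mul]
      exact mul_le_mul ((norm_le_pi_norm (A j) k).trans (norm_le_pi_norm A j))
        (norm_le_pi_norm x k) (norm_nonneg _) (norm_nonneg _)
    refine (Finset.sum_le_card_nsmul _ _ _ h1).trans (le_of_eq ?_)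
    rw [Finset.card_univ, Fintype.card_fin, nsmul_eq_mul]
    push_cast
    ring
  set B : ℝ := 2 * ((n + 1) * (‖A‖ * ‖x‖)) * ‖x‖ with hB
  have hB0 : 0 ≤ B := by positivity
  have hij : ∀ i j, ‖x i * u j - x j * u i‖ ≤ B := by
    intro i j
    have h1 : x i * u j - x j * u i = x i * (∑ k, A j k * x k) - x j * (∑ k, A i k * x k) := by
      rw [hw i, hw j]
      ring
    rw [h1]
    refine (norm_sub_le _ _).trans ?_
    rw [norm_mul, norm_mul]
    have h2 : ‖x i‖ * ‖∑ k, A j k * x k‖ ≤ ‖x‖ * ((n + 1) * (‖A‖ * ‖x‖)) :=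
      mul_le_mul (norm_le_pi_norm x i) (hwn j) (norm_nonneg _) (norm_nonneg _)
    have h3 : ‖x j‖ * ‖∑ k, A i k * x k‖ ≤ ‖x‖ * ((n + 1) * (‖A‖ * ‖x‖)) :=
      mul_le_mul (norm_le_pi_norm x j) (hwn i) (norm_nonneg _) (norm_nonneg _)
    rw [hB]
    linarith
  have hS : (∑ i, ∑ j, ‖x i * u j - x j * u i‖ ^ 2) / 2 ≤ ((n + 1) * B) ^ 2 := by
    have h1 : ∑ i : Fin (n + 1), ∑ j : Fin (n + 1), ‖x i * u j - x j * u i‖ ^ 2 ≤
        ∑ _i : Fin (n + 1), ∑ _j : Fin (n + 1), B ^ 2 :=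
      Finset.sum_le_sum fun i _ => Finset.sum_le_sum fun j _ =>
        pow_le_pow_left₀ (norm_nonneg _) (hij i j) 2
    rw [Finset.sum_const, Finset.sum_const, Finset.card_univ, Fintype.card_fin, nsmul_eq_mul,
      nsmul_eq_mul] at h1
    push_cast at h1
    have h2 : 0 ≤ ((n : ℝ) + 1) * (((n : ℝ) + 1) * B ^ 2) := by positivity
    calc _ ≤ (((n : ℝ) + 1) * (((n : ℝ) + 1) * B ^ 2)) / 2 := by linarith
      _ ≤ ((n : ℝ) + 1) * (((n : ℝ) + 1) * B ^ 2) := by linarith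
      _ = _ := by ring
  have hsq : Real.sqrt ((∑ i, ∑ j, ‖x i * u j - x j * u i‖ ^ 2) / 2) ≤ (n + 1) * B := by
    refine (Real.sqrt_le_sqrt hS).trans (le_of_eq ?_)
    exact Real.sqrt_sq (by positivity)
  obtain ⟨i, hi⟩ := Function.ne_iff.1 hx
  have hi' : x i ≠ 0 := hi
  have h0 : 0 < ∑ i, ‖x i‖ ^ 2 :=
    Finset.sum_pos' (fun _ _ => by positivity) ⟨i, Finset.mem_univ _, by positivity⟩
  have hxx : ‖x‖ ^ 2 ≤ ∑ i, ‖x i‖ ^ 2 := by
    have h1 : ‖x‖ ≤ Real.sqrt (∑ i, ‖x i‖ ^ 2) := by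
      rw [pi_norm_le_iff_of_nonneg (Real.sqrt_nonneg _)]
      intro l
      refine Real.le_sqrt_of_sq_le ?_
      exact Finset.single_le_sum (f := fun l => ‖x l‖ ^ 2) (fun i _ => by positivity)
        (Finset.mem_univ l)
    calc ‖x‖ ^ 2 ≤ Real.sqrt (∑ i, ‖x i‖ ^ 2) ^ 2 := pow_le_pow_left₀ (norm_nonneg _) h1 2
      _ = _ := Real.sq_sqrt h0.le
  unfold fubini
  rw [div_le_iff₀ h0]
  refine hsq.trans ?_
  have h5 : ((n : ℝ) + 1) * B = 2 * (n + 1) ^ 2 * ‖A‖ * ‖x‖ ^ 2 := by rw [hB]; ring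
  rw [h5]
  exact mul_le_mul_of_nonneg_left hxx (by positivity)

/-- A bound for the derivatives of discs gives a lower bound for the infinitesimal Kobayashi
pseudometric. -/
theorem le_royden {U : Set (Fin (n + 1) → ℂ)} (hU0 : ∀ x ∈ U, x ≠ 0) {D : ℝ} (hD : 0 < D)
    (hb : ∀ Ψ : ℂ → Mat n, HolP (ball 0 1) Ψ → (∀ z ∈ ball (0 : ℂ) 1, Ψ z ∈ Phi '' U) →
      ‖fderiv ℝ Ψ 0‖ ≤ D) {U' : Set (Fin (n + 1) → ℂ)} (hU' : IsOpen U') (hUU : U' ⊆ U)
    {x : Fin (n + 1) → ℂ} (hx : x ∈ U') (w : Fin (n + 1) → ℂ) :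
    (2 * (n + 1) ^ 2 * D)⁻¹ * fubini x w ≤ royden U' x w := by
  refine le_csInf (royden_nonempty hU' hx w) ?_
  rintro r ⟨R, f, c, hR, rfl, hf, hfU, hf0, hdf⟩
  have hb0 : (0 : ℂ) ∈ ball (0 : ℂ) 1 := mem_ball_self one_pos
  have hx0 : x ≠ 0 := hU0 x (hUU hx)
  have hhol : HolP (ball 0 1) fun z => Phi (f z) := by
    intro z hz
    exact ⟨ball 0 1, f, isOpen_ball, hz, hf, fun w hw => ⟨hU0 _ (hUU (hfU w hw)), rfl⟩⟩
  have h1 := hb _ hhol fun z hz => ⟨f z, hUU (hfU z hz), rfl⟩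
  have hfd : HasDerivAt f (deriv f 0) 0 :=
    (hf.differentiableAt (isOpen_ball.mem_nhds hb0)).hasDerivAt
  have hfr : HasFDerivAt f ((ContinuousLinearMap.toSpanSingleton ℂ (deriv f 0)).restrictScalars ℝ)
      0 := hfd.hasFDerivAt.restrictScalars ℝ
  have hd : DifferentiableAt ℝ (Phi (M := n)) (f 0) := by
    rw [hf0]
    exact (Pool.Agent.NH29.GK.contDiffAt_Phi hx0).differentiableAt (by norm_num)
  have h2 : fderiv ℝ (fun z => Phi (f z)) 0 1 = fderiv ℝ Phi x (deriv f 0) := by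
    have h3 := (hd.hasFDerivAt.comp (0 : ℂ) hfr).fderiv
    have h4 : fderiv ℝ (fun z => Phi (f z)) 0 = _ := h3
    rw [h4, hf0]
    simp
  have h3 : ‖fderiv ℝ Phi x (deriv f 0)‖ ≤ D := by
    rw [← h2]
    refine ((fderiv ℝ (fun z => Phi (f z)) 0).le_opNorm 1).trans ?_
    rw [norm_one, mul_one]
    exact h1
  have h4 := fubini_le (u := deriv f 0) hx0
  rw [hdf, fubini_add hR.le] at h4
  rw [hdf] at h3
  have h5 : R * fubini x w ≤ 2 * (n + 1) ^ 2 * D :=
    h4.trans (mul_le_mul_of_nonneg_left h3 (by positivity))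
  have h6 : (0 : ℝ) < 2 * (n + 1) ^ 2 * D := by positivity
  rw [inv_mul_le_iff₀ h6, mul_one_div, le_div_iff₀ hR, mul_comm]
  exact h5

end Pool.Agent.NH31.KR
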