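import Pool.Agent.Y172.Sec
import Pool.Agent.Y172.Grow
import Pool.Agent.Y172.UpB
import Pool.Agent.Y172.Cov3

/-!
Spaces of rational functions with bounded poles on a normal projective variety.
-/

set_option autoImplicit false
set_option linter.overlappingInstances false
set_option linter.unusedSectionVars false

open FF Pool.Agent.W602.GT Pool.Agent.W603.LV Pool.Agent.Y172

namespace Pool.Agent.NH31

section

variable {K : Type} [Field K] [Algebra ℂ K] {N n : ℕ} {y : Fin (N + 1) → K}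

/-- The rational function `g` is zero or satisfies `div g + D ≥ 0`. -/
def Fn (y : Fin (N + 1) → K) (D : Place ℂ K → ℚ) (g : K) : Prop :=
  ∀ P, IsPrimeDivisor y P → g = 0 ∨ -(D P) ≤ (P.ord g : ℚ)

/-- finite support -/
def FinSup (y : Fin (N + 1) → K) (D : Place ℂ K → ℚ) : Prop :=
  {P | IsPrimeDivisor y P ∧ D P ≠ 0}.Finite

theorem smul_ap (m : ℕ) (U : Place ℂ K → ℚ) (P : Place ℂ K) : (m • U) P = m * U P := by
  rw [Pi.smul_apply, nsmul_eq_mul]

theorem FinSup.add {D D' : Place ℂ K → ℚ} (h : FinSup y D) (h' : FinSup y D') :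
    FinSup y (D + D') := by
  refine (h.union h').subset ?_
  rintro P ⟨hP, hne⟩
  by_contra hcon
  rw [Set.mem_union] at hcon
  push Not at hcon
  have h1 : D P = 0 := by
    by_contra h3
    exact hcon.1 ⟨hP, h3⟩
  have h2 : D' P = 0 := by
    by_contra h3
    exact hcon.2 ⟨hP, h3⟩
  exact hne (by rw [Pi.add_apply, h1, h2, add_zero])

theorem FinSup.smul {D : Place ℂ K → ℚ} (h : FinSup y D) (m : ℕ) : FinSup y (m • D) := by
  refine h.subset ?_
  rintro P ⟨hP, hne⟩
  refine ⟨hP, fun h0 => hne ?_⟩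
  rw [Pi.smul_apply, h0, smul_zero]

theorem fn_zero (D : Place ℂ K → ℚ) : Fn y D 0 := fun _ _ => Or.inl rfl

theorem Fn.mono {D D' : Place ℂ K → ℚ} {g : K} (h : Fn y D g)
    (hD : ∀ P, IsPrimeDivisor y P → D P ≤ D' P) : Fn y D' g := fun P hP =>
  (h P hP).imp_right fun h1 => (neg_le_neg (hD P hP)).trans h1

theorem Fn.mul {D D' : Place ℂ K → ℚ} {g g' : K} (h : Fn y D g) (h' : Fn y D' g') :
    Fn y (D + D') (g * g') := by
  intro P hP
  by_cases h0 : g = 0
  · left
    rw [h0, zero_mul]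
  by_cases h0' : g' = 0
  · left
    rw [h0', mul_zero]
  right
  rw [P.ord_mul h0 h0', Pi.add_apply]
  have h1 := (h P hP).resolve_left h0
  have h2 := (h' P hP).resolve_left h0'
  push_cast
  linarith

theorem fn_one : Fn y (0 : Place ℂ K → ℚ) (1 : K) := by
  intro P _
  right
  rw [P.ord_one]
  simp

theorem Fn.pow {D : Place ℂ K → ℚ} {g : K} (h : Fn y D g) (t : ℕ) : Fn y (t • D) (g ^ t) := by
  induction t with
  | zero =>
    rw [zero_smul, pow_zero]
    exact fn_one
  | succ t ih =>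
    rw [succ_nsmul, pow_succ]
    exact ih.mul h

theorem fn_prod {ι : Type} (s : Finset ι) {D : ι → Place ℂ K → ℚ} {g : ι → K}
    (h : ∀ i ∈ s, Fn y (D i) (g i)) : Fn y (∑ i ∈ s, D i) (∏ i ∈ s, g i) := by
  classical
  induction s using Finset.induction_on with
  | empty =>
    rw [Finset.sum_empty, Finset.prod_empty]
    exact fn_one
  | insert a s ha ih =>
    rw [Finset.sum_insert ha, Finset.prod_insert ha]
    exact (h a (Finset.mem_insert_self a s)).mul
      (ih fun i hi => h i (Finset.mem_insert_of_mem hi))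

theorem Fn.smul {D : Place ℂ K → ℚ} {g : K} (h : Fn y D g) (c : ℂ) : Fn y D (c • g) := by
  intro P hP
  by_cases hc : c = 0
  · left
    rw [hc, zero_smul]
  rcases h P hP with h1 | h1
  · left
    rw [h1, smul_zero]
  by_cases hg : g = 0
  · left
    rw [hg, smul_zero]
  right
  have h2 : algebraMap ℂ K c ≠ 0 := (map_ne_zero _).2 hc
  rw [Algebra.smul_def, P.ord_mul h2 hg, P.ord_const hc, zero_add]
  exact h1

theorem Fn.add {D : Place ℂ K → ℚ} {g g' : K} (h : Fn y D g) (h' : Fn y D g') :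
    Fn y D (g + g') := by
  intro P hP
  rcases h P hP with h1 | h1
  · rw [h1, zero_add]
    exact h' P hP
  rcases h' P hP with h2 | h2
  · rw [h2, add_zero]
    exact h P hP
  by_cases hg : g = 0
  · rw [hg, zero_add]
    exact h' P hP
  by_cases hg' : g' = 0
  · rw [hg', add_zero]
    exact h P hP
  by_cases hs : g + g' = 0
  · exact Or.inl hs
  right
  have h3 := P.ord_add hg hg' hs
  have h4 : (min (P.ord g) (P.ord g') : ℤ) ≤ (P.ord (g + g') : ℚ) := by exact_mod_cast h3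
  rw [Int.cast_min] at h4
  exact (le_min h1 h2).trans h4

/-- the space of the functions -/
def fnSub (y : Fin (N + 1) → K) (D : Place ℂ K → ℚ) : Submodule ℂ K where
  carrier := {g | Fn y D g}
  zero_mem' := fn_zero D
  add_mem' := fun h h' => h.add h'
  smul_mem' := fun c _ h => h.smul c

theorem mem_fnSub {D : Place ℂ K → ℚ} {g : K} : g ∈ fnSub y D ↔ Fn y D g := Iff.rfl

/-- the poles, in a chart -/
theorem fn_chart (hy : NormalModel y) {c : Place ℂ K → ℕ}
    (hc : {P | IsPrimeDivisor y P ∧ c P ≠ 0}.Finite) (j : Fin (N + 1)) :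
    ∃ s ∈ chart y j, s ≠ 0 ∧ ∀ m : ℕ, ∀ f : K,
      (∀ P, IsPrimeDivisor y P → f = 0 ∨ -((m * c P : ℕ) : ℤ) ≤ P.ord f) →
      ∀ Q, Centred y j Q → f * s ^ m ∈ localRing y Q := by
  classical
  obtain ⟨s, hs, hs0, hsP⟩ := exists_high (y := y) (j := j)
    (S := {P | IsPrimeDivisor y P ∧ Centred y j P ∧ c P ≠ 0})
    (hc.subset (by
      rintro P ⟨h1, -, h2⟩
      exact ⟨h1, h2⟩)) (fun P hP => hP.2.1) (fun P hP => hP.1) c
  refine ⟨s, hs, hs0, fun m f hf Q hQ => ?_⟩
  refine mem_localRing_of_reg hy fun P hP hPQ => ?_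
  have hPc := hPQ.centred hQ
  have h1 : (c P : ℤ) ≤ P.ord s := by
    by_cases h0 : c P = 0
    · rw [h0]
      exact (P.reg_iff hs0).1 (hPc.reg s hs)
    · exact hsP P ⟨hP, hPc, h0⟩
  rcases hf P hP with h2 | h2
  · left
    rw [h2, zero_mul]
  by_cases hf0 : f = 0
  · left
    rw [hf0, zero_mul]
  right
  rw [P.ord_mul hf0 (pow_ne_zero _ hs0), P.ord_pow]
  push_cast at h2
  nlinarith

/-- **The growth of the spaces of functions.** -/
theorem fn_growth (hy : NormalModel y) (hn : Algebra.trdeg ℂ K = n) {c : Place ℂ K → ℕ}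
    (hc : {P | IsPrimeDivisor y P ∧ c P ≠ 0}.Finite) :
    ∃ C : ℕ, ∀ m : ℕ, 1 ≤ m → ∀ (r : ℕ) (f : Fin r → K), LinearIndependent ℂ f →
      (∀ i P, IsPrimeDivisor y P → f i = 0 ∨ -((m * c P : ℕ) : ℤ) ≤ P.ord (f i)) →
      r ≤ C * m ^ n := by
  classical
  choose s hs hs0 hsf using fun j => fn_chart hy hc j
  have hess := hy.ess
  obtain ⟨Z, -, hZ, -⟩ := exists_crd hn
  obtain ⟨C, hC⟩ := growth hZ (fd_basis hZ) (Finset.univ.image fun j => (s j)⁻¹)
    (fun m => {f | ∀ P, IsPrimeDivisor y P → f = 0 ∨ -((m * c P : ℕ) : ℤ) ≤ P.ord f})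
    (by
      intro P
      obtain ⟨j, hj⟩ := exists_centred hy P
      have h0 := (P.reg_iff (hs0 j)).1 (hj.reg _ (hs j))
      refine ⟨(P.ord (s j)).toNat, fun m _ f hf => ?_⟩
      have h1 := localRing_reg (hsf j m f hf P hj)
      by_cases hf0 : f = 0
      · exact Or.inl hf0
      right
      rw [P.reg_iff (mul_ne_zero hf0 (pow_ne_zero _ (hs0 j))),
        P.ord_mul hf0 (pow_ne_zero _ (hs0 j)), P.ord_pow] at h1
      push_cast
      rw [Int.toNat_of_nonneg h0]
      linarith)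
    (by
      intro P hP m _ f hf
      obtain ⟨j, hj⟩ := exists_centred hy P
      have h0 := (P.reg_iff (hs0 j)).1 (hj.reg _ (hs j))
      have h2 := (P.reg_iff (inv_ne_zero (hs0 j))).1
        (hP _ (Finset.mem_image_of_mem _ (Finset.mem_univ j)))
      rw [P.ord_inv] at h2
      have h3 : P.ord (s j) = 0 := by omega
      have h1 := localRing_reg (hsf j m f hf P hj)
      by_cases hf0 : f = 0
      · exact Or.inl hf0
      right
      rw [P.reg_iff (mul_ne_zero hf0 (pow_ne_zero _ (hs0 j))),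
        P.ord_mul hf0 (pow_ne_zero _ (hs0 j)), P.ord_pow, h3] at h1
      linarith)
  exact ⟨C, fun m hm r f hf h => hC m hm r f hf fun i => h i⟩

/-- a bound of the coefficients -/
noncomputable def bnd (D : Place ℂ K → ℚ) (P : Place ℂ K) : ℕ := ⌈|D P|⌉₊

theorem le_bnd (D : Place ℂ K → ℚ) (P : Place ℂ K) : D P ≤ (bnd D P : ℚ) :=
  (le_abs_self _).trans (Nat.le_ceil _)

theorem bnd_sup {D : Place ℂ K → ℚ} (h : FinSup y D) :
    {P | IsPrimeDivisor y P ∧ bnd D P ≠ 0}.Finite := by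
  refine h.subset ?_
  rintro P ⟨hP, hne⟩
  refine ⟨hP, fun h0 => hne ?_⟩
  rw [bnd, h0]
  simp

/-- the spaces of functions have finite dimension -/
theorem fn_bound (hy : NormalModel y) (hn : Algebra.trdeg ℂ K = n) {D : Place ℂ K → ℚ}
    (hD : FinSup y D) : ∃ C : ℕ, ∀ (r : ℕ) (f : Fin r → K), LinearIndependent ℂ f →
      (∀ i, Fn y D (f i)) → r ≤ C := by
  obtain ⟨C, hC⟩ := fn_growth hy hn (bnd_sup hD)
  refine ⟨C * 1 ^ n, fun r f hf h => hC 1 le_rfl r f hf fun i P hP => ?_⟩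
  refine (h i P hP).imp_right fun h1 => ?_
  have h2 := le_bnd D P
  have h3 : -(bnd D P : ℚ) ≤ P.ord (f i) := (neg_le_neg h2).trans h1
  rw [one_mul]
  exact_mod_cast h3

theorem fn_finite (hy : NormalModel y) (hn : Algebra.trdeg ℂ K = n) {D : Place ℂ K → ℚ}
    (hD : FinSup y D) : Module.Finite ℂ (fnSub y D) := by
  obtain ⟨C, hC⟩ := fn_bound hy hn hD
  by_contra hcon
  have h1 : ∃ f : Fin (C + 1) → fnSub y D, LinearIndependent ℂ f := by
    rw [← Module.rank_lt_aleph0_iff] at hcon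
    push Not at hcon
    have h2 : ((C + 1 : ℕ) : Cardinal) ≤ Module.rank ℂ (fnSub y D) :=
      (Cardinal.natCast_lt_aleph0).le.trans hcon
    obtain ⟨s, hs, hsi⟩ := le_rank_iff_exists_linearIndependent_finset.1 h2
    refine ⟨fun i => ((s.equivFinOfCardEq hs).symm i : fnSub y D), ?_⟩
    exact hsi.comp _ (s.equivFinOfCardEq hs).symm.injective
  obtain ⟨f, hf⟩ := h1
  have h2 := hC (C + 1) (fun i => (f i : K)) (hf.map' (fnSub y D).subtype (by simp))
    fun i => (f i).2
  omega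

end

end Pool.Agent.NH31
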