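import Pool.Agent.NH31.M9

/-!
Abundance for semiample divisors on the generic fibre over a base.
-/

set_option autoImplicit false
set_option linter.overlappingInstances false
set_option linter.unusedSectionVars false

open FF Pool.Agent.W602.GT Pool.Agent.W603.LV Pool.Agent.Y172

namespace Pool.Agent.NH31

section

variable {K : Type} [Field K] [Algebra ℂ K] {N n : ℕ} {y : Fin (N + 1) → K}
  {F : IntermediateField ℂ K}

/-- the poles, in a chart, at one centre -/
theorem fn_chart' (hy : NormalModel y) {c : Place ℂ K → ℕ}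
    (hc : {P | IsPrimeDivisor y P ∧ c P ≠ 0}.Finite) (j : Fin (N + 1)) :
    ∃ s ∈ chart y j, s ≠ 0 ∧ ∀ m : ℕ, ∀ f : K, ∀ Q, Centred y j Q →
      (∀ P, IsPrimeDivisor y P → Through y P Q → f = 0 ∨ -((m * c P : ℕ) : ℤ) ≤ P.ord f) →
      f * s ^ m ∈ localRing y Q := by
  classical
  obtain ⟨s, hs, hs0, hsP⟩ := exists_high (y := y) (j := j)
    (S := {P | IsPrimeDivisor y P ∧ Centred y j P ∧ c P ≠ 0})
    (hc.subset (by
      rintro P ⟨h1, -, h2⟩
      exact ⟨h1, h2⟩)) (fun P hP => hP.2.1) (fun P hP => hP.1) c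
  refine ⟨s, hs, hs0, fun m f Q hQ hf => ?_⟩
  refine mem_localRing_of_reg hy fun P hP hPQ => ?_
  have hPc := hPQ.centred hQ
  have h1 : (c P : ℤ) ≤ P.ord s := by
    by_cases h0 : c P = 0
    · rw [h0]
      exact (P.reg_iff hs0).1 (hPc.reg s hs)
    · exact hsP P ⟨hP, hPc, h0⟩
  rcases hf P hP hPQ with h2 | h2
  · left
    rw [h2, zero_mul]
  by_cases hf0 : f = 0
  · left
    rw [hf0, zero_mul]
  right
  rw [P.ord_mul hf0 (pow_ne_zero _ hs0), P.ord_pow]
  push_cast at h2
  nlinarith

/-- the prime divisors through the centre of a horizontal place are horizontal -/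
theorem through_horizontal (hreg : RegularFibration y F) {Q : Place ℂ K} (hQ : Horizontal F Q)
    {P : Place ℂ K} (hPQ : Through y P Q) : Horizontal F P := by
  intro f hf hf0
  have h1 := (P.reg_iff hf0).1 (hPQ f (hreg Q hQ f hf))
  have h2 := (P.reg_iff (inv_ne_zero hf0)).1 (hPQ _ (hreg Q hQ _ (F.inv_mem hf)))
  rw [P.ord_inv] at h2
  omega

theorem restr_horizontal (P : Place F K) : Horizontal F (restr (k := ℂ) P) := by
  intro f hf hf0
  have h1 := P.ord_const (c := (⟨f, hf⟩ : F)) (fun h => hf0 (congrArg Subtype.val h))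
  exact h1

/-- **Abundance for semiample divisors.** -/
theorem semi_abund (hy : NormalModel y) (hreg : RegularFibration y F) {D : Place ℂ K → ℤ}
    (hD : {P | IsPrimeDivisor y P ∧ D P ≠ 0}.Finite)
    (hD0 : ∀ P, IsPrimeDivisor y P → Horizontal F P → 0 ≤ D P) (hs : FibreSemiample y F D) :
    FibreAbundant y F D := by
  classical
  have hess := hy.ess
  have hessF : Algebra.EssFiniteType F K := Algebra.EssFiniteType.of_comp ℂ F K
  have hcF : CharZero F := charZero_of_injective_algebraMap (algebraMap ℂ F).injective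
  obtain ⟨m1, hm1, k1, g1, hg1, hQ1⟩ := hs
  obtain ⟨S, hS⟩ : ∃ S : Set K, ∀ x, x ∈ S ↔ ∃ (m : ℕ) (f g : K), 1 ≤ m ∧
      FibreSection y F (m • D) f ∧ FibreSection y F (m • D) g ∧ g ≠ 0 ∧ x = f / g :=
    ⟨{x | _}, fun _ => Iff.rfl⟩
  obtain ⟨κ, z, hzS, hz, hmax⟩ := exists_maxF (F := F) S
  choose m f g hm hf hg hg0 hzf using fun i => (hS _).1 (hzS i)
  have hone : ∀ m : ℕ, FibreSection y F (m • D) 1 := by
    intro m P hP hPF
    right
    rw [P.ord_one, Pi.smul_apply, nsmul_eq_mul]
    have h1 := hD0 P hP hPF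
    have h2 : (0 : ℤ) ≤ m * D P := mul_nonneg (Int.natCast_nonneg m) h1
    linarith
  have hmul : ∀ (a b : ℕ) (x x' : K), FibreSection y F (a • D) x → FibreSection y F (b • D) x' →
      FibreSection y F ((a + b) • D) (x * x') := by
    intro a b x x' hx hx' P hP hPF
    by_cases h0 : x = 0
    · left
      rw [h0, zero_mul]
    by_cases h0' : x' = 0
    · left
      rw [h0', mul_zero]
    right
    have h1 := (hx P hP hPF).resolve_left h0
    have h2 := (hx' P hP hPF).resolve_left h0'
    rw [P.ord_mul h0 h0']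
    rw [Pi.smul_apply, nsmul_eq_mul] at h1 h2 ⊢
    push_cast
    linarith
  have hprod : ∀ s : Finset (Fin κ), FibreSection y F ((∑ i ∈ s, m i) • D) (∏ i ∈ s, g i) := by
    intro s
    induction s using Finset.induction_on with
    | empty =>
      rw [Finset.sum_empty, Finset.prod_empty]
      exact hone 0
    | insert a s ha ih =>
      rw [Finset.sum_insert ha, Finset.prod_insert ha]
      exact hmul _ _ _ _ (hg a) ih
  obtain ⟨h, hh⟩ : ∃ h, h = ∏ i, g i := ⟨_, rfl⟩
  have hh0 : h ≠ 0 := by
    rw [hh]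
    exact Finset.prod_ne_zero_iff.2 fun i _ => hg0 i
  refine ⟨κ, ⟨(∑ i, m i) + 1, Nat.succ_le_succ (Nat.zero_le _),
    Fin.cons h fun i => z i * h, fun j => ?_, ?_, ?_⟩, ?_⟩
  · refine Fin.cases ?_ (fun i => ?_) j
    · rw [Fin.cons_zero, hh, ← mul_one (∏ i, g i)]
      exact hmul _ _ _ _ (hprod _) (hone 1)
    · rw [Fin.cons_succ]
      have h1 : z i * h = (f i * ∏ j ∈ Finset.univ.erase i, g j) * 1 := by
        rw [hh, hzf i, ← Finset.mul_prod_erase Finset.univ g (Finset.mem_univ i)]
        field_simp [hg0 i]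
      have h2 : ∑ i, m i = m i + ∑ j ∈ Finset.univ.erase i, m j := by
        rw [Finset.add_sum_erase _ _ (Finset.mem_univ i)]
      rw [h1, h2]
      exact hmul _ _ _ _ (hmul _ _ _ _ (hf i) (hprod _)) (hone 1)
  · rw [Fin.cons_zero]
    exact hh0
  · have h1 : (fun i : Fin κ => (Fin.cons h fun i => z i * h : Fin (κ + 1) → K) i.succ /
        (Fin.cons h fun i => z i * h : Fin (κ + 1) → K) 0) = z := by
      funext i
      rw [Fin.cons_zero, Fin.cons_succ, mul_div_assoc, div_self hh0, mul_one]
    rw [h1]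
    exact hz
  -- the growth
  intro A hA
  obtain ⟨n, l, Z, u, hZ, hl, hu⟩ := ext_indepF (F := F) hz
  obtain ⟨c, hcdef⟩ : ∃ c : Place ℂ K → ℕ, c = fun P => m1 * (D P).natAbs + (A P).natAbs :=
    ⟨_, rfl⟩
  have hc : {P | IsPrimeDivisor y P ∧ c P ≠ 0}.Finite := by
    refine (hD.union hA).subset ?_
    rintro P ⟨hP, hne⟩
    by_contra hcon
    rw [Set.mem_union] at hcon
    push Not at hcon
    have h1 : D P = 0 := by
      by_contra h3
      exact hcon.1 ⟨hP, h3⟩
    have h2 : A P = 0 := by
      by_contra h3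
      exact hcon.2 ⟨hP, h3⟩
    exact hne (by rw [hcdef]; simp [h1, h2])
  choose s hsc hs0 hsf using fun j => fn_chart' hy hc j
  let M : IntermediateField F K := acl F (Set.range z)
  have hessM : Algebra.EssFiniteType M K := Algebra.EssFiniteType.of_comp F M K
  have hcM : CharZero M := charZero_of_injective_algebraMap (algebraMap F M).injective
  -- the space
  obtain ⟨τ, w, hw⟩ := fin_dim (F := M) (K := K) (Finset.univ.image fun j => (s j)⁻¹)
    {x | ∃ m : ℕ, FibreSection y F (m • D + A) x} (by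
      rintro P x ⟨m, hx⟩
      have hP' : Horizontal F (restr (k := ℂ) (restr (k := F) P)) := restr_horizontal _
      obtain ⟨j, hj⟩ := exists_centred hy (restr (k := ℂ) (restr (k := F) P))
      refine ⟨(s j)⁻¹, Finset.mem_image_of_mem _ (Finset.mem_univ j), ?_⟩
      by_cases hx0 : x = 0
      · exact Or.inl hx0
      right
      obtain ⟨i, hi⟩ := hQ1 _ hP'
      have hgM : P.ord (g1 i) = 0 := by
        have h1 : g1 i ∈ M := hmax _ ((hS _).2 ⟨m1, g1 i, 1, hm1, (hg1 i).2, hone m1,
          one_ne_zero, by rw [div_one]⟩)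
        exact P.ord_const (c := (⟨g1 i, h1⟩ : M)) fun h => (hg1 i).1 (congrArg Subtype.val h)
      obtain ⟨q, hq⟩ : ∃ q, q = m / m1 := ⟨_, rfl⟩
      obtain ⟨ρ, hρ⟩ : ∃ ρ, ρ = m % m1 := ⟨_, rfl⟩
      have hm' : (m : ℤ) = m1 * q + ρ := by
        rw [hq, hρ]
        exact_mod_cast (Nat.div_add_mod m m1).symm
      have hρ1 : (ρ : ℤ) ≤ m1 := by
        rw [hρ]
        exact_mod_cast (Nat.mod_lt m (by omega)).le
      have h1 := hsf j 1 (x / g1 i ^ q) _ hj (by
        intro P' hP' hPQ
        right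
        have h2 := (hx P' hP' (through_horizontal hreg (restr_horizontal _) hPQ)).resolve_left hx0
        have h3 := hi P' hP' hPQ
        rw [P'.ord_div hx0 (pow_ne_zero _ (hg1 i).1), P'.ord_pow]
        rw [Pi.add_apply, Pi.smul_apply, nsmul_eq_mul, hm'] at h2
        have h4 : P'.ord (g1 i) = -(m1 * D P') := by linarith
        have h5 : (ρ : ℤ) * D P' ≤ m1 * |D P'| :=
          (mul_le_mul_of_nonneg_left (le_abs_self _) (Int.natCast_nonneg ρ)).trans
            (mul_le_mul_of_nonneg_right hρ1 (abs_nonneg _))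
        have h6 := le_abs_self (A P')
        rw [h4, hcdef]
        push_cast
        nlinarith)
      rw [pow_one] at h1
      have h2 := localRing_reg h1
      have h3 : P.Reg (x / g1 i ^ q * s j) := h2
      rw [P.reg_iff (mul_ne_zero (div_ne_zero hx0 (pow_ne_zero _ (hg1 i).1)) (hs0 j)),
        P.ord_mul (div_ne_zero hx0 (pow_ne_zero _ (hg1 i).1)) (hs0 j),
        P.ord_div hx0 (pow_ne_zero _ (hg1 i).1), P.ord_pow, hgM, mul_zero, sub_zero] at h3
      rw [P.ord_inv]
      linarith)
  -- the bound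
  obtain ⟨C, hC⟩ := growth_fin (k := F) hZ (fd_basis hZ) (Finset.univ.image fun j => (s j)⁻¹)
    (fun m => {x | FibreSection y F (m • D + A) x})
    (by
      intro P
      obtain ⟨j, hj⟩ := exists_centred hy (restr (k := ℂ) P)
      have h0 : 0 ≤ P.ord (s j) :=
        ((restr (k := ℂ) P).reg_iff (hs0 j)).1 (hj.reg _ (hsc j))
      refine ⟨(P.ord (s j)).toNat, fun m hm x hx => ?_⟩
      by_cases hx0 : x = 0
      · exact Or.inl hx0
      right
      have h1 := hsf j m x _ hj (by
        intro P' hP' hPQ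
        right
        have h2 := (hx P' hP' (through_horizontal hreg (restr_horizontal _) hPQ)).resolve_left hx0
        rw [Pi.add_apply, Pi.smul_apply, nsmul_eq_mul] at h2
        have h5 := le_abs_self (D P')
        have h6 := le_abs_self (A P')
        have h7 : (1 : ℤ) ≤ m := by exact_mod_cast hm
        have h8 : (1 : ℤ) ≤ m1 := by exact_mod_cast hm1
        have h9 := abs_nonneg (D P')
        have h10 := abs_nonneg (A P')
        have h11 : (m : ℤ) * D P' ≤ m * (m1 * |D P'|) :=
          mul_le_mul_of_nonneg_left (by nlinarith) (by linarith)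
        rw [hcdef]
        push_cast
        nlinarith)
      have h3 : P.Reg (x * s j ^ m) := localRing_reg h1
      rw [P.reg_iff (mul_ne_zero hx0 (pow_ne_zero _ (hs0 j))),
        P.ord_mul hx0 (pow_ne_zero _ (hs0 j)), P.ord_pow] at h3
      push_cast
      rw [Int.toNat_of_nonneg h0]
      linarith)
    (by
      intro P hP m hm x hx
      obtain ⟨j, hj⟩ := exists_centred hy (restr (k := ℂ) P)
      have h0 : 0 ≤ P.ord (s j) :=
        ((restr (k := ℂ) P).reg_iff (hs0 j)).1 (hj.reg _ (hsc j))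
      have h2 := (P.reg_iff (inv_ne_zero (hs0 j))).1
        (hP _ (Finset.mem_image_of_mem _ (Finset.mem_univ j)))
      rw [P.ord_inv] at h2
      have h4 : P.ord (s j) = 0 := by omega
      by_cases hx0 : x = 0
      · exact Or.inl hx0
      right
      have h1 := hsf j m x _ hj (by
        intro P' hP' hPQ
        right
        have h2 := (hx P' hP' (through_horizontal hreg (restr_horizontal _) hPQ)).resolve_left hx0
        rw [Pi.add_apply, Pi.smul_apply, nsmul_eq_mul] at h2
        have h5 := le_abs_self (D P')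
        have h6 := le_abs_self (A P')
        have h7 : (1 : ℤ) ≤ m := by exact_mod_cast hm
        have h8 : (1 : ℤ) ≤ m1 := by exact_mod_cast hm1
        have h9 := abs_nonneg (D P')
        have h10 := abs_nonneg (A P')
        have h11 : (m : ℤ) * D P' ≤ m * (m1 * |D P'|) :=
          mul_le_mul_of_nonneg_left (by nlinarith) (by linarith)
        rw [hcdef]
        push_cast
        nlinarith)
      have h3 : P.Reg (x * s j ^ m) := localRing_reg h1
      rw [P.reg_iff (mul_ne_zero hx0 (pow_ne_zero _ (hs0 j))),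
        P.ord_mul hx0 (pow_ne_zero _ (hs0 j)), P.ord_pow, h4] at h3
      linarith)
    hu hl w (by
      intro m _ x hx
      exact hw x ⟨m, hx⟩)
  exact ⟨C, fun m hm r x hx hxm => hC m hm r x hx hxm⟩

end

end Pool.Agent.NH31
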