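import Pool.Agent.NH31.Defs4
import Pool.Agent.NH31.M10

/-!
Abundance for divisors with finitely generated section rings on the generic fibre over a base.
-/

set_option autoImplicit false
set_option linter.overlappingInstances false
set_option linter.unusedSectionVars false

open FF Pool.Agent.W602.GT Pool.Agent.W603.LV Pool.Agent.Y172

namespace Pool.Agent.NH31

section

variable {K : Type} [Field K] [Algebra ℂ K] {N n : ℕ} {y : Fin (N + 1) → K}
  {F : IntermediateField ℂ K}

/-- **Abundance from finite-dimensionality.** -/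
theorem abund_of_fin (hy : NormalModel y) (hreg : RegularFibration y F) {D : Place ℂ K → ℤ}
    (hD : {P | IsPrimeDivisor y P ∧ D P ≠ 0}.Finite)
    (hD0 : ∀ P, IsPrimeDivisor y P → Horizontal F P → 0 ≤ D P)
    (hW : ∀ M : IntermediateField F K, (∀ (m : ℕ) (x : K), FibreSection y F (m • D) x → x ∈ M) →
      ∀ A : Place ℂ K → ℤ, {P | IsPrimeDivisor y P ∧ A P ≠ 0}.Finite →
        ∃ (τ : ℕ) (w : Fin τ → K), ∀ (m : ℕ) (x : K), FibreSection y F (m • D + A) x →
          x ∈ Submodule.span M (Set.range w)) :
    FibreAbundant y F D := by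
  classical
  have hess := hy.ess
  have hessF : Algebra.EssFiniteType F K := Algebra.EssFiniteType.of_comp ℂ F K
  have hcF : CharZero F := charZero_of_injective_algebraMap (algebraMap ℂ F).injective
  obtain ⟨S, hS⟩ : ∃ S : Set K, ∀ x, x ∈ S ↔ ∃ (m : ℕ) (f g : K), 1 ≤ m ∧
      FibreSection y F (m • D) f ∧ FibreSection y F (m • D) g ∧ g ≠ 0 ∧ x = f / g :=
    ⟨{x | _}, fun _ => Iff.rfl⟩
  obtain ⟨κ, z, hzS, hz, hmax⟩ := exists_maxF (F := F) S
  choose m f g hm hf hg hg0 hzf using fun i => (hS _).1 (hzS i)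
  have hone : ∀ m : ℕ, FibreSection y F (m • D) 1 := by
    intro m P hP hPF
    right
    rw [P.ord_one, Pi.smul_apply, nsmul_eq_mul]
    have h1 := hD0 P hP hPF
    have h2 : (0 : ℤ) ≤ m * D P := mul_nonneg (Int.natCast_nonneg m) h1
    linarith
  have hmul : ∀ (a b : ℕ) (x x' : K), FibreSection y F (a • D) x → FibreSection y F (b • D) x' →
      FibreSection y F ((a + b) • D) (x * x') := by
    intro a b x x' hx hx' P hP hPF
    by_cases h0 : x = 0
    · left
      rw [h0, zero_mul]
    by_cases h0' : x' = 0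
    · left
      rw [h0', mul_zero]
    right
    have h1 := (hx P hP hPF).resolve_left h0
    have h2 := (hx' P hP hPF).resolve_left h0'
    rw [P.ord_mul h0 h0']
    rw [Pi.smul_apply, nsmul_eq_mul] at h1 h2 ⊢
    push_cast
    linarith
  have hprod : ∀ s : Finset (Fin κ), FibreSection y F ((∑ i ∈ s, m i) • D) (∏ i ∈ s, g i) := by
    intro s
    induction s using Finset.induction_on with
    | empty =>
      rw [Finset.sum_empty, Finset.prod_empty]
      exact hone 0
    | insert a s ha ih =>
      rw [Finset.sum_insert ha, Finset.prod_insert ha]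
      exact hmul _ _ _ _ (hg a) ih
  obtain ⟨h, hh⟩ : ∃ h, h = ∏ i, g i := ⟨_, rfl⟩
  have hh0 : h ≠ 0 := by
    rw [hh]
    exact Finset.prod_ne_zero_iff.2 fun i _ => hg0 i
  refine ⟨κ, ⟨(∑ i, m i) + 1, Nat.succ_le_succ (Nat.zero_le _),
    Fin.cons h fun i => z i * h, fun j => ?_, ?_, ?_⟩, ?_⟩
  · refine Fin.cases ?_ (fun i => ?_) j
    · rw [Fin.cons_zero, hh, ← mul_one (∏ i, g i)]
      exact hmul _ _ _ _ (hprod _) (hone 1)
    · rw [Fin.cons_succ]
      have h1 : z i * h = (f i * ∏ j ∈ Finset.univ.erase i, g j) * 1 := by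
        rw [hh, hzf i, ← Finset.mul_prod_erase Finset.univ g (Finset.mem_univ i)]
        field_simp [hg0 i]
      have h2 : ∑ i, m i = m i + ∑ j ∈ Finset.univ.erase i, m j := by
        rw [Finset.add_sum_erase _ _ (Finset.mem_univ i)]
      rw [h1, h2]
      exact hmul _ _ _ _ (hmul _ _ _ _ (hf i) (hprod _)) (hone 1)
  · rw [Fin.cons_zero]
    exact hh0
  · have h1 : (fun i : Fin κ => (Fin.cons h fun i => z i * h : Fin (κ + 1) → K) i.succ /
        (Fin.cons h fun i => z i * h : Fin (κ + 1) → K) 0) = z := by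
      funext i
      rw [Fin.cons_zero, Fin.cons_succ, mul_div_assoc, div_self hh0, mul_one]
    rw [h1]
    exact hz
  -- the growth
  intro A hA
  obtain ⟨n, l, Z, u, hZ, hl, hu⟩ := ext_indepF (F := F) hz
  obtain ⟨c, hcdef⟩ : ∃ c : Place ℂ K → ℕ, c = fun P => 1 * (D P).natAbs + (A P).natAbs :=
    ⟨_, rfl⟩
  have hc : {P | IsPrimeDivisor y P ∧ c P ≠ 0}.Finite := by
    refine (hD.union hA).subset ?_
    rintro P ⟨hP, hne⟩
    by_contra hcon
    rw [Set.mem_union] at hcon
    push Not at hcon
    have h1 : D P = 0 := by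
      by_contra h3
      exact hcon.1 ⟨hP, h3⟩
    have h2 : A P = 0 := by
      by_contra h3
      exact hcon.2 ⟨hP, h3⟩
    exact hne (by rw [hcdef]; simp [h1, h2])
  choose s hsc hs0 hsf using fun j => fn_chart' hy hc j
  let M : IntermediateField F K := acl F (Set.range z)
  have hessM : Algebra.EssFiniteType M K := Algebra.EssFiniteType.of_comp F M K
  have hcM : CharZero M := charZero_of_injective_algebraMap (algebraMap F M).injective
  -- the space
  obtain ⟨τ, w, hw⟩ := hW M (fun m x hx => hmax _ ((hS _).2 ⟨m + 1, x, 1, Nat.succ_le_succ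
    (Nat.zero_le _), by
      have h1 := hmul m 1 x 1 hx (hone 1)
      rwa [mul_one] at h1, hone _, one_ne_zero, by rw [div_one]⟩)) A hA
  -- the bound
  obtain ⟨C, hC⟩ := growth_fin (k := F) hZ (fd_basis hZ) (Finset.univ.image fun j => (s j)⁻¹)
    (fun m => {x | FibreSection y F (m • D + A) x})
    (by
      intro P
      obtain ⟨j, hj⟩ := exists_centred hy (restr (k := ℂ) P)
      have h0 : 0 ≤ P.ord (s j) :=
        ((restr (k := ℂ) P).reg_iff (hs0 j)).1 (hj.reg _ (hsc j))
      refine ⟨(P.ord (s j)).toNat, fun m hm x hx => ?_⟩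
      by_cases hx0 : x = 0
      · exact Or.inl hx0
      right
      have h1 := hsf j m x _ hj (by
        intro P' hP' hPQ
        right
        have h2 := (hx P' hP' (through_horizontal hreg (restr_horizontal _) hPQ)).resolve_left hx0
        rw [Pi.add_apply, Pi.smul_apply, nsmul_eq_mul] at h2
        have h5 := le_abs_self (D P')
        have h6 := le_abs_self (A P')
        have h7 : (1 : ℤ) ≤ m := by exact_mod_cast hm
        have h9 := abs_nonneg (D P')
        have h10 := abs_nonneg (A P')
        have h11 : (m : ℤ) * D P' ≤ m * (1 * |D P'|) :=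
          mul_le_mul_of_nonneg_left (by nlinarith) (by linarith)
        rw [hcdef]
        push_cast
        nlinarith)
      have h3 : P.Reg (x * s j ^ m) := localRing_reg h1
      rw [P.reg_iff (mul_ne_zero hx0 (pow_ne_zero _ (hs0 j))),
        P.ord_mul hx0 (pow_ne_zero _ (hs0 j)), P.ord_pow] at h3
      push_cast
      rw [Int.toNat_of_nonneg h0]
      linarith)
    (by
      intro P hP m hm x hx
      obtain ⟨j, hj⟩ := exists_centred hy (restr (k := ℂ) P)
      have h0 : 0 ≤ P.ord (s j) :=
        ((restr (k := ℂ) P).reg_iff (hs0 j)).1 (hj.reg _ (hsc j))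
      have h2 := (P.reg_iff (inv_ne_zero (hs0 j))).1
        (hP _ (Finset.mem_image_of_mem _ (Finset.mem_univ j)))
      rw [P.ord_inv] at h2
      have h4 : P.ord (s j) = 0 := by omega
      by_cases hx0 : x = 0
      · exact Or.inl hx0
      right
      have h1 := hsf j m x _ hj (by
        intro P' hP' hPQ
        right
        have h2 := (hx P' hP' (through_horizontal hreg (restr_horizontal _) hPQ)).resolve_left hx0
        rw [Pi.add_apply, Pi.smul_apply, nsmul_eq_mul] at h2
        have h5 := le_abs_self (D P')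
        have h6 := le_abs_self (A P')
        have h7 : (1 : ℤ) ≤ m := by exact_mod_cast hm
        have h9 := abs_nonneg (D P')
        have h10 := abs_nonneg (A P')
        have h11 : (m : ℤ) * D P' ≤ m * (1 * |D P'|) :=
          mul_le_mul_of_nonneg_left (by nlinarith) (by linarith)
        rw [hcdef]
        push_cast
        nlinarith)
      have h3 : P.Reg (x * s j ^ m) := localRing_reg h1
      rw [P.reg_iff (mul_ne_zero hx0 (pow_ne_zero _ (hs0 j))),
        P.ord_mul hx0 (pow_ne_zero _ (hs0 j)), P.ord_pow, h4] at h3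
      linarith)
    hu hl w (by
      intro m _ x hx
      exact hw m x hx)
  exact ⟨C, fun m hm r x hx hxm => hC m hm r x hx hxm⟩

end

end Pool.Agent.NH31
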