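import Pool.Agent.NH31.M11

/-!
Abundance on the generic fibre from finitely generated section rings and pseudo-automorphisms.
-/

set_option autoImplicit false
set_option linter.overlappingInstances false
set_option linter.unusedSectionVars false

open FF Pool.Agent.W602.GT Pool.Agent.W603.LV Pool.Agent.Y172

namespace Pool.Agent.NH31

section

variable {K : Type} [Field K] [Algebra ℂ K] {N n : ℕ} {y : Fin (N + 1) → K}
  {F : IntermediateField ℂ K}

theorem fs_one : FibreSection y F 0 1 := by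
  intro P _ _
  right
  rw [P.ord_one]
  simp

theorem FibreSection.mul {D D' : Place ℂ K → ℤ} {x x' : K} (h : FibreSection y F D x)
    (h' : FibreSection y F D' x') : FibreSection y F (D + D') (x * x') := by
  intro P hP hPF
  by_cases h0 : x = 0
  · left
    rw [h0, zero_mul]
  by_cases h0' : x' = 0
  · left
    rw [h0', mul_zero]
  right
  have h1 := (h P hP hPF).resolve_left h0
  have h2 := (h' P hP hPF).resolve_left h0'
  rw [P.ord_mul h0 h0', Pi.add_apply]
  linarith

theorem FibreSection.pow {D : Place ℂ K → ℤ} {x : K} (h : FibreSection y F D x) (n : ℕ) :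
    FibreSection y F (n • D) (x ^ n) := by
  induction n with
  | zero =>
    rw [zero_smul, pow_zero]
    exact fs_one
  | succ n ih =>
    rw [pow_succ, add_smul, one_smul]
    exact ih.mul h

theorem fs_prod {ι : Type} (s : Finset ι) {D : ι → Place ℂ K → ℤ} {g : ι → K}
    (h : ∀ i ∈ s, FibreSection y F (D i) (g i)) :
    FibreSection y F (∑ i ∈ s, D i) (∏ i ∈ s, g i) := by
  classical
  induction s using Finset.induction_on with
  | empty =>
    rw [Finset.sum_empty, Finset.prod_empty]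
    exact fs_one
  | insert a s ha ih =>
    rw [Finset.sum_insert ha, Finset.prod_insert ha]
    exact (h a (Finset.mem_insert_self a s)).mul
      (ih fun i hi => h i (Finset.mem_insert_of_mem hi))

/-- **The modules of sections are finitely generated.** -/
theorem fg_fin {k : ℕ} {E : Fin k → Place ℂ K → ℤ} {A : Place ℂ K → ℤ}
    (hfg : SectionRingFG y F (Fin.cons A E : Fin (k + 1) → Place ℂ K → ℤ)) (c : Fin k → ℕ)
    {M : IntermediateField F K}
    (hM : ∀ (m : ℕ) (x : K), FibreSection y F (m • ∑ i, c i • E i) x → x ∈ M) :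
    ∃ (τ : ℕ) (w : Fin τ → K), ∀ (m : ℕ) (x : K),
      FibreSection y F (m • (∑ i, c i • E i) + A) x → x ∈ Submodule.span M (Set.range w) := by
  classical
  obtain ⟨s, ct, g, hg, hgen⟩ := hfg
  obtain ⟨G, hG⟩ : ∃ G : Fin (k + 1) → Place ℂ K → ℤ, G = Fin.cons A E := ⟨_, rfl⟩
  rw [← hG] at hg hgen
  have hG0 : G 0 = A := by rw [hG, Fin.cons_zero]
  have hGs : ∀ i, G (Fin.succ i) = E i := fun i => by rw [hG, Fin.cons_succ]
  obtain ⟨T, hTfin, hTsub, hT⟩ := dickson {p : (Fin s → ℕ) × ℕ | ∑ t, p.1 t * ct t 0 = 1 ∧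
    ∀ i, ∑ t, p.1 t * ct t (Fin.succ i) = p.2 * c i}
  let T' := hTfin.toFinset
  let w : Fin T'.card → K := fun i => ∏ t, g t ^ ((T'.equivFin.symm i).1.1 t)
  refine ⟨_, w, fun m x hx => ?_⟩
  obtain ⟨d, hd⟩ : ∃ d : Fin (k + 1) → ℕ, d = Fin.cons 1 fun i => m * c i := ⟨_, rfl⟩
  have hd0 : d 0 = 1 := by rw [hd, Fin.cons_zero]
  have hds : ∀ i, d (Fin.succ i) = m * c i := fun i => by rw [hd, Fin.cons_succ]
  have h1 : ∑ i, d i • G i = m • (∑ i, c i • E i) + A := by
    rw [Fin.sum_univ_succ, hd0, hG0, one_smul, add_comm]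
    congr 1
    rw [Finset.smul_sum]
    refine Finset.sum_congr rfl fun i _ => ?_
    rw [hds, hGs, mul_smul]
  have h2 := hgen d x (by rw [h1]; exact hx)
  have key : ∀ x ∈ Submodule.span F {x : K | ∃ n : Fin s → ℕ, (∀ i, ∑ t, n t * ct t i = d i) ∧
        x = ∏ t, g t ^ n t}, x ∈ Submodule.span M (Set.range w) := by
    intro x hx
    induction hx using Submodule.span_induction with
    | mem x hx =>
      obtain ⟨n, hn, rfl⟩ := hx
      obtain ⟨⟨n', m'⟩, ht, hle⟩ := hT (n, m) ⟨(hn 0).trans hd0, fun i => (hn _).trans (hds i)⟩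
      have ht' := hTsub ht
      have hle1 : ∀ t, n' t ≤ n t := hle.1
      have hle2 : m' ≤ m := hle.2
      have h3 : ∏ t, g t ^ n t = (∏ t, g t ^ (n t - n' t)) * ∏ t, g t ^ n' t := by
        rw [← Finset.prod_mul_distrib]
        refine Finset.prod_congr rfl fun t _ => ?_
        rw [← pow_add, Nat.sub_add_cancel (hle1 t)]
      have h4 : ∑ t, (n t - n' t) • ∑ i, ct t i • G i = (m - m') • ∑ i, c i • E i := by
        have h5 : ∑ t, (n t - n' t) • ∑ i, ct t i • G i =
            ∑ i, (∑ t, (n t - n' t) * ct t i) • G i := by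
          simp only [Finset.smul_sum, Finset.sum_smul, mul_smul]
          rw [Finset.sum_comm]
        rw [h5, Fin.sum_univ_succ]
        have h6 : ∀ i, ∑ t, (n t - n' t) * ct t i + ∑ t, n' t * ct t i = ∑ t, n t * ct t i := by
          intro i
          rw [← Finset.sum_add_distrib]
          refine Finset.sum_congr rfl fun t _ => ?_
          rw [← add_mul, Nat.sub_add_cancel (hle1 t)]
        have h7 : ∑ t, (n t - n' t) * ct t 0 = 0 := by
          have h8 := h6 0
          have h9 : ∑ t, n' t * ct t 0 = 1 := ht'.1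
          rw [hn 0, hd0, h9] at h8
          omega
        rw [h7, zero_smul, zero_add, Finset.smul_sum]
        refine Finset.sum_congr rfl fun i _ => ?_
        have h8 := h6 (Fin.succ i)
        have h9 : ∑ t, n' t * ct t (Fin.succ i) = m' * c i := ht'.2 i
        rw [hn (Fin.succ i), hds, h9] at h8
        have h10 : ∑ t, (n t - n' t) * ct t (Fin.succ i) = (m - m') * c i := by
          rw [Nat.sub_mul]
          omega
        rw [h10, hGs, mul_smul]
      have h5 : ∏ t, g t ^ (n t - n' t) ∈ M := by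
        refine hM (m - m') _ ?_
        rw [← h4]
        exact fs_prod _ fun t _ => (hg t).pow _
      rw [h3]
      have h6 : (∏ t, g t ^ (n t - n' t)) * ∏ t, g t ^ n' t =
          (⟨∏ t, g t ^ (n t - n' t), h5⟩ : M) •
            w (T'.equivFin ⟨(n', m'), hTfin.mem_toFinset.2 ht⟩) := by
        change _ = (∏ t, g t ^ (n t - n' t)) * ∏ t, g t ^ ((T'.equivFin.symm
          (T'.equivFin ⟨(n', m'), hTfin.mem_toFinset.2 ht⟩)).1.1 t)
        rw [Equiv.symm_apply_apply]
      rw [h6]
      exact Submodule.smul_mem _ _ (Submodule.subset_span ⟨_, rfl⟩)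
    | zero => exact Submodule.zero_mem _
    | add x x' _ _ h h' => exact Submodule.add_mem _ h h'
    | smul a x _ h =>
      rw [← algebraMap_smul M a x]
      exact Submodule.smul_mem _ _ h
  exact key x h2

/-- **Abundance from finitely generated section rings.** -/
theorem fg_abund (hy : NormalModel y) (hreg : RegularFibration y F) {k : ℕ}
    {E : Fin k → Place ℂ K → ℤ}
    (hE : ∀ i, {P | IsPrimeDivisor y P ∧ E i P ≠ 0}.Finite ∧
      ∀ P, IsPrimeDivisor y P → Horizontal F P → 0 ≤ E i P)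
    (hfg : ∀ A : Place ℂ K → ℤ, {P | IsPrimeDivisor y P ∧ A P ≠ 0}.Finite →
      (∀ P, IsPrimeDivisor y P → Horizontal F P → 0 ≤ A P) →
      SectionRingFG y F (Fin.cons A E : Fin (k + 1) → Place ℂ K → ℤ)) (c : Fin k → ℕ) :
    FibreAbundant y F (∑ i, c i • E i) := by
  classical
  refine abund_of_fin hy hreg ?_ ?_ fun M hM A hA => ?_
  rotate_left 2
  · obtain ⟨A', hA'⟩ : ∃ A' : Place ℂ K → ℤ, ∀ P, A' P = max (A P) 0 := ⟨_, fun _ => rfl⟩
    obtain ⟨τ, w, hw⟩ := fg_fin (hfg A' (hA.subset (by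
      rintro P ⟨hP, hne⟩
      refine ⟨hP, fun h0 => hne ?_⟩
      rw [hA', h0, max_self])) fun P _ _ => by
        rw [hA']
        exact le_max_right _ _) c hM
    refine ⟨τ, w, fun m x hx => hw m x fun P hP hPF => (hx P hP hPF).imp_right fun h1 =>
      le_trans ?_ h1⟩
    rw [Pi.add_apply, Pi.add_apply, hA', neg_le_neg_iff]
    exact add_le_add le_rfl (le_max_left _ _)
  · refine (Set.finite_iUnion fun i => (hE i).1).subset ?_
    rintro P ⟨hP, hne⟩
    by_contra hcon
    rw [Set.mem_iUnion] at hcon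
    push Not at hcon
    apply hne
    rw [Finset.sum_apply]
    refine Finset.sum_eq_zero fun i _ => ?_
    rw [Pi.smul_apply]
    have h1 : E i P = 0 := by
      by_contra h2
      exact hcon i ⟨hP, h2⟩
    rw [h1, smul_zero]
  · intro P hP hPF
    rw [Finset.sum_apply]
    refine Finset.sum_nonneg fun i _ => ?_
    rw [Pi.smul_apply, nsmul_eq_mul]
    exact mul_nonneg (Int.natCast_nonneg _) ((hE i).2 P hP hPF)

/-! ### pseudo-automorphisms -/

theorem pull_ord (τ : K ≃ₐ[F] K) (P : Place ℂ K) (x : K) : (pull τ P).ord x = P.ord (τ x) := rfl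

theorem pull_symm (τ : K ≃ₐ[F] K) (P : Place ℂ K) : pull τ (pull τ.symm P) = P := by
  apply Place.ext
  funext x
  rw [pull_ord, pull_ord, AlgEquiv.symm_apply_apply]

theorem pull_symm' (τ : K ≃ₐ[F] K) (P : Place ℂ K) : pull τ.symm (pull τ P) = P := by
  apply Place.ext
  funext x
  rw [pull_ord, pull_ord, AlgEquiv.apply_symm_apply]

theorem pull_horizontal {τ : K ≃ₐ[F] K} {P : Place ℂ K} :
    Horizontal F (pull τ P) ↔ Horizontal F P := by
  have h1 : ∀ f ∈ F, τ f = f := fun f hf => τ.commutes (⟨f, hf⟩ : F)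
  constructor
  · intro h f hf hf0
    have h2 := h f hf hf0
    rwa [pull_ord, h1 f hf] at h2
  · intro h f hf hf0
    rw [pull_ord, h1 f hf]
    exact h f hf hf0

theorem abund_pull {τ : K ≃ₐ[F] K} (hτ : IsPseudoAut y F τ) {D : Place ℂ K → ℤ}
    (h : FibreAbundant y F D) : FibreAbundant y F fun P => D (pull τ P) := by
  classical
  -- sections
  have hprime : ∀ P, IsPrimeDivisor y P → Horizontal F P →
      IsPrimeDivisor y (pull τ.symm P) ∧ Horizontal F (pull τ.symm P) := by
    intro P hP hPF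
    have h1 : Horizontal F (pull τ.symm P) := pull_horizontal.2 hPF
    refine ⟨(hτ _ h1).1 ?_, h1⟩
    rw [pull_symm]
    exact hP
  have hfs : ∀ (G : Place ℂ K → ℤ) (x : K), FibreSection y F G x →
      FibreSection y F (fun P => G (pull τ P)) (τ x) := by
    intro G x hx P hP hPF
    rcases hx (pull τ P) ((hτ P hPF).2 hP) (pull_horizontal.2 hPF) with h1 | h1
    · left
      rw [h1, map_zero]
    · right
      exact h1
  obtain ⟨k, ⟨m, hm, g, hg, hg0, hgi⟩, hup⟩ := h
  refine ⟨k, ⟨m, hm, fun i => τ (g i), fun i => hfs _ _ (hg i), (map_ne_zero τ).2 hg0, ?_⟩, ?_⟩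
  · have h1 := hgi.map' (f := (τ : K →ₐ[F] K)) τ.injective
    have h2 : (fun i : Fin k => τ (g i.succ) / τ (g 0)) =
        (τ : K →ₐ[F] K) ∘ fun i : Fin k => g i.succ / g 0 := by
      funext i
      change _ = τ (g i.succ / g 0)
      rw [map_div₀]
    rw [h2]
    exact h1
  · intro A hA
    obtain ⟨A', hA'⟩ : ∃ A' : Place ℂ K → ℤ, ∀ P, A' P =
        if IsPrimeDivisor y P ∧ Horizontal F P then A (pull τ.symm P) else 0 :=
      ⟨_, fun _ => rfl⟩
    obtain ⟨C, hC⟩ := hup A' (by
      refine (hA.image (pull τ)).subset ?_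
      rintro P ⟨hP, hne⟩
      rw [hA'] at hne
      split_ifs at hne with h1
      · exact ⟨pull τ.symm P, ⟨(hprime P hP h1.2).1, hne⟩, pull_symm τ P⟩
      · exact absurd rfl hne)
    refine ⟨C, fun m hm r f hf hfm => hC m hm r (fun i => τ.symm (f i)) ?_ fun i P hP hPF => ?_⟩
    · exact hf.map' (τ.symm : K ≃ₐ[F] K).toLinearMap (LinearMap.ker_eq_bot.2 τ.symm.injective)
    · obtain ⟨h1, h2⟩ := hprime P hP hPF
      rcases hfm i _ h1 h2 with h3 | h3
      · left
        rw [h3, map_zero]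
      · right
        rw [pull_ord] at h3
        rw [Pi.add_apply, Pi.smul_apply] at h3 ⊢
        rw [hA', if_pos ⟨hP, hPF⟩]
        change -(m • D (pull τ (pull τ.symm P)) + A (pull τ.symm P)) ≤ _ at h3
        rwa [pull_symm] at h3

theorem abund_lin {D D' : Place ℂ K → ℤ} {g : K} (hg : g ≠ 0)
    (hD : ∀ P, IsPrimeDivisor y P → Horizontal F P → D P = P.ord g + D' P)
    (h : FibreAbundant y F D') : FibreAbundant y F D := by
  obtain ⟨k, ⟨m, hm, g', hg', hg0, hgi⟩, hup⟩ := h
  refine ⟨k, ⟨m, hm, fun i => g' i / g ^ m, fun i P hP hPF => ?_,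
    div_ne_zero hg0 (pow_ne_zero _ hg), ?_⟩, ?_⟩
  · rcases hg' i P hP hPF with h1 | h1
    · left
      change g' i / g ^ m = 0
      rw [h1, zero_div]
    · by_cases h0 : g' i = 0
      · left
        change g' i / g ^ m = 0
        rw [h0, zero_div]
      right
      change -((m • D) P) ≤ P.ord (g' i / g ^ m)
      rw [P.ord_div h0 (pow_ne_zero _ hg), P.ord_pow]
      rw [Pi.smul_apply, nsmul_eq_mul] at h1 ⊢
      rw [hD P hP hPF]
      linarith
  · have h2 : (fun i : Fin k => g' i.succ / g ^ m / (g' 0 / g ^ m)) =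
        fun i : Fin k => g' i.succ / g' 0 := by
      funext i
      rw [div_div_div_cancel_right₀ (pow_ne_zero _ hg)]
    rw [h2]
    exact hgi
  · intro A hA
    obtain ⟨C, hC⟩ := hup A hA
    refine ⟨C, fun m hm r f hf hfm => hC m hm r (fun i => f i * g ^ m) ?_ fun i P hP hPF => ?_⟩
    · exact hf.map' (LinearMap.mulRight F (g ^ m)) (LinearMap.ker_eq_bot.2
        (mul_left_injective₀ (pow_ne_zero _ hg)))
    · by_cases h0 : f i = 0
      · left
        rw [h0, zero_mul]
      right
      have h1 := (hfm i P hP hPF).resolve_left h0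
      rw [P.ord_mul h0 (pow_ne_zero _ hg), P.ord_pow]
      rw [Pi.add_apply, Pi.smul_apply, nsmul_eq_mul] at h1 ⊢
      rw [hD P hP hPF] at h1
      linarith

theorem abund_mult {D : Place ℂ K → ℤ}
    (hD0 : ∀ P, IsPrimeDivisor y P → Horizontal F P → 0 ≤ D P) {q : ℕ} (hq : 1 ≤ q)
    (h : FibreAbundant y F (q • D)) : FibreAbundant y F D := by
  obtain ⟨k, ⟨m, hm, g, hg, hg0, hgi⟩, hup⟩ := h
  refine ⟨k, ⟨m * q, Nat.succ_le_of_lt (Nat.mul_pos hm hq), g, fun i => ?_, hg0, hgi⟩, ?_⟩
  · rw [mul_smul]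
    exact hg i
  · intro A hA
    obtain ⟨C, hC⟩ := hup A hA
    refine ⟨C * 2 ^ k, fun m hm r f hf hfm => ?_⟩
    refine (hC (m / q + 1) (Nat.succ_le_succ (Nat.zero_le _)) r f hf fun i P hP hPF => ?_).trans ?_
    · refine (hfm i P hP hPF).imp_right fun h1 => le_trans ?_ h1
      rw [Pi.add_apply, Pi.add_apply, Pi.smul_apply, Pi.smul_apply, Pi.smul_apply, nsmul_eq_mul,
        nsmul_eq_mul, nsmul_eq_mul]
      have h2 := hD0 P hP hPF
      have h3 : (m : ℤ) ≤ ((m / q + 1 : ℕ) : ℤ) * q := by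
        have h4 := Nat.div_add_mod m q
        have h5 := Nat.mod_lt m (by omega : 0 < q)
        have h6 : m ≤ (m / q + 1) * q := by
          rw [add_mul, one_mul, mul_comm (m / q) q]
          omega
        exact_mod_cast h6
      have h4 := mul_le_mul_of_nonneg_right h3 h2
      rw [mul_assoc] at h4
      linarith
    · rw [mul_assoc, ← mul_pow]
      refine Nat.mul_le_mul_left _ (Nat.pow_le_pow_left ?_ _)
      have := Nat.div_le_self m q
      omega

/-- **Abundance for cone-finite generic fibres.** -/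
theorem cone_abund (hy : NormalModel y) (hreg : RegularFibration y F) (hcone : ConeFinite y F)
    (D : Place ℂ K → ℤ) (hD : {P | IsPrimeDivisor y P ∧ D P ≠ 0}.Finite)
    (hD0 : ∀ P, IsPrimeDivisor y P → Horizontal F P → 0 ≤ D P) : FibreAbundant y F D := by
  obtain ⟨k, E, hE, hfg, hcone⟩ := hcone
  obtain ⟨τ, hτ, q, hq, c, g, hg, hlin⟩ := hcone D hD hD0
  refine abund_mult hD0 hq (abund_lin hg (fun P hP hPF => ?_)
    (abund_pull hτ (fg_abund hy hreg hE hfg c)))
  rw [Pi.smul_apply, nsmul_eq_mul, hlin P hP hPF, Finset.sum_apply]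
  congr 1

end

end Pool.Agent.NH31
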