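import Pool.Agent.NH31.M1
import Pool.Agent.NH31.Defs
import Pool.Agent.Y172.Rel
import Pool.Agent.Y172.Alg

/-!
The Iitaka dimension of a divisor, and the bound for the dimensions of the spaces of its sections.
-/

set_option autoImplicit false
set_option linter.overlappingInstances false
set_option linter.unusedSectionVars false

open FF Pool.Agent.W602.GT Pool.Agent.W603.LV Pool.Agent.Y172

namespace Pool.Agent.NH31

section

/-- Dickson's lemma -/
theorem dickson {α : Type} [PartialOrder α] [WellQuasiOrderedLE α] (S : Set α) :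
    ∃ T : Set α, T.Finite ∧ T ⊆ S ∧ ∀ x ∈ S, ∃ t ∈ T, t ≤ x := by
  refine ⟨{x | Minimal (· ∈ S) x}, WellQuasiOrderedLE.finite_of_isAntichain
    (setOfPred_minimal_antichain _), fun x hx => hx.1, fun x hx => ?_⟩
  obtain ⟨t, ht, hm⟩ := exists_minimal_le_of_wellFoundedLT (· ∈ S) x hx
  exact ⟨t, hm, ht⟩

variable {K : Type} [Field K] [Algebra ℂ K] {N n : ℕ} {y : Fin (N + 1) → K}

open AlgebraicIndependent in
theorem ext_indep (hn : Algebra.trdeg ℂ K = n) {κ : ℕ} {z : Fin κ → K}
    (hz : AlgebraicIndependent ℂ z) : ∃ (l : ℕ) (u : Fin l → K), n = κ + l ∧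
      AlgebraicIndependent (acl ℂ (Set.range z)) u := by
  classical
  obtain ⟨t, hzt, ht⟩ := exists_isTranscendenceBasis_superset (R := ℂ) (s := Set.range z)
    (hz.to_subtype_range)
  have hcard : Cardinal.mk t = n := by
    rw [← hn]
    exact ht.cardinalMk_eq_trdeg
  have hfin : Finite t := by
    rw [← Cardinal.lt_aleph0_iff_finite, hcard]
    exact Cardinal.natCast_lt_aleph0
  have hcard' : Nat.card t = n := by
    have := congrArg Cardinal.toNat hcard
    rwa [Cardinal.toNat_natCast] at this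
  obtain ⟨s, hs⟩ : ∃ s : Set t, s = {i : t | (i : K) ∈ Set.range z} := ⟨_, rfl⟩
  have h1 := ((iff_adjoin_image (R := ℂ) (x := ((↑) : t → K)) s).1 ht.1).2
  have himg : ((↑) : t → K) '' s = Set.range z := by
    ext x
    constructor
    · rintro ⟨i, hi, rfl⟩
      rw [hs] at hi
      exact hi
    · intro hx
      refine ⟨⟨x, hzt hx⟩, ?_, rfl⟩
      rw [hs]
      exact hx
  rw [himg] at h1
  have hs1 : Nat.card s = κ := by
    have h2 : Nat.card (((↑) : t → K) '' s) = Nat.card s :=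
      Nat.card_image_of_injective Subtype.val_injective s
    rw [← h2, himg, Nat.card_range_of_injective hz.injective, Nat.card_fin]
  have hs2 : Nat.card s + Nat.card (sᶜ : Set t) = n := by
    rw [← hcard']
    have := Set.ncard_add_ncard_compl s
    exact this
  have hfin2 : Finite (sᶜ : Set t) := inferInstance
  let e := Finite.equivFin (sᶜ : Set t)
  refine ⟨Nat.card (sᶜ : Set t), fun i => ((e.symm i : t) : K), ?_, ?_⟩
  · rw [← hs2, hs1]
  · have h3 : AlgebraicIndependent (Algebra.adjoin ℂ (Set.range z))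
      (fun i : (sᶜ : Set t) => ((i : t) : K)) := h1
    have h4 := h3.comp _ e.symm.injective
    have h5 := IntermediateField.algebraicIndependent_adjoin_iff.2 h4
    have hle : IntermediateField.adjoin ℂ (Set.range z) ≤ acl ℂ (Set.range z) :=
      adjoin_le_acl _
    let _ : Algebra (IntermediateField.adjoin ℂ (Set.range z)) (acl ℂ (Set.range z)) :=
      (IntermediateField.inclusion hle).toAlgebra
    have : IsScalarTower (IntermediateField.adjoin ℂ (Set.range z)) (acl ℂ (Set.range z)) K :=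
      IsScalarTower.of_algebraMap_eq fun x => rfl
    have : Algebra.IsAlgebraic (IntermediateField.adjoin ℂ (Set.range z))
        (acl ℂ (Set.range z)) := by
      refine ⟨fun x => ?_⟩
      have h1 : IsAlgebraic (IntermediateField.adjoin ℂ (Set.range z)) (x : K) := mem_acl.1 x.2
      exact (isAlgebraic_algebraMap_iff (R := IntermediateField.adjoin ℂ (Set.range z)) (A := K)
        (FaithfulSMul.algebraMap_injective (acl ℂ (Set.range z)) K)).1 h1
    exact h5.extendScalars (acl ℂ (Set.range z))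

/-- a maximal independent family -/
theorem exists_max (hn : Algebra.trdeg ℂ K = n) (S : Set K) :
    ∃ (κ : ℕ) (z : Fin κ → K), (∀ i, z i ∈ S) ∧ AlgebraicIndependent ℂ z ∧
      ∀ x ∈ S, x ∈ acl ℂ (Set.range z) := by
  obtain ⟨I, hI⟩ := (AlgebraicIndependent.matroid ℂ K).exists_isBasis S (Set.subset_univ _)
  rw [AlgebraicIndependent.matroid_isBasis_iff] at hI
  obtain ⟨h1, h2, h3⟩ := hI
  have h4 : AlgebraicIndependent ℂ ((↑) : I → K) := h1
  have h5 : Cardinal.mk I ≤ n := by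
    rw [← hn]
    exact h4.cardinalMk_le_trdeg
  have hfin : Finite I := by
    rw [← Cardinal.lt_aleph0_iff_finite]
    exact h5.trans_lt Cardinal.natCast_lt_aleph0
  obtain ⟨κ, ⟨e⟩⟩ := Finite.exists_equiv_fin I
  refine ⟨κ, fun i => (e.symm i : K), fun i => h2 (e.symm i).2, h4.comp _ e.symm.injective,
    fun x hx => ?_⟩
  rw [mem_acl, IntermediateField.isAlgebraic_adjoin_iff]
  have h6 : Set.range (fun i => (e.symm i : K)) = I := by
    ext z
    constructor
    · rintro ⟨i, rfl⟩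
      exact (e.symm i).2
    · intro hz
      exact ⟨e ⟨z, hz⟩, by simp⟩
  rw [h6]
  exact h3 x hx

theorem FinSup.bnd_smul {U : Place ℂ K → ℚ} (hU : FinSup y U) (a : ℕ) :
    {P | IsPrimeDivisor y P ∧ bnd (a • U) P ≠ 0}.Finite := bnd_sup (hU.smul a)

/-- **The Iitaka dimension.** -/
theorem iitaka_bound (hy : NormalModel y) (hn : Algebra.trdeg ℂ K = n) {U : Place ℂ K → ℚ}
    (hU : FinSup y U) {a : ℕ} (ha : 1 ≤ a) {σ : K} (hσ : Fn y (a • U) σ) (hσ0 : σ ≠ 0) :
    ∃ (κ m0 : ℕ) (g : Fin (κ + 1) → K), 1 ≤ m0 ∧ (∀ j, Fn y (m0 • U) (g j)) ∧ g 0 ≠ 0 ∧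
      AlgebraicIndependent ℂ (fun i : Fin κ => g i.succ / g 0) ∧
      ∃ C : ℕ, ∀ m : ℕ, 1 ≤ m → ∀ (r : ℕ) (f : Fin r → K), LinearIndependent ℂ f →
        (∀ i, Fn y ((a * m) • U) (f i)) → r ≤ C * m ^ κ := by
  classical
  obtain ⟨S, hS⟩ : ∃ S : Set K, ∀ x, x ∈ S ↔ ∃ (m : ℕ) (f g : K), 1 ≤ m ∧ Fn y (m • U) f ∧
      Fn y (m • U) g ∧ g ≠ 0 ∧ x = f / g := ⟨{x | _}, fun _ => Iff.rfl⟩
  obtain ⟨κ, z, hzS, hz, hmax⟩ := exists_max hn S
  choose m f g hm hf hg hg0 hzf using fun i => (hS _).1 (hzS i)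
  obtain ⟨l, u, hl, hu⟩ := ext_indep hn hz
  -- the sections
  obtain ⟨h, hh⟩ : ∃ h, h = σ * ∏ i, g i := ⟨_, rfl⟩
  have hh0 : h ≠ 0 := by
    rw [hh]
    exact mul_ne_zero hσ0 (Finset.prod_ne_zero_iff.2 fun i _ => hg0 i)
  have hprod : ∀ s : Finset (Fin κ), Fn y ((∑ i ∈ s, m i) • U) (∏ i ∈ s, g i) := by
    intro s
    have h1 := fn_prod s (D := fun i => m i • U) (g := g) fun i _ => hg i
    rwa [← Finset.sum_smul] at h1
  have hhs : Fn y ((a + ∑ i, m i) • U) h := by
    rw [hh, add_smul]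
    exact hσ.mul (hprod _)
  have hhz : ∀ i, Fn y ((a + ∑ i, m i) • U) (z i * h) := by
    intro i
    have h1 : z i * h = σ * (f i * ∏ j ∈ Finset.univ.erase i, g j) := by
      rw [hh, hzf i, ← Finset.mul_prod_erase Finset.univ g (Finset.mem_univ i)]
      field_simp [hg0 i]
    have h2 : a + ∑ i, m i = a + (m i + ∑ j ∈ Finset.univ.erase i, m j) := by
      rw [Finset.add_sum_erase _ _ (Finset.mem_univ i)]
    rw [h1, h2, add_smul, add_smul]
    exact hσ.mul ((hf i).mul (hprod _))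
  refine ⟨κ, a + ∑ i, m i, Fin.cons h fun i => z i * h, by omega, ?_, ?_, ?_, ?_⟩
  · intro j
    refine Fin.cases ?_ (fun i => ?_) j
    · rw [Fin.cons_zero]
      exact hhs
    · rw [Fin.cons_succ]
      exact hhz i
  · rw [Fin.cons_zero]
    exact hh0
  · have h1 : (fun i : Fin κ => (Fin.cons h (fun i => z i * h) : Fin (κ + 1) → K) i.succ /
        (Fin.cons h (fun i => z i * h) : Fin (κ + 1) → K) 0) = z := by
      ext i
      rw [Fin.cons_zero, Fin.cons_succ, mul_div_assoc, div_self hh0, mul_one]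
    rw [h1]
    exact hz
  -- the growth
  have hc := hU.bnd_smul a
  choose s hs hs0 hsf using fun j => fn_chart hy hc j
  have hess := hy.ess
  obtain ⟨Z, -, hZ, -⟩ := exists_crd hn
  have hFf : ∀ m f, Fn y ((a * m) • U) f → ∀ P, IsPrimeDivisor y P →
      f = 0 ∨ -((m * bnd (a • U) P : ℕ) : ℤ) ≤ P.ord f := by
    intro m f hf P hP
    refine (hf P hP).imp_right fun h1 => ?_
    have h2 := le_bnd (a • U) P
    have h3 : ((a * m) • U) P = m * (a • U) P := by
      simp only [smul_ap]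
      push_cast
      ring
    rw [h3] at h1
    have h4 : -((m * bnd (a • U) P : ℕ) : ℚ) ≤ (P.ord f : ℚ) := by
      refine le_trans ?_ h1
      push_cast
      have := mul_le_mul_of_nonneg_left h2 (Nat.cast_nonneg (α := ℚ) m)
      linarith
    exact_mod_cast h4
  obtain ⟨C, hC⟩ := growth_rel hZ (fd_basis hZ)
    ((Finset.univ.image fun j => (s j)⁻¹) ∪ {σ, σ⁻¹})
    (fun m => {x | ∃ f, Fn y ((a * m) • U) f ∧ x = f / σ ^ m})
    (by
      intro P
      obtain ⟨j, hj⟩ := exists_centred hy P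
      have h0 := (P.reg_iff (hs0 j)).1 (hj.reg _ (hs j))
      refine ⟨(P.ord (s j)).toNat + (P.ord σ).toNat, ?_⟩
      rintro m _ _ ⟨f, hf, rfl⟩
      have h1 := localRing_reg (hsf j m f (hFf m f hf) P hj)
      by_cases hf0 : f = 0
      · left
        rw [hf0, zero_div]
      right
      rw [P.reg_iff (mul_ne_zero hf0 (pow_ne_zero _ (hs0 j))),
        P.ord_mul hf0 (pow_ne_zero _ (hs0 j)), P.ord_pow] at h1
      rw [P.ord_div hf0 (pow_ne_zero _ hσ0), P.ord_pow]
      push_cast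
      rw [Int.toNat_of_nonneg h0]
      have h2 : P.ord σ ≤ ((P.ord σ).toNat : ℤ) := Int.self_le_toNat _
      have h3 := mul_le_mul_of_nonneg_left h2 (Int.natCast_nonneg m)
      have h4 : (((P.ord σ).toNat : ℕ) : ℤ) = max (P.ord σ) 0 := Int.toNat_eq_max _
      rw [h4] at h3
      nlinarith)
    (by
      rintro P hP m _ _ ⟨f, hf, rfl⟩
      obtain ⟨j, hj⟩ := exists_centred hy P
      have h0 := (P.reg_iff (hs0 j)).1 (hj.reg _ (hs j))
      have h2 := (P.reg_iff (inv_ne_zero (hs0 j))).1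
        (hP _ (Finset.mem_union_left _ (Finset.mem_image_of_mem _ (Finset.mem_univ j))))
      rw [P.ord_inv] at h2
      have h3 : P.ord (s j) = 0 := by omega
      have h5 := (P.reg_iff hσ0).1 (hP _ (Finset.mem_union_right _ (by simp)))
      have h6 := (P.reg_iff (inv_ne_zero hσ0)).1 (hP _ (Finset.mem_union_right _ (by simp)))
      rw [P.ord_inv] at h6
      have h7 : P.ord σ = 0 := by omega
      have h1 := localRing_reg (hsf j m f (hFf m f hf) P hj)
      by_cases hf0 : f = 0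
      · left
        rw [hf0, zero_div]
      right
      rw [P.reg_iff (mul_ne_zero hf0 (pow_ne_zero _ (hs0 j))),
        P.ord_mul hf0 (pow_ne_zero _ (hs0 j)), P.ord_pow, h3] at h1
      rw [P.ord_div hf0 (pow_ne_zero _ hσ0), P.ord_pow, h7]
      linarith)
    hu one_ne_zero hl 1
    (by
      rintro m hm' _ ⟨f, hf, rfl⟩
      have h1 : f / σ ^ m ∈ acl ℂ (Set.range z) := by
        refine hmax _ ((hS _).2 ⟨a * m, f, σ ^ m, ?_, hf, ?_, pow_ne_zero _ hσ0, rfl⟩)
        · exact Nat.succ_le_of_lt (Nat.mul_pos (by omega) (by omega))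
        · have h2 := hσ.pow m
          rwa [smul_smul, mul_comm m a] at h2
      refine ⟨fun _ => ⟨_, h1⟩, ?_⟩
      rw [Fintype.sum_unique, mul_one]
      simp)
  refine ⟨C, fun m hm' r f hf hfm => ?_⟩
  have h1 : LinearIndependent ℂ fun i => f i / σ ^ m := by
    have h2 := hf.map' (LinearMap.mulRight ℂ (σ ^ m)⁻¹) (LinearMap.ker_eq_bot.2
      (mul_left_injective₀ (inv_ne_zero (pow_ne_zero _ hσ0))))
    have h3 : (fun i => f i / σ ^ m) = (⇑(LinearMap.mulRight ℂ (σ ^ m)⁻¹) ∘ f) := by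
      funext i
      rw [div_eq_mul_inv]
      rfl
    rw [h3]
    exact h2
  exact hC m hm' r _ h1 fun i => ⟨f i, hfm i, rfl⟩

end

end Pool.Agent.NH31
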