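import Pool.Agent.NH31.M2
import Pool.Agent.NH31.G1

/-!
Divisors on varieties whose generic fibre over a base has a finitely generated Cox ring.
-/

set_option autoImplicit false
set_option linter.overlappingInstances false
set_option linter.unusedSectionVars false

open FF Pool.Agent.W602.GT Pool.Agent.W603.LV Pool.Agent.Y172

namespace Pool.Agent.NH31

section

variable {K : Type} [Field K] [Algebra ℂ K] {N n : ℕ} {y : Fin (N + 1) → K}
  {F : IntermediateField ℂ K}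

/-- a common denominator of the coefficients -/
theorem exists_den_fin {U : Place ℂ K → ℚ} (hU : FinSup y U) :
    ∃ d0 : ℕ, 1 ≤ d0 ∧ ∀ P, IsPrimeDivisor y P → ∃ z : ℤ, (d0 : ℚ) * U P = z := by
  classical
  let S := hU.toFinset
  refine ⟨∏ P ∈ S, (U P).den, Nat.pos_of_ne_zero (Finset.prod_ne_zero_iff.2 fun P _ =>
    (U P).den_ne_zero), fun P hP => ?_⟩
  by_cases h0 : U P = 0
  · exact ⟨0, by simp [h0]⟩
  have hPS : P ∈ S := (Set.Finite.mem_toFinset hU).2 ⟨hP, h0⟩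
  refine ⟨(∏ Q ∈ S.erase P, (U Q).den : ℕ) * (U P).num, ?_⟩
  rw [← Finset.prod_erase_mul _ _ hPS]
  have h1 : ((U P).den : ℚ) * U P = (U P).num := by
    rw [mul_comm]
    exact Rat.mul_den_eq_num (U P)
  push_cast
  rw [← h1]
  ring

/-- The rational function `g` is zero or satisfies `div g + D ≥ 0` along the horizontal prime
divisors. -/
def Fh (y : Fin (N + 1) → K) (F : IntermediateField ℂ K) (D : Place ℂ K → ℚ) (g : K) : Prop :=
  ∀ P, IsPrimeDivisor y P → Horizontal F P → g = 0 ∨ -(D P) ≤ (P.ord g : ℚ)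

theorem Fn.fh {D : Place ℂ K → ℚ} {g : K} (h : Fn y D g) : Fh y F D g := fun P hP _ => h P hP

theorem Fh.mono {D D' : Place ℂ K → ℚ} {g : K} (h : Fh y F D g)
    (hD : ∀ P, IsPrimeDivisor y P → D P ≤ D' P) : Fh y F D' g := fun P hP hF =>
  (h P hP hF).imp_right fun h1 => (neg_le_neg (hD P hP)).trans h1

theorem Fh.mul {D D' : Place ℂ K → ℚ} {g g' : K} (h : Fh y F D g) (h' : Fh y F D' g') :
    Fh y F (D + D') (g * g') := by
  intro P hP hF
  by_cases h0 : g = 0
  · left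
    rw [h0, zero_mul]
  by_cases h0' : g' = 0
  · left
    rw [h0', mul_zero]
  right
  rw [P.ord_mul h0 h0', Pi.add_apply]
  have h1 := (h P hP hF).resolve_left h0
  have h2 := (h' P hP hF).resolve_left h0'
  push_cast
  linarith

theorem fh_prod {ι : Type} (s : Finset ι) {D : ι → Place ℂ K → ℚ} {g : ι → K}
    (h : ∀ i ∈ s, Fh y F (D i) (g i)) : Fh y F (∑ i ∈ s, D i) (∏ i ∈ s, g i) := by
  classical
  induction s using Finset.induction_on with
  | empty =>
    rw [Finset.sum_empty, Finset.prod_empty]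
    exact fn_one.fh
  | insert a s ha ih =>
    rw [Finset.sum_insert ha, Finset.prod_insert ha]
    exact (h a (Finset.mem_insert_self a s)).mul
      (ih fun i hi => h i (Finset.mem_insert_of_mem hi))

/-- **Finite generation of the modules of sections.** -/
theorem cox_mod (hcox : CoxFiniteOver y F) {U A : Place ℂ K → ℚ} (hU : FinSup y U)
    (hA : FinSup y A)
    {N1 : ℕ} (hN1 : 1 ≤ N1) (hint : ∀ P, IsPrimeDivisor y P → ∃ z : ℤ, (N1 : ℚ) * U P = z) :
    ∃ T : Finset (ℕ × K), ∀ (m : ℕ) (f : K), Fh y F (m • U + A) f →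
      f ∈ Submodule.span F {x : K | ∃ t ∈ T, ∃ (q : ℕ) (g : K), t.1 + N1 * q = m ∧
        Fh y F ((N1 * q) • U) g ∧ x = t.2 * g} := by
  classical
  obtain ⟨k, E, hE, hcox⟩ := hcox
  -- the classes
  obtain ⟨D, hD⟩ : ∃ D : ℕ → Place ℂ K → ℤ, ∀ m P, D m P = ⌊(m : ℚ) * U P + A P⌋ :=
    ⟨fun m P => ⌊(m : ℚ) * U P + A P⌋, fun _ _ => rfl⟩
  have hDfin : ∀ m, {P | IsPrimeDivisor y P ∧ D m P ≠ 0}.Finite := by
    intro m
    refine (hU.union hA).subset ?_
    rintro P ⟨hP, hne⟩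
    by_contra hcon
    rw [Set.mem_union] at hcon
    push Not at hcon
    have h1 : U P = 0 := by
      by_contra h3
      exact hcon.1 ⟨hP, h3⟩
    have h2 : A P = 0 := by
      by_contra h3
      exact hcon.2 ⟨hP, h3⟩
    exact hne (by rw [hD, h1, h2]; simp)
  obtain ⟨R, hR⟩ : ∃ R : ((Fin k → ℕ) × ℕ) → K → Prop, ∀ x g, R x g ↔ (g ≠ 0 ∧
      ∀ P, IsPrimeDivisor y P → Horizontal F P → P.ord g + D x.2 P = ∑ i, x.1 i * E i P) :=
    ⟨fun x g => g ≠ 0 ∧ ∀ P, IsPrimeDivisor y P → Horizontal F P →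
      P.ord g + D x.2 P = ∑ i, x.1 i * E i P, fun _ _ => Iff.rfl⟩
  choose T hTfin hTsub hT using fun ρ : Fin N1 =>
    dickson {x : (Fin k → ℕ) × ℕ | (∃ g, R x g) ∧ x.2 % N1 = ρ}
  have hch : ∀ x : (Fin k → ℕ) × ℕ, ∃ g : K, (∃ g, R x g) → R x g := by
    intro x
    by_cases h : ∃ g, R x g
    · exact ⟨h.choose, fun _ => h.choose_spec⟩
    · exact ⟨0, fun h' => absurd h' h⟩
  choose γ hγ using hch
  have hTall : (⋃ ρ, T ρ).Finite := Set.finite_iUnion hTfin
  refine ⟨hTall.toFinset.image fun x => (x.2, γ x), fun m f hf => ?_⟩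
  by_cases hf0 : f = 0
  · rw [hf0]
    exact Submodule.zero_mem _
  have h1 := hcox (D m) (hDfin m) f hf0 (by
    intro P hP hF
    have h2 := (hf P hP hF).resolve_left hf0
    have h3 : (-(P.ord f) : ℤ) ≤ D m P := by
      rw [hD, Int.le_floor]
      push_cast
      simp only [Pi.add_apply, smul_ap] at h2
      linarith
    omega)
  refine Submodule.span_le.2 ?_ h1
  rintro g ⟨hg0, a, hga⟩
  have hRg : R (a, m) g := (hR _ _).2 ⟨hg0, hga⟩
  obtain ⟨t, ht, hle⟩ := hT ⟨m % N1, Nat.mod_lt _ (by omega)⟩ (a, m) ⟨⟨g, hRg⟩, rfl⟩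
  have ht' := hTsub _ ht
  obtain ⟨htR, htm⟩ := ht'
  have hγt := (hR _ _).1 (hγ t htR)
  change t.2 % N1 = m % N1 at htm
  have hle1 : ∀ i, t.1 i ≤ a i := hle.1
  have hle2 : t.2 ≤ m := hle.2
  obtain ⟨q, hq⟩ : ∃ q, t.2 + N1 * q = m := by
    have h2 : (m - t.2) % N1 = 0 := Nat.sub_mod_eq_zero_of_mod_eq htm.symm
    obtain ⟨q, hq⟩ := Nat.dvd_of_mod_eq_zero h2
    exact ⟨q, by omega⟩
  refine Submodule.subset_span ⟨(t.2, γ t), ?_, q, g / γ t, hq, ?_, ?_⟩
  · rw [Finset.mem_image]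
    refine ⟨t, ?_, rfl⟩
    rw [Set.Finite.mem_toFinset]
    exact Set.mem_iUnion.2 ⟨_, ht⟩
  · intro P hP hF
    right
    rw [P.ord_div hg0 hγt.1]
    obtain ⟨z, hz⟩ := hint P hP
    have h3 := hga P hP hF
    have h4 := hγt.2 P hP hF
    have h5 : D m P = D t.2 P + q * z := by
      rw [hD, hD, ← hq]
      have h6 : ((t.2 + N1 * q : ℕ) : ℚ) * U P + A P = (t.2 : ℚ) * U P + A P + ((q * z : ℤ) : ℚ) := by
        push_cast
        rw [← hz]
        ring
      rw [h6, Int.floor_add_intCast]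
    have h6 : ∑ i, (t.1 i : ℤ) * E i P ≤ ∑ i, (a i : ℤ) * E i P := by
      refine Finset.sum_le_sum fun i _ => mul_le_mul_of_nonneg_right ?_ ((hE i).2 P hP hF)
      exact_mod_cast hle1 i
    have h7 : -(q * z) ≤ P.ord g - P.ord (γ t) := by
      rw [h5] at h3
      linarith
    have h8 : ((N1 * q) • U) P = ((q * z : ℤ) : ℚ) := by
      simp only [smul_ap]
      push_cast
      rw [← hz]
      ring
    rw [h8]
    exact_mod_cast h7
  · change g = γ t * (g / γ t)
    rw [mul_div_cancel₀ _ hγt.1]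

/-- The quotients of functions `f` with `div f + m U ≥ 0`. -/
def rat (y : Fin (N + 1) → K) (U : Place ℂ K → ℚ) : Set K :=
  {x | ∃ (m : ℕ) (f g : K), 1 ≤ m ∧ Fn y (m • U) f ∧ Fn y (m • U) g ∧ g ≠ 0 ∧ x = f / g}

/-- these quotients form a field -/
theorem rat_field {U : Place ℂ K → ℚ} {a : ℕ} (ha : 1 ≤ a) {σ : K}
    (hσ : Fn y (a • U) σ) (hσ0 : σ ≠ 0) {x : K}
    (hx : x ∈ IntermediateField.adjoin ℂ (rat y U)) : x ∈ rat y U := by
  have hconst : ∀ c : ℂ, algebraMap ℂ K c ∈ rat y U := by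
    intro c
    refine ⟨a, c • σ, σ, ha, hσ.smul c, hσ, hσ0, ?_⟩
    rw [Algebra.smul_def, mul_div_assoc, div_self hσ0, mul_one]
  have hmul : ∀ x ∈ rat y U, ∀ x' ∈ rat y U, x * x' ∈ rat y U := by
    rintro _ ⟨m, f, g, hm, hf, hg, hg0, rfl⟩ _ ⟨m', f', g', -, hf', hg', hg0', rfl⟩
    refine ⟨m + m', f * f', g * g', by omega, ?_, ?_, mul_ne_zero hg0 hg0', ?_⟩
    · rw [add_smul]
      exact hf.mul hf'
    · rw [add_smul]
      exact hg.mul hg'
    · field_simp
  have hadd : ∀ x ∈ rat y U, ∀ x' ∈ rat y U, x + x' ∈ rat y U := by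
    rintro _ ⟨m, f, g, hm, hf, hg, hg0, rfl⟩ _ ⟨m', f', g', -, hf', hg', hg0', rfl⟩
    refine ⟨m + m', f * g' + g * f', g * g', by omega, ?_, ?_, mul_ne_zero hg0 hg0', ?_⟩
    · rw [add_smul]
      exact (hf.mul hg').add (hg.mul hf')
    · rw [add_smul]
      exact hg.mul hg'
    · field_simp
  have hinv : ∀ x ∈ rat y U, x⁻¹ ∈ rat y U := by
    rintro _ ⟨m, f, g, hm, hf, hg, hg0, rfl⟩
    by_cases hf0 : f = 0
    · rw [hf0, zero_div, inv_zero]
      have := hconst 0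
      rwa [map_zero] at this
    · exact ⟨m, g, f, hm, hg, hf, hf0, inv_div f g⟩
  induction hx using IntermediateField.adjoin_induction with
  | mem x hx => exact hx
  | algebraMap c => exact hconst c
  | add x x' _ _ h h' => exact hadd x h x' h'
  | inv x _ h => exact hinv x h
  | mul x x' _ _ h h' => exact hmul x h x' h'

/-- **Sections which vanish along a prime divisor which is not horizontal.** -/
theorem exists_van {U : Place ℂ K → ℚ} {a : ℕ} (ha : 1 ≤ a) {σ : K} (hσ : Fn y (a • U) σ)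
    (hσ0 : σ ≠ 0)
    (hF : ∀ x ∈ F, IsAlgebraic (IntermediateField.adjoin ℂ (rat y U)) x) {P : Place ℂ K}
    (hP : IsPrimeDivisor y P) (hPF : ¬ Horizontal F P) :
    ∃ (m : ℕ) (τ : K), τ ≠ 0 ∧ Fn y (m • U) τ ∧ 0 < (P.ord τ : ℚ) + m * U P := by
  by_contra hcon
  push Not at hcon
  apply hPF
  -- the valuation is trivial on the quotients
  have h1 : ∀ x ∈ rat y U, x ≠ 0 → P.ord x = 0 := by
    rintro _ ⟨m, f, g, hm, hf, hg, hg0, rfl⟩ hx
    have hf0 : f ≠ 0 := fun h => hx (by rw [h, zero_div])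
    have h2 := hcon m f hf0 hf
    have h3 := hcon m g hg0 hg
    have h4 := (hf P hP).resolve_left hf0
    have h5 := (hg P hP).resolve_left hg0
    rw [smul_ap] at h4 h5
    rw [P.ord_div hf0 hg0]
    have h6 : (P.ord f : ℚ) = P.ord g := by linarith
    have h7 : P.ord f = P.ord g := by exact_mod_cast h6
    rw [h7, sub_self]
  have h2 : ∀ x ∈ F, P.Reg x := by
    intro x hx
    have h3 : IsIntegral (IntermediateField.adjoin ℂ (rat y U)) x := (hF x hx).isIntegral
    refine P.reg_of_isIntegral (A := IntermediateField.adjoin ℂ (rat y U)) (fun c => ?_) h3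
    have h4 := rat_field ha hσ hσ0 c.2
    by_cases h5 : (c : K) = 0
    · exact Or.inl h5
    · exact Or.inr (h1 _ h4 h5).ge
  intro f hf hf0
  have h3 := (P.reg_iff hf0).1 (h2 f hf)
  have h4 := (P.reg_iff (inv_ne_zero hf0)).1 (h2 _ (F.inv_mem hf))
  rw [P.ord_inv] at h4
  omega

/-- sections which vanish to high order along finitely many prime divisors which are not
horizontal -/
theorem exists_van_all {U : Place ℂ K → ℚ} {a : ℕ} (ha : 1 ≤ a) {σ : K} (hσ : Fn y (a • U) σ)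
    (hσ0 : σ ≠ 0)
    (hF : ∀ x ∈ F, IsAlgebraic (IntermediateField.adjoin ℂ (rat y U)) x) (c : ℚ)
    (T : Finset (Place ℂ K)) (hT : ∀ P ∈ T, IsPrimeDivisor y P ∧ ¬ Horizontal F P) :
    ∃ (m : ℕ) (τ : K), τ ≠ 0 ∧ Fn y (m • U) τ ∧ ∀ P ∈ T, c ≤ (P.ord τ : ℚ) + m * U P := by
  classical
  induction T using Finset.induction_on with
  | empty =>
    refine ⟨0, 1, one_ne_zero, ?_, by simp⟩
    rw [zero_smul]
    exact fn_one
  | insert Q T hQ ih =>
    obtain ⟨m, τ, hτ0, hτ, hτT⟩ := ih fun P hP => hT P (Finset.mem_insert_of_mem hP)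
    obtain ⟨hQp, hQF⟩ := hT Q (Finset.mem_insert_self Q T)
    obtain ⟨m', τ', hτ0', hτ', hpos⟩ := exists_van ha hσ hσ0 hF hQp hQF
    obtain ⟨k, hk⟩ := exists_nat_ge (c / ((Q.ord τ' : ℚ) + m' * U Q))
    rw [div_le_iff₀ hpos] at hk
    have hnn : ∀ P, IsPrimeDivisor y P → 0 ≤ (P.ord τ : ℚ) + m * U P := by
      intro P hP
      have := (hτ P hP).resolve_left hτ0
      rw [smul_ap] at this
      linarith
    have hnn' : ∀ P, IsPrimeDivisor y P → 0 ≤ (P.ord τ' : ℚ) + m' * U P := by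
      intro P hP
      have := (hτ' P hP).resolve_left hτ0'
      rw [smul_ap] at this
      linarith
    refine ⟨m + k * m', τ * τ' ^ k, mul_ne_zero hτ0 (pow_ne_zero _ hτ0'), ?_, ?_⟩
    · rw [add_smul, mul_smul]
      exact hτ.mul (hτ'.pow k)
    · intro P hP
      have h1 : ((P.ord (τ * τ' ^ k) : ℤ) : ℚ) + ((m + k * m' : ℕ) : ℚ) * U P =
          ((P.ord τ : ℚ) + m * U P) + k * ((P.ord τ' : ℚ) + m' * U P) := by
        rw [P.ord_mul hτ0 (pow_ne_zero _ hτ0'), P.ord_pow]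
        push_cast
        ring
      rw [h1]
      have hPp := (hT P hP).1
      have hk0 : (0 : ℚ) ≤ k := Nat.cast_nonneg k
      rcases Finset.mem_insert.1 hP with rfl | hP'
      · have := hnn P hPp
        linarith
      · have h2 := hτT P hP'
        have h3 := mul_nonneg hk0 (hnn' P hPp)
        linarith

/-- **Growth of the sections** on a variety whose generic fibre over a base has a finitely generated
Cox ring. -/
theorem cox_growth (hy : NormalModel y) (hn : Algebra.trdeg ℂ K = n) (hcox : CoxFiniteOver y F)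
    {U0 U : Place ℂ K → ℚ} (hU : FinSup y U) (hle : ∀ P, IsPrimeDivisor y P → U0 P ≤ U P)
    {a : ℕ} (ha : 1 ≤ a) {σ : K} (hσ : Fn y (a • U0) σ) (hσ0 : σ ≠ 0)
    (hF : ∀ x ∈ F, IsAlgebraic (IntermediateField.adjoin ℂ (rat y U0)) x) :
    ∃ (κ m0 : ℕ) (g : Fin (κ + 1) → K), 1 ≤ m0 ∧ (∀ j, Fn y (m0 • U) (g j)) ∧ g 0 ≠ 0 ∧
      AlgebraicIndependent ℂ (fun i : Fin κ => g i.succ / g 0) ∧
      ∀ A, FinSup y A → ∃ C : ℕ, ∀ m : ℕ, 1 ≤ m → ∀ (r : ℕ) (f : Fin r → K),
        LinearIndependent ℂ f → (∀ i, Fn y (m • U + A) (f i)) → r ≤ C * m ^ κ := by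
  classical
  have hle' : ∀ m : ℕ, ∀ P, IsPrimeDivisor y P → (m • U0) P ≤ (m • U) P := by
    intro m P hP
    rw [smul_ap, smul_ap]
    exact mul_le_mul_of_nonneg_left (hle P hP) (Nat.cast_nonneg m)
  have hσU : Fn y (a • U) σ := hσ.mono (hle' a)
  obtain ⟨S, hS⟩ : ∃ S : Set K, ∀ x, x ∈ S ↔ ∃ (m : ℕ) (f g : K), 1 ≤ m ∧ Fh y F (m • U) f ∧
      Fh y F (m • U) g ∧ g ≠ 0 ∧ x = f / g := ⟨{x | _}, fun _ => Iff.rfl⟩
  obtain ⟨κ, z, hzS, hz, hmax⟩ := exists_max hn S
  choose m f g hm hf hg hg0 hzf using fun i => (hS _).1 (hzS i)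
  obtain ⟨l, u, hl, hu⟩ := ext_indep hn hz
  -- the sections
  obtain ⟨h, hh⟩ : ∃ h, h = ∏ i, g i := ⟨_, rfl⟩
  have hh0 : h ≠ 0 := by
    rw [hh]
    exact Finset.prod_ne_zero_iff.2 fun i _ => hg0 i
  have hprod : ∀ s : Finset (Fin κ), Fh y F ((∑ i ∈ s, m i) • U) (∏ i ∈ s, g i) := by
    intro s
    have h1 := fh_prod s (D := fun i => m i • U) (g := g) fun i _ => hg i
    rwa [← Finset.sum_smul] at h1
  obtain ⟨hj, hhj⟩ : ∃ hj : Fin (κ + 1) → K, hj = Fin.cons h fun i => z i * h := ⟨_, rfl⟩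
  have hj0 : ∀ j, hj j ≠ 0 := by
    intro j
    rw [hhj]
    refine Fin.cases ?_ (fun i => ?_) j
    · rw [Fin.cons_zero]
      exact hh0
    · rw [Fin.cons_succ]
      exact mul_ne_zero (hz.ne_zero i) hh0
  have hjF : ∀ j, Fh y F ((∑ i, m i) • U) (hj j) := by
    intro j
    rw [hhj]
    refine Fin.cases ?_ (fun i => ?_) j
    · rw [Fin.cons_zero, hh]
      exact hprod _
    · rw [Fin.cons_succ]
      have h1 : z i * h = f i * ∏ j ∈ Finset.univ.erase i, g j := by
        rw [hh, hzf i, ← Finset.mul_prod_erase Finset.univ g (Finset.mem_univ i)]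
        field_simp [hg0 i]
      have h2 : ∑ i, m i = m i + ∑ j ∈ Finset.univ.erase i, m j := by
        rw [Finset.add_sum_erase _ _ (Finset.mem_univ i)]
      rw [h1, h2, add_smul]
      exact (hf i).mul (hprod _)
  -- the vertical poles
  have hTfin : (⋃ j, {P | IsPrimeDivisor y P ∧ P.ord (hj j) ≠ 0}).Finite :=
    Set.finite_iUnion fun j => finite_ord hy (hj0 j)
  have hTfin' : {P | IsPrimeDivisor y P ∧ ¬ Horizontal F P ∧ (U P ≠ 0 ∨ ∃ j,
      P.ord (hj j) ≠ 0)}.Finite := by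
    refine (hU.union hTfin).subset ?_
    rintro P ⟨hP, -, h1 | ⟨j, h1⟩⟩
    · exact Or.inl ⟨hP, h1⟩
    · exact Or.inr (Set.mem_iUnion.2 ⟨j, hP, h1⟩)
  obtain ⟨c, hc⟩ : ∃ c : ℚ, ∀ P ∈ hTfin'.toFinset, ∀ j,
      -((∑ i, m i : ℕ) * U P) - P.ord (hj j) ≤ c := by
    refine ⟨∑ P ∈ hTfin'.toFinset, ∑ j, |-((∑ i, m i : ℕ) * U P) - P.ord (hj j)|,
      fun P hP j => ?_⟩
    refine (le_abs_self _).trans ?_
    refine (Finset.single_le_sum (f := fun j => |-((∑ i, m i : ℕ) * U P) - (P.ord (hj j) : ℚ)|)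
      (fun _ _ => abs_nonneg _) (Finset.mem_univ j)).trans ?_
    exact Finset.single_le_sum
      (f := fun P : Place ℂ K => ∑ j, |-((∑ i, m i : ℕ) * U P) - (P.ord (hj j) : ℚ)|)
      (fun _ _ => Finset.sum_nonneg fun _ _ => abs_nonneg _) hP
  obtain ⟨mt, τ, hτ0, hτ, hτT⟩ := exists_van_all ha hσ hσ0 hF c hTfin'.toFinset (by
    intro P hP
    rw [Set.Finite.mem_toFinset] at hP
    exact ⟨hP.1, hP.2.1⟩)
  have hfin : ∀ j, Fn y ((a + mt + ∑ i, m i) • U) (σ * τ * hj j) := by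
    intro j P hP
    right
    have h1 := (hσU P hP).resolve_left hσ0
    have h2 := (hτ P hP).resolve_left hτ0
    have h3 := mul_le_mul_of_nonneg_left (hle P hP) (Nat.cast_nonneg (α := ℚ) mt)
    rw [P.ord_mul (mul_ne_zero hσ0 hτ0) (hj0 j), P.ord_mul hσ0 hτ0]
    rw [smul_ap] at h1 h2 ⊢
    push_cast
    by_cases hPF : Horizontal F P
    · have h4 := (hjF j P hP hPF).resolve_left (hj0 j)
      rw [smul_ap] at h4
      push_cast at h4
      linarith
    · by_cases hPT : P ∈ hTfin'.toFinset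
      · have h4 := hc P hPT j
        have h5 := hτT P hPT
        push_cast at h4
        linarith
      · rw [Set.Finite.mem_toFinset] at hPT
        have h4 : U P = 0 := by
          by_contra h5
          exact hPT ⟨hP, hPF, Or.inl h5⟩
        have h5 : P.ord (hj j) = 0 := by
          by_contra h5
          exact hPT ⟨hP, hPF, Or.inr ⟨j, h5⟩⟩
        rw [h4] at h1 h3 ⊢
        rw [h5]
        push_cast
        linarith
  refine ⟨κ, a + mt + ∑ i, m i, fun j => σ * τ * hj j, by omega, hfin, ?_, ?_, ?_⟩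
  · exact mul_ne_zero (mul_ne_zero hσ0 hτ0) (hj0 0)
  · have h1 : (fun i : Fin κ => σ * τ * hj i.succ / (σ * τ * hj 0)) = z := by
      funext i
      rw [mul_div_mul_left _ _ (mul_ne_zero hσ0 hτ0), hhj, Fin.cons_zero, Fin.cons_succ,
        mul_div_assoc, div_self hh0, mul_one]
    rw [h1]
    exact hz
  -- the growth
  intro A hA
  obtain ⟨d0, hd0, hden⟩ := exists_den_fin hU
  obtain ⟨N1, hN1def⟩ : ∃ N1, N1 = a * d0 := ⟨_, rfl⟩
  have hN1 : 1 ≤ N1 := by
    rw [hN1def]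
    exact Nat.succ_le_of_lt (Nat.mul_pos (by omega) (by omega))
  obtain ⟨T, hT⟩ := cox_mod hcox hU hA hN1 (by
    intro P hP
    obtain ⟨z, hz⟩ := hden P hP
    refine ⟨a * z, ?_⟩
    rw [hN1def]
    push_cast
    rw [← hz]
    ring)
  obtain ⟨h₀, hh₀⟩ : ∃ h₀, h₀ = σ ^ d0 := ⟨_, rfl⟩
  have hh₀0 : h₀ ≠ 0 := by
    rw [hh₀]
    exact pow_ne_zero _ hσ0
  have hh₀U : Fn y (N1 • U) h₀ := by
    rw [hh₀, hN1def, mul_comm a d0, mul_smul]
    exact hσU.pow d0
  -- the finite-dimensional space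
  let w : Fin T.card → K := fun i => (T.equivFin.symm i).1.2 *
    (h₀ ^ ((T.equivFin.symm i).1.1 / N1))⁻¹
  have hFM : F ≤ acl ℂ (Set.range z) := by
    intro x hx
    refine hmax x ((hS x).2 ⟨a, x * σ, σ, ha, ?_, hσU.fh, hσ0, ?_⟩)
    · intro P hP hPF
      by_cases hx0 : x = 0
      · left
        rw [hx0, zero_mul]
      · right
        rw [P.ord_mul hx0 hσ0, hPF x hx hx0, zero_add]
        exact (hσU P hP).resolve_left hσ0
    · rw [mul_div_assoc, div_self hσ0, mul_one]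
  have hWmem : ∀ (m : ℕ) (f : K), Fn y (m • U + A) f →
      f / h₀ ^ (m / N1) ∈ Submodule.span (acl ℂ (Set.range z)) (Set.range w) := by
    intro m f hf
    have h1 := hT m f hf.fh
    have key : ∀ x ∈ Submodule.span F {x : K | ∃ t ∈ T, ∃ (q : ℕ) (g : K), t.1 + N1 * q = m ∧
        Fh y F ((N1 * q) • U) g ∧ x = t.2 * g},
        x / h₀ ^ (m / N1) ∈ Submodule.span (acl ℂ (Set.range z)) (Set.range w) := by
      intro x hx
      induction hx using Submodule.span_induction with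
      | mem x hx =>
        obtain ⟨t, ht, q, g', hq, hg', rfl⟩ := hx
        have h2 : g' / h₀ ^ q ∈ acl ℂ (Set.range z) := by
          refine hmax _ ((hS _).2 ⟨N1 * (q + 1), g' * h₀, h₀ ^ (q + 1), ?_, ?_, ?_,
            pow_ne_zero _ hh₀0, ?_⟩)
          · exact Nat.succ_le_of_lt (Nat.mul_pos (by omega) (by omega))
          · rw [mul_add, mul_one, add_smul]
            exact hg'.mul hh₀U.fh
          · rw [mul_comm, mul_smul]
            exact (hh₀U.pow (q + 1)).fh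
          · rw [pow_succ]
            field_simp
        have h3 : m / N1 = t.1 / N1 + q := by
          rw [← hq, Nat.add_mul_div_left _ _ (by omega)]
        have h4 : t.2 * g' / h₀ ^ (m / N1) =
            (⟨g' / h₀ ^ q, h2⟩ : acl ℂ (Set.range z)) • w (T.equivFin ⟨t, ht⟩) := by
          change t.2 * g' / h₀ ^ (m / N1) = (g' / h₀ ^ q) *
            ((T.equivFin.symm (T.equivFin ⟨t, ht⟩)).1.2 *
              (h₀ ^ ((T.equivFin.symm (T.equivFin ⟨t, ht⟩)).1.1 / N1))⁻¹)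
          rw [Equiv.symm_apply_apply, h3, pow_add]
          field_simp
        rw [h4]
        exact Submodule.smul_mem _ _ (Submodule.subset_span ⟨_, rfl⟩)
      | zero =>
        rw [zero_div]
        exact Submodule.zero_mem _
      | add x x' _ _ h h' =>
        rw [add_div]
        exact Submodule.add_mem _ h h'
      | smul c x _ h =>
        have h2 : (c • x) / h₀ ^ (m / N1) =
            (⟨c, hFM c.2⟩ : acl ℂ (Set.range z)) • (x / h₀ ^ (m / N1)) := by
          change ((c : K) * x) / h₀ ^ (m / N1) = (c : K) * (x / h₀ ^ (m / N1))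
          rw [mul_div_assoc]
        rw [h2]
        exact Submodule.smul_mem _ _ h
    exact key f h1
  obtain ⟨D, hD⟩ : ∃ D : Place ℂ K → ℕ, D = fun P => bnd U P + bnd A P := ⟨_, rfl⟩
  have hDsup : {P | IsPrimeDivisor y P ∧ D P ≠ 0}.Finite := by
    refine ((bnd_sup hU).union (bnd_sup hA)).subset ?_
    rintro P ⟨hP, hne⟩
    by_contra hcon
    rw [Set.mem_union] at hcon
    push Not at hcon
    have h1 : bnd U P = 0 := by
      by_contra h3
      exact hcon.1 ⟨hP, h3⟩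
    have h2 : bnd A P = 0 := by
      by_contra h3
      exact hcon.2 ⟨hP, h3⟩
    exact hne (by rw [hD]; simp [h1, h2])
  choose s hs hs0 hsf using fun j => fn_chart hy hDsup j
  have hess := hy.ess
  obtain ⟨Z, -, hZ, -⟩ := exists_crd hn
  have hFf : ∀ m, 1 ≤ m → ∀ f, Fn y (m • U + A) f → ∀ P, IsPrimeDivisor y P →
      f = 0 ∨ -((m * D P : ℕ) : ℤ) ≤ P.ord f := by
    intro m hm f hf P hP
    refine (hf P hP).imp_right fun h1 => ?_
    have h2 := le_bnd U P
    have h3 := le_bnd A P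
    have hm1 : (1 : ℚ) ≤ m := by exact_mod_cast hm
    have hA0 : (0 : ℚ) ≤ bnd A P := Nat.cast_nonneg _
    rw [Pi.add_apply, smul_ap] at h1
    have h4 : -((m * D P : ℕ) : ℚ) ≤ (P.ord f : ℚ) := by
      refine le_trans ?_ h1
      rw [hD]
      push_cast
      have h5 := mul_le_mul_of_nonneg_left h2 (Nat.cast_nonneg (α := ℚ) m)
      nlinarith
    exact_mod_cast h4
  obtain ⟨C, hC⟩ := growth_fin hZ (fd_basis hZ)
    ((Finset.univ.image fun j => (s j)⁻¹) ∪ {h₀, h₀⁻¹})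
    (fun m => {x | ∃ f, Fn y (m • U + A) f ∧ x = f / h₀ ^ (m / N1)})
    (by
      intro P
      obtain ⟨j, hj⟩ := exists_centred hy P
      have h0 := (P.reg_iff (hs0 j)).1 (hj.reg _ (hs j))
      refine ⟨(P.ord (s j)).toNat + (P.ord h₀).toNat, ?_⟩
      rintro m hm' _ ⟨f, hf, rfl⟩
      have h1 := localRing_reg (hsf j m f (hFf m hm' f hf) P hj)
      by_cases hf0 : f = 0
      · left
        rw [hf0, zero_div]
      right
      rw [P.reg_iff (mul_ne_zero hf0 (pow_ne_zero _ (hs0 j))),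
        P.ord_mul hf0 (pow_ne_zero _ (hs0 j)), P.ord_pow] at h1
      rw [P.ord_div hf0 (pow_ne_zero _ hh₀0), P.ord_pow]
      push_cast
      rw [Int.toNat_of_nonneg h0]
      have h2 : P.ord h₀ ≤ ((P.ord h₀).toNat : ℤ) := Int.self_le_toNat _
      have h5 : ((m / N1 : ℕ) : ℤ) ≤ m := by
        exact_mod_cast Nat.div_le_self m N1
      have h3 := mul_le_mul_of_nonneg_left h2 (Int.natCast_nonneg (m / N1))
      have h6 := mul_le_mul_of_nonneg_right h5 (Int.natCast_nonneg (P.ord h₀).toNat)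
      have h7 : ((m / N1 : ℕ) : ℤ) * P.ord h₀ ≤ m * ((P.ord h₀).toNat : ℤ) := h3.trans h6
      push_cast at h7
      have h8 : (((P.ord h₀).toNat : ℕ) : ℤ) = max (P.ord h₀) 0 := Int.toNat_eq_max _
      rw [h8] at h7
      nlinarith)
    (by
      rintro P hP m hm' _ ⟨f, hf, rfl⟩
      obtain ⟨j, hj⟩ := exists_centred hy P
      have h0 := (P.reg_iff (hs0 j)).1 (hj.reg _ (hs j))
      have h2 := (P.reg_iff (inv_ne_zero (hs0 j))).1
        (hP _ (Finset.mem_union_left _ (Finset.mem_image_of_mem _ (Finset.mem_univ j))))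
      rw [P.ord_inv] at h2
      have h3 : P.ord (s j) = 0 := by omega
      have h5 := (P.reg_iff hh₀0).1 (hP _ (Finset.mem_union_right _ (by simp)))
      have h6 := (P.reg_iff (inv_ne_zero hh₀0)).1 (hP _ (Finset.mem_union_right _ (by simp)))
      rw [P.ord_inv] at h6
      have h7 : P.ord h₀ = 0 := by omega
      have h1 := localRing_reg (hsf j m f (hFf m hm' f hf) P hj)
      by_cases hf0 : f = 0
      · left
        rw [hf0, zero_div]
      right
      rw [P.reg_iff (mul_ne_zero hf0 (pow_ne_zero _ (hs0 j))),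
        P.ord_mul hf0 (pow_ne_zero _ (hs0 j)), P.ord_pow, h3] at h1
      rw [P.ord_div hf0 (pow_ne_zero _ hh₀0), P.ord_pow, h7]
      linarith)
    hu hl w
    (by
      rintro m _ _ ⟨f, hf, rfl⟩
      exact hWmem m f hf)
  refine ⟨C, fun m hm' r f hf hfm => ?_⟩
  have h1 : LinearIndependent ℂ fun i => f i / h₀ ^ (m / N1) := by
    have h2 := hf.map' (LinearMap.mulRight ℂ (h₀ ^ (m / N1))⁻¹) (LinearMap.ker_eq_bot.2
      (mul_left_injective₀ (inv_ne_zero (pow_ne_zero _ hh₀0))))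
    have h3 : (fun i => f i / h₀ ^ (m / N1)) =
        (⇑(LinearMap.mulRight ℂ (h₀ ^ (m / N1))⁻¹) ∘ f) := by
      funext i
      rw [div_eq_mul_inv]
      rfl
    rw [h3]
    exact h2
  exact hC m hm' r _ h1 fun i => ⟨f i, hfm i, rfl⟩

end

end Pool.Agent.NH31
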