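import Pool.Agent.NH31.M1
import Pool.Agent.R887.Noe
import Pool.Agent.Y172.Cov5
import Pool.Agent.Y172.Adic

/-!
Two models of a field and of a finite extension have almost the same prime divisors.
-/

set_option autoImplicit false
set_option linter.overlappingInstances false
set_option linter.unusedSectionVars false

open FF MvPolynomial Pool.Agent.W602.GT Pool.Agent.W603.LV Pool.Agent.W619.PQ
open Pool.Agent.Y172 Pool.Agent.Y191 Pool.Agent.TH122.AB

namespace Pool.Agent.NH31

section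

variable {L : Type} [Field L] [Algebra ℂ L] {n : ℕ}

theorem reg_poly {P : Place ℂ L} {ι : Type} {u : ι → L} (hu : ∀ i, P.Reg (u i))
    (F : MvPolynomial ι ℂ) : P.Reg (aeval u F) := by
  induction F using MvPolynomial.induction_on with
  | C a =>
    rw [aeval_C]
    exact P.reg_const a
  | add p q hp hq =>
    rw [map_add]
    exact P.reg_add hp hq
  | mul_X p i hp =>
    rw [map_mul, aeval_X]
    exact P.reg_mul hp (hu i)

/-- **Identification of a place**: if the coordinates and the coordinate vector fields are regular,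
then the place is over a divisor of the affine space. -/
theorem exists_adic {Q : Place ℂ L} {U : Fin n → L} (hU : IsTranscendenceBasis ℂ U)
    {D : Fin n → Derivation ℂ L L} (hD : ∀ i j, D i (U j) = if i = j then 1 else 0)
    (hDr : ∀ i, DerReg Q (D i)) (hUr : ∀ i, Q.Reg (U i)) :
    ∃ g : MvPolynomial (Fin n) ℂ, Irreducible g ∧ AdicS Q U g := by
  classical
  have hU0 : ∀ P : MvPolynomial (Fin n) ℂ, P ≠ 0 → aeval U P ≠ 0 := fun P hP h0 =>
    hP ((injective_iff_map_eq_zero _).1 hU.1 P h0)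
  have hreg : ∀ P : MvPolynomial (Fin n) ℂ, Q.Reg (aeval U P) := reg_poly hUr
  have hge : ∀ P : MvPolynomial (Fin n) ℂ, P ≠ 0 → 0 ≤ Q.ord (aeval U P) := fun P hP =>
    (Q.reg_iff (hU0 P hP)).1 (hreg P)
  -- there is a polynomial which vanishes
  obtain ⟨F, hF0, hF⟩ : ∃ F : MvPolynomial (Fin n) ℂ, F ≠ 0 ∧ 0 < Q.ord (aeval U F) := by
    obtain ⟨t, ht0, ht⟩ := Q.surj
    obtain ⟨F, hF0, hF⟩ := exists_multS hU t⁻¹
    have h1 := reg_of_intS hreg hF
    rw [Q.reg_iff (mul_ne_zero (hU0 F hF0) (inv_ne_zero ht0)),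
      Q.ord_mul (hU0 F hF0) (inv_ne_zero ht0), Q.ord_inv, ht] at h1
    exact ⟨F, hF0, by omega⟩
  -- one of minimal degree
  obtain ⟨g, ⟨hg0, hgo⟩, hmin⟩ : ∃ g : MvPolynomial (Fin n) ℂ, (g ≠ 0 ∧ 0 < Q.ord (aeval U g)) ∧
      ∀ g' : MvPolynomial (Fin n) ℂ, g' ≠ 0 → 0 < Q.ord (aeval U g') →
        g.totalDegree ≤ g'.totalDegree := by
    have hex : ∃ d, ∃ g : MvPolynomial (Fin n) ℂ, g ≠ 0 ∧ 0 < Q.ord (aeval U g) ∧
      g.totalDegree = d := ⟨_, F, hF0, hF, rfl⟩
    obtain ⟨g, h1, h2, h3⟩ := Nat.find_spec hex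
    refine ⟨g, ⟨h1, h2⟩, fun g' h4 h5 => ?_⟩
    rw [h3]
    exact Nat.find_min' hex ⟨g', h4, h5, rfl⟩
  have hconst : ∀ P : MvPolynomial (Fin n) ℂ, P ≠ 0 → P.totalDegree = 0 → IsUnit P ∧
      Q.ord (aeval U P) = 0 := by
    intro P hP hd
    rw [totalDegree_eq_zero_iff_eq_C] at hd
    have hc : coeff 0 P ≠ 0 := by
      intro h
      rw [h, C_0] at hd
      exact hP hd
    rw [hd]
    refine ⟨(isUnit_iff_ne_zero.2 hc).map C, ?_⟩
    rw [aeval_C]
    exact Q.ord_const hc
  have hirr : Irreducible g := by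
    refine ⟨fun hu => ?_, fun a b hab => ?_⟩
    · obtain ⟨c, hc, hcg⟩ := MvPolynomial.isUnit_iff_eq_C_of_isReduced.1 hu
      have h1 : Q.ord (aeval U g) = 0 := by
        rw [hcg, aeval_C]
        exact Q.ord_const hc.ne_zero
      omega
    · have ha : a ≠ 0 := by
        rintro rfl
        rw [zero_mul] at hab
        exact hg0 hab
      have hb : b ≠ 0 := by
        rintro rfl
        rw [mul_zero] at hab
        exact hg0 hab
      have h1 : g.totalDegree = a.totalDegree + b.totalDegree := by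
        rw [hab]
        exact totalDegree_mul_of_isDomain ha hb
      have h2 : Q.ord (aeval U g) = Q.ord (aeval U a) + Q.ord (aeval U b) := by
        rw [hab, map_mul, Q.ord_mul (hU0 a ha) (hU0 b hb)]
      have h3 := hge a ha
      have h4 := hge b hb
      rcases lt_or_eq_of_le h3 with h5 | h5
      · right
        have h6 := hmin a ha h5
        exact (hconst b hb (by omega)).1
      · left
        have h6 := hmin b hb (by omega)
        exact (hconst a ha (by omega)).1
  refine ⟨g, hirr, fun P hP => ⟨hge P hP, fun h0 hdvd => ?_, fun hdvd => ?_⟩⟩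
  · obtain ⟨h, rfl⟩ := hdvd
    have hh : h ≠ 0 := right_ne_zero_of_mul hP
    rw [map_mul, Q.ord_mul (hU0 g hg0) (hU0 h hh)] at h0
    have := hge h hh
    omega
  · by_contra hcon
    have hPo : 0 < Q.ord (aeval U P) := lt_of_le_of_ne (hge P hP) (Ne.symm hcon)
    obtain ⟨b, hb0, hb⟩ := exists_pderivS hirr
    have hgb : ∀ c : MvPolynomial {i // i ≠ b} ℂ, g ≠ rename Subtype.val c := by
      intro c hc
      apply hb0
      rw [hc]
      refine pderiv_eq_zero_of_notMem_vars fun hmem => ?_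
      have h1 := vars_rename (Subtype.val : {i // i ≠ b} → Fin n) c hmem
      rw [Finset.mem_image] at h1
      obtain ⟨a, -, ha⟩ := h1
      exact a.2 ha
    obtain ⟨α, β, r, hr0, hr⟩ := elim hirr b hgb hdvd
    have hr' : rename Subtype.val r ≠ (0 : MvPolynomial (Fin n) ℂ) := by
      intro h
      exact hr0 (rename_injective _ Subtype.val_injective (by rw [h, map_zero]))
    have hro : Ge Q 1 (aeval U (rename Subtype.val r)) := by
      rw [← hr, map_add, map_mul, map_mul]
      have h1 : Ge Q 1 (aeval U g) := Or.inr (by omega)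
      have h2 : Ge Q 1 (aeval U P) := Or.inr (by omega)
      have h3 : Ge Q 0 (aeval U α) := hreg α
      have h4 : Ge Q 0 (aeval U β) := hreg β
      have h5 := h3.mul h1
      have h6 := h4.mul h2
      rw [zero_add] at h5 h6
      exact h5.add h6
    have hro' := hro.resolve_left (hU0 _ hr')
    have hkill : D b (aeval U (rename Subtype.val r)) = 0 := by
      rw [der_aevalS (hD b)]
      have h1 : pderiv b (rename Subtype.val r : MvPolynomial (Fin n) ℂ) = 0 := by
        refine pderiv_eq_zero_of_notMem_vars fun hmem => ?_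
        have h1 := vars_rename (Subtype.val : {i // i ≠ b} → Fin n) r hmem
        rw [Finset.mem_image] at h1
        obtain ⟨a, -, ha⟩ := h1
        exact a.2 ha
      rw [h1, map_zero]
    have hlog := log_of_kill (hDr b) (hU0 _ hr') hkill (by omega)
    have h1 : Ge Q 1 (D b (aeval U g)) := DerLog.ge hlog (Or.inr (by omega))
    rw [der_aevalS (hD b)] at h1
    have h2 := h1.resolve_left (hU0 _ hb0)
    have h3 := hmin _ hb0 (by omega)
    have h4 := deg_pderivS hb0
    omega

end

section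

variable {K L : Type} [Field K] [Field L] [Algebra ℂ K] [Algebra ℂ L]
  [Algebra K L] [IsScalarTower ℂ K L] [FiniteDimensional K L] {N N0 n : ℕ}
  {y : Fin (N + 1) → K} {y0 : Fin (N0 + 1) → L}

theorem aeval_up {σ : Type} (U : σ → K) (Q : MvPolynomial σ ℂ) :
    aeval (fun i => algebraMap K L (U i)) Q = algebraMap K L (aeval U Q) :=
  MvPolynomial.aeval_algebraMap_apply L U Q

theorem adic_down {w : Place ℂ L} {v : Place ℂ K} {e : ℕ} (h : Over w v e) {U : Fin n → K}
    {q : MvPolynomial (Fin n) ℂ} (hq : AdicS w (fun i => algebraMap K L (U i)) q) :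
    AdicS v U q := by
  intro Q hQ
  obtain ⟨h1, h2⟩ := hq Q hQ
  have he : (0 : ℤ) < e := by exact_mod_cast h.1
  rw [aeval_up, h.2] at h1 h2
  refine ⟨nonneg_of_mul_nonneg_right h1 he, ?_⟩
  rw [← h2]
  constructor
  · intro h3
    rw [h3, mul_zero]
  · intro h3
    exact (mul_eq_zero.1 h3).resolve_left he.ne'

/-- almost all prime divisors of the model of the extension are over prime divisors -/
theorem finite_exc1 (hy : NormalModel y) (hn : Algebra.trdeg ℂ K = n) (hy0 : NormalModel y0) :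
    {Q : Place ℂ L | IsPrimeDivisor y0 Q ∧ ¬ IsPrimeDivisor y (bel K Q)}.Finite := by
  classical
  -- Noether normalisation of the charts
  have hno : ∀ j : Fin (N + 1), ∃ U : Fin n → K, y j ≠ 0 → (IsTranscendenceBasis ℂ U ∧
      (∀ i, U i ∈ chart y j) ∧
      ∀ f ∈ chart y j, IsIntegral (Algebra.adjoin ℂ (Set.range U)) f) := by
    intro j
    by_cases hj : y j ≠ 0
    · obtain ⟨U, hU⟩ := R887.exists_noether hy hn hj
      exact ⟨U, fun _ => hU⟩
    · exact ⟨fun _ => 0, fun h => absurd h hj⟩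
  choose U hU using hno
  have hder : ∀ j : Fin (N + 1), ∃ D : Fin n → Derivation ℂ L L, y j ≠ 0 →
      ∀ i k, D i (algebraMap K L (U j k)) = if i = k then 1 else 0 := by
    intro j
    by_cases hj : y j ≠ 0
    · have h1 : IsTranscendenceBasis ℂ (algebraMap K L ∘ U j) := (hU j hj).1.algebraMap_comp
      choose D hD using fun i : Fin n => Pool.Agent.W602.GT.exists_der _ h1
        fun k => if i = k then 1 else 0
      exact ⟨D, fun _ => hD⟩
    · exact ⟨fun _ => 0, fun h => absurd h hj⟩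
  choose D hD using hder
  have hden : ∀ (j : Fin (N + 1)) (i : Fin (N0 + 1)), ∃ h : L, h ≠ 0 ∧ (y0 i ≠ 0 →
      (h ∈ chart y0 i ∧ ∀ l, ∀ f ∈ chart y0 i, h * D j l f ∈ chart y0 i)) := by
    intro j i
    by_cases hi : y0 i ≠ 0
    · obtain ⟨h, h1, h2, h3⟩ := exists_den_frame hy0 hi (D j)
      exact ⟨h, h2, fun _ => ⟨h1, h3⟩⟩
    · exact ⟨1, one_ne_zero, fun h => absurd h hi⟩
  choose h h0 hh using hden
  refine (Set.finite_iUnion fun j => Set.finite_iUnion fun i =>
    finite_ord hy0 (h0 j i)).subset ?_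
  rintro Q ⟨hQ, hQn⟩
  by_contra hcon
  apply hQn
  obtain ⟨i, hi⟩ := exists_centred hy0 Q
  obtain ⟨j, hj⟩ := exists_centred hy (bel K Q)
  obtain ⟨hUb, hUc, hUi⟩ := hU j hj.1
  have hord : Q.ord (h j i) = 0 := by
    by_contra hne
    exact hcon (Set.mem_iUnion.2 ⟨j, Set.mem_iUnion.2 ⟨i, hQ, hne⟩⟩)
  have hDr : ∀ l, DerReg Q (D j l) := by
    intro l f hf
    have h1 : DerReg Q (h j i • D j l) := derReg_of_chart hQ hi fun f hf => by
      rw [Derivation.smul_apply, smul_eq_mul]
      exact (hh j i hi.1).2 l f hf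
    have h2 := h1 f hf
    rw [Derivation.smul_apply, smul_eq_mul] at h2
    by_cases h3 : D j l f = 0
    · rw [h3]
      exact Q.reg_zero
    · rw [Q.reg_iff (mul_ne_zero (h0 j i) h3), Q.ord_mul (h0 j i) h3, hord, zero_add] at h2
      exact Or.inr h2
  have hover := over_bel K Q
  obtain ⟨g, hg, hgQ⟩ := exists_adic (Q := Q) (U := fun k => algebraMap K L (U j k))
    (hUb.algebraMap_comp) (hD j hj.1) hDr
    (fun k => hover.reg.2 (hj.reg _ (hUc k)))
  exact (R887.prime_of_adic hy hj.1 hUb hUc hUi hg (adic_down hover hgQ)).1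

theorem inv_mem_localRing {K : Type} [Field K] [Algebra ℂ K] {N : ℕ} {y : Fin (N + 1) → K}
    {Q : Place ℂ K} {f : K} (hf : f ∈ localRing y Q) (hf0 : f ≠ 0) (hQ : Q.ord f = 0) :
    f⁻¹ ∈ localRing y Q := by
  obtain ⟨j, hj, a, ha, b, hb, hb0, hbo, hab⟩ := hf
  have ha0 : a ≠ 0 := by
    rw [← hab]
    exact mul_ne_zero hf0 hb0
  refine ⟨j, hj, b, hb, a, ha, ha0, ?_, ?_⟩
  · rw [← hab, Q.ord_mul hf0 hb0, hQ, hbo, add_zero]
  · rw [← hab]
    field_simp

/-- almost all places over the prime divisors are prime divisors of the model of the extension -/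
theorem finite_exc2 (hy : NormalModel y) (hy0 : NormalModel y0) :
    {Q : Place ℂ L | IsPrimeDivisor y (bel K Q) ∧ ¬ IsPrimeDivisor y0 Q}.Finite := by
  classical
  have hden : ∀ (i : Fin (N0 + 1)) (j k : Fin (N + 1)), ∃ c : L, c ≠ 0 ∧ (y0 i ≠ 0 →
      (c ∈ chart y0 i ∧ algebraMap K L (y k / y j) * c ∈ chart y0 i)) := by
    intro i j k
    by_cases hi : y0 i ≠ 0
    · have := hy0.frac hi
      obtain ⟨a, b, hb, hab⟩ := IsFractionRing.div_surjective (chart y0 i)
        (algebraMap K L (y k / y j))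
      have hb0 : (b : L) ≠ 0 := fun h => nonZeroDivisors.ne_zero hb (Subtype.ext h)
      refine ⟨b, hb0, fun _ => ⟨b.2, ?_⟩⟩
      rw [← hab]
      change (a : L) / (b : L) * (b : L) ∈ _
      rw [div_mul_cancel₀ _ hb0]
      exact a.2
    · exact ⟨1, one_ne_zero, fun h => absurd h hi⟩
  choose c hc0 hc using hden
  refine (Set.finite_iUnion fun i => Set.finite_iUnion fun j => Set.finite_iUnion fun k =>
    finite_ord_up hy (hc0 i j k)).subset ?_
  rintro Q ⟨hP, hQn⟩
  by_contra hcon
  apply hQn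
  obtain ⟨P, hPdef⟩ : ∃ P, P = bel K Q := ⟨_, rfl⟩
  have hover : Over Q P (ram K Q) := by
    rw [hPdef]
    exact over_bel K Q
  rw [← hPdef] at hP
  obtain ⟨i, hi⟩ := exists_centred hy0 Q
  obtain ⟨j, hj⟩ := exists_centred hy P
  have hord : ∀ k, Q.ord (c i j k) = 0 := by
    intro k
    by_contra hne
    refine hcon (Set.mem_iUnion.2 ⟨i, Set.mem_iUnion.2 ⟨j, Set.mem_iUnion.2 ⟨k, ?_, hne⟩⟩⟩)
    rw [← hPdef]
    exact hP
  have hgen : ∀ k, algebraMap K L (y k / y j) ∈ localRing y0 Q := fun k =>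
    ⟨i, hi, _, (hc i j k hi.1).2, c i j k, (hc i j k hi.1).1, hc0 i j k, hord k, rfl⟩
  -- the prime divisors through the centre are over `P`
  have hbelow : ∀ Q', IsPrimeDivisor y0 Q' → Through y0 Q' Q → bel K Q' = P := by
    intro Q' _ hQQ'
    have hover' := over_bel K Q'
    have hall : ∀ Q'', IsPrimeDivisor y0 Q'' → Through y0 Q'' Q →
        Centred y j (bel K Q'') := by
      intro Q'' _ h2
      refine ⟨hj.1, fun k => (over_bel K Q'').reg.1 (h2 _ (hgen k))⟩
    have hmem : ∀ r ∈ chart y j, algebraMap K L r ∈ localRing y0 Q := by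
      intro r hr
      refine mem_localRing_of_reg hy0 fun Q'' h1 h2 => ?_
      exact (over_bel K Q'').reg.2 ((hall Q'' h1 h2).reg r hr)
    symm
    refine FF.Place.eq_of_le P (bel K Q') fun f hf0 hPf => ?_
    obtain ⟨a, ha, b, hb, hb0, hbo, hab⟩ := (mem_localRing hj).1 (hP f (Or.inr hPf))
    have hb0' : algebraMap K L b ≠ 0 := (map_ne_zero _).2 hb0
    have h1 : (algebraMap K L b)⁻¹ ∈ localRing y0 Q := by
      refine inv_mem_localRing (hmem b hb) hb0' ?_
      rw [hover.2, hbo, mul_zero]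
    have h2 := (Q'.reg_iff (inv_ne_zero hb0')).1 (hQQ' _ h1)
    have h3 := hQQ' _ (hmem a ha)
    have h4 : Q'.Reg (algebraMap K L f) := by
      have h5 : algebraMap K L f = algebraMap K L a * (algebraMap K L b)⁻¹ := by
        rw [← hab, map_mul, mul_assoc, mul_inv_cancel₀ hb0', mul_one]
      rw [h5]
      exact Q'.reg_mul h3 (Or.inr h2)
    exact (((bel K Q').reg_iff hf0).1 (hover'.reg.1 h4))
  have hcK : CharZero K := charZero_of_injective_algebraMap (algebraMap ℂ K).injective
  have hfin : {Q' : Place ℂ L | IsPrimeDivisor y0 Q' ∧ Through y0 Q' Q}.Finite := by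
    refine (finite_over (K' := L) P).subset ?_
    rintro Q' ⟨h1, h2⟩
    refine ⟨ram K Q', ?_⟩
    have h3 := over_bel K Q'
    rw [hbelow Q' h1 h2] at h3
    exact h3
  by_contra hnp
  have hQT : Q ∉ hfin.toFinset := by
    rw [Set.Finite.mem_toFinset]
    rintro ⟨h1, -⟩
    exact hnp h1
  obtain ⟨z, hz0, hzQ, hzT⟩ := sep_many hfin.toFinset Q hQT
  have h1 : z ∈ localRing y0 Q := by
    refine mem_localRing_of_reg hy0 fun Q' h2 h3 => ?_
    have h4 := hzT Q' (by
      rw [Set.Finite.mem_toFinset]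
      exact ⟨h2, h3⟩)
    exact Or.inr h4.le
  have h2 := (Q.reg_iff hz0).1 (localRing_reg h1)
  omega

end

end Pool.Agent.NH31
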