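import Pool.Agent.NH31.M3
import Pool.Agent.Y172.Dim2
import Pool.Agent.R887.Pull

/-!
Sections of `m K + D` as rational functions, and the growth of the sections on varieties with
finitely generated Cox ring.
-/

set_option autoImplicit false
set_option linter.overlappingInstances false
set_option linter.unusedSectionVars false

open FF Pool.Agent.W602.GT Pool.Agent.W603.LV Pool.Agent.W619.PQ Pool.Agent.Y172

namespace Pool.Agent.NH31

section

variable {K : Type} [Field K] [Algebra ℂ K] {N n : ℕ} {y : Fin (N + 1) → K}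

theorem frame_of_dual {x : Fin n → K} {E : Fin n → Derivation ℂ K K}
    (hx : IsTranscendenceBasis ℂ x) (hE : ∀ i j, E i (x j) = if i = j then 1 else 0) :
    IsFrame E := fun G =>
  ⟨fun j => G (x j), (Pool.Agent.W73.PG.PULL.expand x hx E hE G).symm⟩

/-- the determinant of the change of coordinates -/
theorem det_ne {x x' : Fin n → K} {E E' : Fin n → Derivation ℂ K K}
    (hx : IsTranscendenceBasis ℂ x) (hE : ∀ i j, E i (x j) = if i = j then 1 else 0)
    (hE' : ∀ i j, E' i (x' j) = if i = j then 1 else 0) :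
    (Matrix.of fun i j => E i (x' j)).det ≠ 0 := by
  intro h0
  choose a ha using fun i => frame_of_dual hx hE (E' i)
  have h1 : (Matrix.of fun i j => E' i (x' j)) =
      (Matrix.of a) * (Matrix.of fun i j => E i (x' j)) := by
    ext i j
    rw [Matrix.of_apply, Matrix.mul_apply, ha i, sum_smul_apply]
    rfl
  have h2 : (Matrix.of fun i j => E' i (x' j)) = (1 : Matrix (Fin n) (Fin n) K) := by
    ext i j
    rw [Matrix.of_apply, hE', Matrix.one_apply]
  have h3 := congrArg Matrix.det h1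
  rw [h2, Matrix.det_one, Matrix.det_mul, h0, mul_zero] at h3
  exact one_ne_zero h3

/-- the form with a given value on the frame -/
noncomputable def frm (x : Fin n → K) (m : ℕ) (f : K) (D : Fin n → Derivation ℂ K K) : K :=
  (Matrix.of fun i j => D i (x j)).det ^ m * f

theorem frm_pluri (x : Fin n → K) (m : ℕ) (f : K) : IsPluri m (frm x m f) := by
  intro A D
  unfold frm
  have h1 : (Matrix.of fun i j => (∑ l, A i l • D l) (x j)) =
      A * (Matrix.of fun i j => D i (x j)) := by
    ext i j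
    rw [Matrix.of_apply, Matrix.mul_apply, sum_smul_apply]
    rfl
  rw [h1, Matrix.det_mul, mul_pow, mul_assoc]

theorem frm_eval {x : Fin n → K} {E : Fin n → Derivation ℂ K K}
    (hE : ∀ i j, E i (x j) = if i = j then 1 else 0) (m : ℕ) (f : K) : frm x m f E = f := by
  unfold frm
  have h2 : (Matrix.of fun i j => E i (x j)) = (1 : Matrix (Fin n) (Fin n) K) := by
    ext i j
    rw [Matrix.of_apply, hE, Matrix.one_apply]
  rw [h2, Matrix.det_one, one_pow, one_mul]

/-- **The canonical divisor.** -/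
theorem exists_canon (hy : NormalModel y) (hn : Algebra.trdeg ℂ K = n) {x : Fin n → K}
    {E : Fin n → Derivation ℂ K K} (hx : IsTranscendenceBasis ℂ x)
    (hE : ∀ i j, E i (x j) = if i = j then 1 else 0) :
    ∃ w : Place ℂ K → ℚ, FinSup y w ∧ ∀ Q, IsPrimeDivisor y Q → ∀ (m : ℕ)
      (ω : (Fin n → Derivation ℂ K K) → K) (c : ℚ), IsPluri m ω →
        (OrdGe Q ω c ↔ (ω E = 0 ∨ c - m * w Q ≤ Q.ord (ω E))) := by
  classical
  have hess := hy.ess
  have hex : ∀ Q : Place ℂ K, ∃ w : ℚ, IsPrimeDivisor y Q → ∀ (m : ℕ)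
      (ω : (Fin n → Derivation ℂ K K) → K) (c : ℚ), IsPluri m ω →
        (OrdGe Q ω c ↔ (ω E = 0 ∨ c - m * w ≤ Q.ord (ω E))) := by
    intro Q
    by_cases hQ : IsPrimeDivisor y Q
    · obtain ⟨xQ, EQ, i0, hl⟩ := exists_loc hn (hQ.divisorial hy hn)
      obtain ⟨d, hd⟩ : ∃ d, d = (Matrix.of fun i j => E i (xQ j)).det := ⟨_, rfl⟩
      have hd0 : d ≠ 0 := hd ▸ det_ne hx hE hl.dual
      refine ⟨-(Q.ord d : ℚ), fun _ m ω c hω => ?_⟩
      have h1 : ω E = d ^ m * ω EQ := by
        rw [hd]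
        exact pluri_coord hl.bas hl.dual hω E
      rw [ordGe_iff hl hω]
      have h2 : ω E = 0 ↔ ω EQ = 0 := by
        rw [h1, mul_eq_zero]
        exact ⟨fun h => h.resolve_left (pow_ne_zero _ hd0), Or.inr⟩
      by_cases h3 : ω EQ = 0
      · exact ⟨fun _ => Or.inl (h2.2 h3), fun _ => Or.inl h3⟩
      · have h4 : ω E ≠ 0 := fun h => h3 (h2.1 h)
        have h5 : (Q.ord (ω E) : ℚ) = m * Q.ord d + Q.ord (ω EQ) := by
          rw [h1, Q.ord_mul (pow_ne_zero _ hd0) h3, Q.ord_pow]
          push_cast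
          ring
        constructor
        · intro h
          right
          have h6 := h.resolve_left h3
          rw [h5]
          linarith
        · intro h
          right
          have h6 := h.resolve_left h4
          rw [h5] at h6
          linarith
    · exact ⟨0, fun h => absurd h hQ⟩
  choose w hw using hex
  refine ⟨w, ?_, hw⟩
  -- the support
  have hp := frm_pluri x 1 (1 : K)
  have he : frm x 1 (1 : K) E = 1 := frm_eval hE 1 1
  have h0 : Effective y (0 : Place ℂ K → ℚ) := by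
    refine ⟨fun _ _ => le_rfl, ?_⟩
    simp
  have hpol := finite_poles hy hn h0 hp
  have hden : ∀ i : Fin (N + 1), ∃ h : K, h ≠ 0 ∧ (y i ≠ 0 →
      (h ∈ chart y i ∧ ∀ l, ∀ f ∈ chart y i, h * E l f ∈ chart y i)) := by
    intro i
    by_cases hi : y i ≠ 0
    · obtain ⟨h, h1, h2, h3⟩ := exists_den_frame hy hi E
      exact ⟨h, h2, fun _ => ⟨h1, h3⟩⟩
    · exact ⟨1, one_ne_zero, fun h => absurd h hi⟩
  choose h hh0 hh using hden
  refine (hpol.union (Set.finite_iUnion fun i => finite_ord hy (hh0 i))).subset ?_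
  rintro Q ⟨hQ, hne⟩
  by_contra hcon
  rw [Set.mem_union] at hcon
  push Not at hcon
  have h1 : OrdGe Q (frm x 1 (1 : K)) 0 := by
    by_contra h2
    refine hcon.1 ⟨hQ, fun h3 => h2 ?_⟩
    simpa using h3
  rw [hw Q hQ 1 _ 0 hp, he, Q.ord_one] at h1
  have h2 : 0 ≤ w Q := by
    have := h1.resolve_left one_ne_zero
    push_cast at this
    linarith
  obtain ⟨i, hi⟩ := exists_centred hy Q
  have hord : Q.ord (h i) = 0 := by
    by_contra hne'
    exact hcon.2 (Set.mem_iUnion.2 ⟨i, hQ, hne'⟩)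
  have hDr : ∀ l, DerReg Q (E l) := by
    intro l f hf
    have h1 : DerReg Q (h i • E l) := derReg_of_chart hQ hi fun f hf => by
      rw [Derivation.smul_apply, smul_eq_mul]
      exact (hh i hi.1).2 l f hf
    have h2 := h1 f hf
    rw [Derivation.smul_apply, smul_eq_mul] at h2
    by_cases h3 : E l f = 0
    · rw [h3]
      exact Q.reg_zero
    · rw [Q.reg_iff (mul_ne_zero (hh0 i) h3), Q.ord_mul (hh0 i) h3, hord, zero_add] at h2
      exact Or.inr h2
  have h3 : OrdGe Q (frm x 1 (1 : K)) (w Q) := by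
    rw [hw Q hQ 1 _ _ hp, he, Q.ord_one]
    right
    push_cast
    linarith
  have h4 := (h3 E hDr).resolve_left (by rw [he]; exact one_ne_zero)
  rw [he, Q.ord_one] at h4
  push_cast at h4
  exact hne (le_antisymm h4 h2)

/-- The Kodaira and the numerical dimension of `K + V` agree, in terms of the growth of the
sections. -/
def Abund (y : Fin (N + 1) → K) (n : ℕ) (V : Place ℂ K → ℚ) : Prop :=
  ∃ (κ m0 : ℕ) (Ω : Fin (κ + 1) → (Fin n → Derivation ℂ K K) → K), 1 ≤ m0 ∧
    (∀ j, IsSection y n m0 (m0 • V) (Ω j)) ∧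
    (∃ E, Ω 0 E ≠ 0 ∧ AlgebraicIndependent ℂ (fun i : Fin κ => Ω i.succ E / Ω 0 E)) ∧
    ∀ (x : Fin n → K) (E : Fin n → Derivation ℂ K K), IsTranscendenceBasis ℂ x →
      (∀ i j, E i (x j) = if i = j then 1 else 0) → ∀ A, FinSup y A → ∃ C : ℕ, ∀ m : ℕ, 1 ≤ m →
        ∀ (r : ℕ) (f : Fin r → K), LinearIndependent ℂ f →
          (∀ i, ∃ ω, IsSection y n m (m • V + A) ω ∧ ω E = f i) → r ≤ C * m ^ κ

theorem isAlg_mono {S T : IntermediateField ℂ K} (h : S ≤ T) {x : K} (hx : IsAlgebraic S x) :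
    IsAlgebraic T x := by
  let _ := (IntermediateField.inclusion h).toAlgebra
  have : IsScalarTower S T K := IsScalarTower.of_algebraMap_eq fun _ => rfl
  exact hx.tower_top T

/-- **Abundance on varieties whose Cox ring over a base below the Iitaka fibration is finitely
generated.** -/
theorem cox_abund (hy : NormalModel y) (hn : Algebra.trdeg ℂ K = n) {F : IntermediateField ℂ K}
    (hcox : CoxFiniteOver y F)
    {B V : Place ℂ K → ℚ} (hF : BelowIitaka y n B F) (hV : FinSup y V)
    (hBV : ∀ P, IsPrimeDivisor y P → B P ≤ V P)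
    {a : ℕ} (ha : 1 ≤ a) {σ : (Fin n → Derivation ℂ K K) → K} (hσ : IsSection y n a (a • B) σ)
    (hσ0 : σ ≠ 0) : Abund y n V := by
  classical
  obtain ⟨x, E, hx, hE⟩ := exists_crd hn
  obtain ⟨w, hw, hwf⟩ := exists_canon hy hn hx hE
  have hfr := frame_of_dual hx hE
  -- sections and functions
  have hsec : ∀ (m : ℕ) (D : Place ℂ K → ℚ) (ω : (Fin n → Derivation ℂ K K) → K),
      IsPluri m ω → (IsSection y n m D ω ↔ Fn y (m • w + D) (ω E)) := by
    intro m D ω hω
    constructor
    · rintro ⟨-, h⟩ P hP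
      have h1 := (hwf P hP m ω _ hω).1 (h P hP)
      refine h1.imp_right fun h2 => le_trans (le_of_eq ?_) h2
      simp only [Pi.add_apply, smul_ap]
      ring
    · intro h
      refine ⟨hω, fun P hP => (hwf P hP m ω _ hω).2 ?_⟩
      refine (h P hP).imp_right fun h2 => le_trans (le_of_eq ?_) h2
      simp only [Pi.add_apply, smul_ap]
      ring
  have hσE : σ E ≠ 0 := fun h => hσ0 (pluri_zero hfr hσ.1 h)
  have h1 : Fn y (a • (w + B)) (σ E) := by
    rw [smul_add]
    exact (hsec a _ σ hσ.1).1 hσ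
  have hrat : pluriRatios y n B ⊆ rat y (w + B) := by
    rintro f ⟨m, hm, ω, ω', hω, hω', E1, hE1, rfl⟩
    have e1 := pluri_coord hx hE hω.1 E1
    have e2 := pluri_coord hx hE hω'.1 E1
    have hd : (Matrix.of fun i j => E1 i (x j)).det ^ m ≠ 0 := by
      intro h
      rw [h, zero_mul] at e2
      exact hE1 e2
    have h0 : ω' E ≠ 0 := by
      intro h
      rw [h, mul_zero] at e2
      exact hE1 e2
    refine ⟨m, ω E, ω' E, hm, ?_, ?_, h0, ?_⟩
    · rw [smul_add]
      exact (hsec m _ ω hω.1).1 hω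
    · rw [smul_add]
      exact (hsec m _ ω' hω'.1).1 hω'
    · rw [e1, e2, mul_div_mul_left _ _ hd]
  have hF' : ∀ x ∈ F, IsAlgebraic (IntermediateField.adjoin ℂ (rat y (w + B))) x := fun x hx =>
    isAlg_mono (IntermediateField.adjoin.mono ℂ _ _ hrat) (hF x hx)
  obtain ⟨κ, m0, g, hm0, hg, hg0, hind, hup⟩ := cox_growth hy hn hcox (U0 := w + B) (hw.add hV)
    (fun P hP => by
      simp only [Pi.add_apply]
      linarith [hBV P hP]) ha h1 hσE hF'
  refine ⟨κ, m0, fun j => frm x m0 (g j), hm0, fun j => ?_, ⟨E, ?_, ?_⟩, ?_⟩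
  · rw [hsec m0 _ _ (frm_pluri x m0 (g j)), frm_eval hE, ← smul_add]
    exact hg j
  · change frm x m0 (g 0) E ≠ 0
    rw [frm_eval hE]
    exact hg0
  · simp only [frm_eval hE]
    exact hind
  · intro x' E' hx' hE' A hA
    obtain ⟨C, hC⟩ := hup A hA
    refine ⟨C, fun m hm r f hf h => hC m hm r (fun i =>
      ((Matrix.of fun i j => E' i (x j)).det ^ m)⁻¹ * f i) ?_ fun i => ?_⟩
    · have hd := det_ne hx' hE' hE
      exact hf.map' (LinearMap.mulLeft ℂ _) (LinearMap.ker_eq_bot.2
        (mul_right_injective₀ (inv_ne_zero (pow_ne_zero _ hd))))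
    · have hd := det_ne hx' hE' hE
      obtain ⟨ω, hω, hωf⟩ := h i
      have h2 := (hsec m _ ω hω.1).1 hω
      have h3 : ω E' = (Matrix.of fun i j => E' i (x j)).det ^ m * ω E :=
        pluri_coord hx hE hω.1 E'
      have h4 : ((Matrix.of fun i j => E' i (x j)).det ^ m)⁻¹ * f i = ω E := by
        rw [← hωf, h3, inv_mul_cancel_left₀ (pow_ne_zero _ hd)]
      rw [h4, smul_add, add_assoc]
      exact h2

end

end Pool.Agent.NH31
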