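import Pool.Agent.NH31.M4
import Pool.Agent.NH31.M5
import Pool.Agent.Y172.R7
import Pool.Agent.Y191.Disc

/-!
Reduction of weak abundance for log canonical pairs to a model of a finite extension of the
function field.
-/

set_option autoImplicit false
set_option linter.overlappingInstances false
set_option linter.unusedSectionVars false

open FF Pool.Agent.W602.GT Pool.Agent.W603.LV Pool.Agent.W619.PQ Pool.Agent.Y172
open Pool.Agent.R887 (pull pull_pluri pull_ord)

namespace Pool.Agent.NH31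

section

variable {K L : Type} [Field K] [Field L] [Algebra ℂ K] [Algebra ℂ L]
  [Algebra K L] [IsScalarTower ℂ K L] [FiniteDimensional K L] {N N0 n : ℕ}
  {y : Fin (N + 1) → K} {y0 : Fin (N0 + 1) → L} {Δ : Place ℂ K → ℚ} {B : Place ℂ L → ℚ}

open scoped Classical in
/-- the coefficients of the log pull back of `K_X + Δ` to the extension -/
noncomputable def lpb (y : Fin (N + 1) → K) (Δ : Place ℂ K → ℚ) (Q : Place ℂ L) : ℚ :=
  if IsPrimeDivisor y (bel K Q) then 1 - ram K Q * (1 - Δ (bel K Q)) else 1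

theorem ordGe_ceil {K : Type} [Field K] [Algebra ℂ K] {n : ℕ} {P : Place ℂ K}
    {ω : (Fin n → Derivation ℂ K K) → K} {c : ℚ} (h : OrdGe P ω c) :
    OrdGe P ω ((⌈c⌉ : ℤ) : ℚ) := by
  intro E hE
  refine (h E hE).imp_right fun h1 => ?_
  have h2 : ⌈c⌉ ≤ P.ord (ω E) := Int.ceil_le.2 h1
  exact_mod_cast h2

/-- **The pull-backs of the sections.** -/
theorem pull_section (hy : NormalModel y) (hn : Algebra.trdeg ℂ K = n) (hy0 : NormalModel y0)
    (hLC : LogCanonical y n Δ) {V : Place ℂ L → ℚ}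
    (hV : ∀ Q, IsPrimeDivisor y0 Q → lpb y Δ Q ≤ V Q) {x : Fin n → K}
    {E : Fin n → Derivation ℂ K K} (hx : IsTranscendenceBasis ℂ x)
    (hE : ∀ i j, E i (x j) = if i = j then 1 else 0) {A : Place ℂ K → ℚ} (hA : Effective y A) :
    ∃ A' : Place ℂ L → ℚ, FinSup y0 A' ∧ ∀ m : ℕ, 1 ≤ m → ∀ ω, IsSection y n m (m • Δ + A) ω →
      IsSection y0 n m (m • V + A') (pull L x E m ω) := by
  classical
  have hess := hy.ess
  have hnL : Algebra.trdeg ℂ L = n := trdeg_up (K := K) hn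
  choose s hs hs0 hsd using fun j => Pool.Agent.Y191.disc_bound hy (n := n) (Δ := Δ) hA
    (frame_of_dual hx hE) j
  refine ⟨fun Q => if IsPrimeDivisor y (bel K Q) then ram K Q * A (bel K Q) else
    ram K Q * ∑ j, |((bel K Q).ord (s j) : ℚ)|, ?_, ?_⟩
  · refine ((finite_exc1 hy hn hy0).union (finite_bel K (L := L)
      (T := {P | IsPrimeDivisor y P ∧ A P ≠ 0}) hA.2)).subset ?_
    rintro Q ⟨hQ, hne⟩
    by_cases h1 : IsPrimeDivisor y (bel K Q)
    · right
      refine ⟨h1, fun h2 => hne ?_⟩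
      simp only [if_pos h1, h2, mul_zero]
    · left
      exact ⟨hQ, h1⟩
  · intro m hm ω hω
    refine ⟨pull_pluri x E m ω, fun Q hQ D hD => ?_⟩
    have hover := over_bel K Q
    have hQd := hQ.divisorial hy0 hnL
    have hPd := divisorial_down hover hQd
    have hr : (0 : ℚ) < ram K Q := by exact_mod_cast hover.1
    have hVQ := hV Q hQ
    simp only [Pi.add_apply, smul_ap]
    have hm0 : (0 : ℚ) ≤ m := Nat.cast_nonneg m
    have hmV := mul_le_mul_of_nonneg_left hVQ hm0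
    unfold lpb at hmV
    by_cases h1 : IsPrimeDivisor y (bel K Q)
    · rw [if_pos h1] at hmV ⊢
      have h2 := ordGe_ceil (hω.2 (bel K Q) h1)
      have h3 := pull_ord hn hx hE hover hPd hω.1 h2 hD
      refine h3.imp_right fun h4 => ?_
      have h5 : ((m * (ram K Q - 1) + ram K Q * ⌈-((m • Δ + A) (bel K Q))⌉ : ℤ) : ℚ) ≤
          (Q.ord (pull L x E m ω D) : ℚ) := by exact_mod_cast h4
      refine le_trans ?_ h5
      have h6 : -((m • Δ + A) (bel K Q)) ≤ (⌈-((m • Δ + A) (bel K Q))⌉ : ℚ) := Int.le_ceil _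
      have h7 := mul_le_mul_of_nonneg_left h6 hr.le
      simp only [Pi.add_apply, smul_ap] at h7 ⊢
      push_cast
      nlinarith
    · rw [if_neg h1] at hmV ⊢
      obtain ⟨j, hj⟩ := exists_centred hy (bel K Q)
      obtain ⟨r, hr', η, hη, hηP, hηQ⟩ := hLC (bel K Q) hPd
      have hld : Pool.Agent.Y191.LogDisc y n Δ (bel K Q) 0 :=
        Or.inr ⟨r, hr', η, hη, hηP, by
          have e1 : (r : ℚ) * (0 - 1) = -r := by ring
          rw [e1]
          exact hηQ⟩
      have h2 := hsd j (bel K Q) hj 0 hld m hm ω hω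
      have h2' : OrdGe (bel K Q) ω ((-(m : ℤ) - (bel K Q).ord (s j) : ℤ) : ℚ) := by
        have e1 : ((-(m : ℤ) - (bel K Q).ord (s j) : ℤ) : ℚ) =
            (m : ℚ) * (0 - 1) - ((bel K Q).ord (s j) : ℤ) := by
          push_cast
          ring
        rw [e1]
        exact h2
      have h3 := pull_ord hn hx hE hover hPd hω.1 h2' hD
      refine h3.imp_right fun h4 => ?_
      have h5 : ((m * (ram K Q - 1) + ram K Q * (-(m : ℤ) - (bel K Q).ord (s j)) : ℤ) : ℚ) ≤
          (Q.ord (pull L x E m ω D) : ℚ) := by exact_mod_cast h4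
      refine le_trans ?_ h5
      have h6 : ((bel K Q).ord (s j) : ℚ) ≤ ∑ j, |((bel K Q).ord (s j) : ℚ)| :=
        (le_abs_self _).trans (Finset.single_le_sum
          (f := fun j => |((bel K Q).ord (s j) : ℚ)|) (fun _ _ => abs_nonneg _)
          (Finset.mem_univ j))
      have h7 := mul_le_mul_of_nonneg_left h6 hr.le
      push_cast
      nlinarith

/-- **Reduction.** -/
theorem reduction (hy : NormalModel y) (hn : Algebra.trdeg ℂ K = n) (hy0 : NormalModel y0)
    (hΔ : Effective y Δ) (hLC : LogCanonical y n Δ) (hB : Effective y0 B)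
    {a : ℕ} (ha : 1 ≤ a) {σ : (Fin n → Derivation ℂ L L) → L} (hσ : IsSection y0 n a (a • B) σ)
    (hσ0 : σ ≠ 0)
    (hdisc : ∀ P, IsPrimeDivisor y P → ∀ (Q : Place ℂ L) (e : ℕ), Over Q P e →
      (IsPrimeDivisor y0 Q ∧ e * (1 - Δ P) ≤ 1 - B Q) ∨
        ∃ α : ℚ, e * (1 - Δ P) < α ∧ LogDiscGe y0 n B Q α)
    (hab : ∀ V : Place ℂ L → ℚ, FinSup y0 V → (∀ Q, IsPrimeDivisor y0 Q → B Q ≤ V Q) →
      Abund y0 n V) :
    ∃ κ : ℕ, kodairaDim y n Δ = (κ : WithBot ℕ) ∧
      ∀ A, Effective y A → Integral y A → numericalDim y n Δ A = (κ : EReal) := by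
  classical
  have hess := hy.ess
  have hessL : Algebra.EssFiniteType ℂ L := ess_up hess
  have hnL : Algebra.trdeg ℂ L = n := trdeg_up (K := K) hn
  -- the discrepancies at the prime divisors
  have hd1 : ∀ Q, IsPrimeDivisor y0 Q → IsPrimeDivisor y (bel K Q) →
      ram K Q * (1 - Δ (bel K Q)) ≤ 1 - B Q := by
    intro Q hQ hP
    rcases hdisc _ hP Q _ (over_bel K Q) with h1 | ⟨α, hα, r, hr, η, hη, hηP, hηQ⟩
    · exact h1.2
    · have hr' : (0 : ℚ) < r := by exact_mod_cast hr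
      obtain ⟨-, E, hE, hE0, hEo⟩ := hηP Q hQ fun f hf => localRing_reg hf
      have h2 := (hηQ E hE).resolve_left hE0
      rw [hEo] at h2
      nlinarith
  -- the divisor
  obtain ⟨V, hVdef⟩ : ∃ V : Place ℂ L → ℚ, ∀ Q, V Q = max (B Q) (lpb y Δ Q) :=
    ⟨fun Q => max (B Q) (lpb y Δ Q), fun _ => rfl⟩
  have hBV : ∀ Q, B Q ≤ V Q := fun Q => by
    rw [hVdef]
    exact le_max_left _ _
  have hlV : ∀ Q, lpb y Δ Q ≤ V Q := fun Q => by
    rw [hVdef]
    exact le_max_right _ _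
  have hVeq : ∀ Q, IsPrimeDivisor y0 Q → IsPrimeDivisor y (bel K Q) →
      V Q = 1 - ram K Q * (1 - Δ (bel K Q)) := by
    intro Q hQ hP
    rw [hVdef, lpb, if_pos hP]
    exact max_eq_right (by linarith [hd1 Q hQ hP])
  have hVfin : FinSup y0 V := by
    refine (((finite_exc1 hy hn hy0).union (finite_bel K (L := L)
      (T := {P | IsPrimeDivisor y P ∧ Δ P ≠ 0}) hΔ.2)).union hB.2).subset ?_
    rintro Q ⟨hQ, hne⟩
    by_cases h1 : IsPrimeDivisor y (bel K Q)
    · left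
      right
      refine ⟨h1, fun h2 => hne ?_⟩
      have h3 := hd1 Q hQ h1
      rw [h2, sub_zero, mul_one] at h3
      have h4 := hB.1 Q hQ
      have h5 : (1 : ℚ) ≤ ram K Q := by exact_mod_cast (over_bel K Q).1
      rw [hVeq Q hQ h1, h2]
      linarith
    · left
      left
      exact ⟨hQ, h1⟩
  obtain ⟨κ, m0, Ω, hm0, hΩ, ⟨G, hG0, hGi⟩, hup⟩ := hab V hVfin fun Q _ => hBV Q
  refine ⟨κ, ?_⟩
  -- the upper bound
  obtain ⟨x, E, hx, hE⟩ := exists_crd hn
  choose E' hE' using fun i => exists_lift (L := L) hn (E i)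
  have hxL : IsTranscendenceBasis ℂ (fun j => algebraMap K L (x j)) := hx.algebraMap_comp
  have hEL := lift_dual hE hE'
  have hupper : ∀ A, Effective y A → ∃ C : ℕ, ∀ m : ℕ, 1 ≤ m → ∀ (r : ℕ) (f : Fin r → K),
      LinearIndependent ℂ f → (∀ i, ∃ ω, IsSection y n m (m • Δ + A) ω ∧ ω E = f i) →
      r ≤ C * m ^ κ := by
    intro A hA
    obtain ⟨A', hA', hsec⟩ := pull_section hy hn hy0 hLC (fun Q _ => hlV Q) hx hE hA
    obtain ⟨C, hC⟩ := hup _ E' hxL hEL A' hA'
    refine ⟨C, fun m hm r f hf h => hC m hm r (fun i => algebraMap K L (f i)) ?_ fun i => ?_⟩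
    · exact hf.map' ((IsScalarTower.toAlgHom ℂ K L).toLinearMap) (LinearMap.ker_eq_bot.2
        (algebraMap K L).injective)
    · obtain ⟨ω, hω, hωf⟩ := h i
      refine ⟨_, hsec m hm ω hω, ?_⟩
      have h2 : (Matrix.of fun i j => E' i (algebraMap K L (x j))) =
          (1 : Matrix (Fin n) (Fin n) L) := by
        ext i j
        rw [Matrix.of_apply, hEL, Matrix.one_apply]
      change (Matrix.of fun i j => E' i (algebraMap K L (x j))).det ^ m *
        algebraMap K L (ω E) = _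
      rw [h2, Matrix.det_one, one_pow, one_mul, hωf]
  -- the forms on the extension
  obtain ⟨d0, hd0, hden⟩ := exists_den_mul hΔ
  have hfrL := frame_of_dual hxL hEL
  have hGfr : IsFrame G := Pool.Agent.Y191.frame_of_ne hfrL hm0 (hΩ 0).1 hG0
  have hσG : σ G ≠ 0 := fun h => hσ0 (pluri_zero hGfr hσ.1 h)
  obtain ⟨c0, hc0⟩ : ∃ c0, d0 = c0 + 1 := ⟨d0 - 1, by omega⟩
  have hVB : Effective y0 ((d0 * m0) • (V - B)) := by
    refine ⟨fun Q hQ => ?_, ?_⟩
    · simp only [Pi.smul_apply, Pi.sub_apply]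
      exact nsmul_nonneg (sub_nonneg.2 (hBV Q)) _
    · refine (hVfin.union hB.2).subset ?_
      rintro Q ⟨hQ, hne⟩
      by_contra hcon
      rw [Set.mem_union] at hcon
      push Not at hcon
      have h1 : V Q = 0 := by
        by_contra h3
        exact hcon.1 ⟨hQ, h3⟩
      have h2 : B Q = 0 := by
        by_contra h3
        exact hcon.2 ⟨hQ, h3⟩
      exact hne (by simp [h1, h2])
  choose s hs hs0 hsd using fun j => Pool.Agent.Y191.disc_bound hy0 (n := n) (Δ := B) hVB hfrL j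
  -- the exceptional places
  have hE2 := finite_exc2 (L := L) hy hy0
  obtain ⟨t, ht⟩ : ∃ t : ℕ, ∀ Q : Place ℂ L, IsPrimeDivisor y (bel K Q) →
      ¬ IsPrimeDivisor y0 Q → ∃ α : ℚ, LogDiscGe y0 n B Q α ∧
        ∀ M : ℕ, t ≤ M → ∀ j, (Q.ord (s j) : ℚ) ≤ M * (α - ram K Q * (1 - Δ (bel K Q))) := by
    have h1 : ∀ Q : Place ℂ L, ∃ t : ℕ, IsPrimeDivisor y (bel K Q) →
      ¬ IsPrimeDivisor y0 Q → ∃ α : ℚ, LogDiscGe y0 n B Q α ∧
        ∀ M : ℕ, t ≤ M → ∀ j, (Q.ord (s j) : ℚ) ≤ M * (α - ram K Q * (1 - Δ (bel K Q))) := by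
      intro Q
      by_cases hQ : IsPrimeDivisor y (bel K Q) ∧ ¬ IsPrimeDivisor y0 Q
      · rcases hdisc _ hQ.1 Q _ (over_bel K Q) with h1 | ⟨α, hα, h2⟩
        · exact absurd h1.1 hQ.2
        · have hg : 0 < α - ram K Q * (1 - Δ (bel K Q)) := by linarith
          obtain ⟨t, ht⟩ := exists_nat_ge ((∑ j, |(Q.ord (s j) : ℚ)|) /
            (α - ram K Q * (1 - Δ (bel K Q))))
          refine ⟨t, fun _ _ => ⟨α, h2, fun M hM j => ?_⟩⟩
          have h6 : (Q.ord (s j) : ℚ) ≤ ∑ j, |(Q.ord (s j) : ℚ)| :=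
            (le_abs_self _).trans (Finset.single_le_sum
              (f := fun j => |(Q.ord (s j) : ℚ)|) (fun _ _ => abs_nonneg _)
              (Finset.mem_univ j))
          rw [div_le_iff₀ hg] at ht
          refine h6.trans (ht.trans (mul_le_mul_of_nonneg_right ?_ hg.le))
          exact_mod_cast hM
      · refine ⟨0, fun h1 h2 => absurd ⟨h1, h2⟩ hQ⟩
    choose t ht using h1
    refine ⟨∑ Q ∈ hE2.toFinset, t Q, fun Q h2 h3 => ?_⟩
    obtain ⟨α, h4, h5⟩ := ht Q h2 h3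
    refine ⟨α, h4, fun M hM j => h5 M (le_trans ?_ hM) j⟩
    exact Finset.single_le_sum (f := t) (fun _ _ => Nat.zero_le _)
      ((Set.Finite.mem_toFinset hE2).2 ⟨h2, h3⟩)
  obtain ⟨M, hM⟩ : ∃ M : ℕ, M = d0 * m0 + (d0 * t) * a := ⟨_, rfl⟩
  have htM : t ≤ M := by
    rw [hM]
    have h1 : t ≤ d0 * t := Nat.le_mul_of_pos_left t (by omega)
    have h2 : d0 * t ≤ (d0 * t) * a := Nat.le_mul_of_pos_right _ (by omega)
    omega
  obtain ⟨W, hW⟩ : ∃ W : Fin (κ + 1) → (Fin n → Derivation ℂ L L) → L,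
      ∀ j D, W j D = (Ω j D * Ω 0 D ^ c0) * σ D ^ (d0 * t) :=
    ⟨fun j D => (Ω j D * Ω 0 D ^ c0) * σ D ^ (d0 * t), fun _ _ => rfl⟩
  have hWs : ∀ j, IsSection y0 n M (M • B + (d0 * m0) • (V - B)) (W j) := by
    intro j
    have h1 := ((hΩ j).mul ((hΩ 0).pow c0)).mul (hσ.pow (d0 * t))
    have e1 : m0 + c0 * m0 + d0 * t * a = M := by
      rw [hM, hc0]
      ring
    rw [e1] at h1
    have e2 : m0 • V + c0 • (m0 • V) + (d0 * t) • (a • B) =
        M • B + (d0 * m0) • (V - B) := by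
      rw [hM, hc0]
      ext Q
      simp only [Pi.add_apply, smul_ap, Pi.sub_apply]
      push_cast
      ring
    rw [e2] at h1
    have e3 : W j = fun D => (Ω j D * Ω 0 D ^ c0) * σ D ^ (d0 * t) := funext (hW j)
    rw [e3]
    exact h1
  have hWG : W 0 G ≠ 0 := by
    rw [hW]
    exact mul_ne_zero (mul_ne_zero hG0 (pow_ne_zero _ hG0)) (pow_ne_zero _ hσG)
  have hWi : AlgebraicIndependent ℂ fun i : Fin κ => W i.succ G / W 0 G := by
    have e1 : (fun i : Fin κ => W i.succ G / W 0 G) = fun i : Fin κ => Ω i.succ G / Ω 0 G := by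
      funext i
      rw [hW, hW, mul_div_mul_right _ _ (pow_ne_zero _ hσG),
        mul_div_mul_right _ _ (pow_ne_zero _ hG0)]
    rw [e1]
    exact hGi
  have hord : ∀ P ∈ {P | IsPrimeDivisor y P}, ∀ (Q : Place ℂ L) (e : ℕ), Over Q P e → ∀ j,
      ∀ D : Fin n → Derivation ℂ L L, (∀ i, DerReg Q (D i)) →
        W j D = 0 ∨ -(M * (1 - e * (1 - (Δ P : ℝ)))) ≤ (Q.ord (W j D) : ℝ) := by
    intro P hP Q e hQ j D hD
    obtain ⟨hbel, hram⟩ := bel_eq K hQ
    have key : W j D = 0 ∨ -(M * (1 - e * (1 - Δ P))) ≤ (Q.ord (W j D) : ℚ) := by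
      by_cases hQ0 : IsPrimeDivisor y0 Q
      · refine ((hWs j).2 Q hQ0 D hD).imp_right fun h1 => le_trans ?_ h1
        have h2 : V Q = 1 - e * (1 - Δ P) := by
          rw [hVeq Q hQ0 (by rw [hbel]; exact hP), hbel, hram]
        have h3 := hBV Q
        simp only [Pi.add_apply, smul_ap, Pi.sub_apply]
        rw [hM]
        push_cast
        rw [← h2]
        have h4 : (0 : ℚ) ≤ (d0 * t * a : ℕ) := Nat.cast_nonneg _
        push_cast at h4
        nlinarith
      · obtain ⟨α, hα, hαM⟩ := ht Q (by rw [hbel]; exact hP) hQ0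
        obtain ⟨i, hi⟩ := exists_centred hy0 Q
        have hM1 : 1 ≤ M := by
          rw [hM]
          have : 1 ≤ d0 * m0 := Nat.succ_le_of_lt (Nat.mul_pos (by omega) (by omega))
          omega
        have h1 := hsd i Q hi α (Or.inr hα) M hM1 (W j) (hWs j) D hD
        refine h1.imp_right fun h2 => le_trans ?_ h2
        have h3 := hαM M htM i
        rw [hbel, hram] at h3
        push_cast at h3 ⊢
        linarith
    refine key.imp_right fun h1 => ?_
    have h2 : ((-(M * (1 - e * (1 - Δ P))) : ℚ) : ℝ) ≤ ((Q.ord (W j D) : ℚ) : ℝ) := by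
      exact_mod_cast h1
    push_cast at h2
    exact h2
  obtain ⟨R, Ω', hR, hΩ', hΩ'P, E0, hE00, hE0i⟩ := descend1 (K := K) (L := L) hn
    (X := {P | IsPrimeDivisor y P}) (fun P hP => IsPrimeDivisor.divisorial hy hn hP)
    (Δ := Δ) (M := M) (by
      intro P hP
      obtain ⟨z, hz⟩ := hden P hP
      refine ⟨(m0 + t * a) * z, ?_⟩
      rw [hM]
      push_cast
      rw [← hz]
      ring) (fun j => (hWs j).1) hord hWG hWi
  have hMR : 1 ≤ M * R := by
    have h1 : 1 ≤ d0 * m0 := Nat.succ_le_of_lt (Nat.mul_pos (by omega) (by omega))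
    have h2 : 1 ≤ M := by omega
    exact Nat.succ_le_of_lt (Nat.mul_pos (by omega) (by omega))
  exact dims hΔ (frame_of_dual hx hE) hupper hMR (ω := Ω') (fun j => ⟨hΩ' j, fun P hP G hG => by
    have h1 := hΩ'P P hP j G hG
    refine h1.imp_right fun h2 => le_trans (le_of_eq ?_) h2
    simp only [smul_ap]⟩) hE00 hE0i

end

end Pool.Agent.NH31
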