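import Pool.Agent.NH31.Defs2
import Pool.Agent.NH31.M3
import Pool.Agent.NH31.G4

/-!
Divisors on varieties such that abundance holds for the divisors on the generic fibre over a base.
-/

set_option autoImplicit false
set_option linter.overlappingInstances false
set_option linter.unusedSectionVars false

open FF Pool.Agent.W602.GT Pool.Agent.W603.LV Pool.Agent.Y172

namespace Pool.Agent.NH31

section

variable {K : Type} [Field K] [Algebra ℂ K] {N n : ℕ} {y : Fin (N + 1) → K}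
  {F : IntermediateField ℂ K}

/-- **Quotients of sections on the generic fibre are quotients of sections.** -/
theorem fh_lower (hy : NormalModel y) {U0 U : Place ℂ K → ℚ} (hU : FinSup y U)
    (hle : ∀ P, IsPrimeDivisor y P → U0 P ≤ U P)
    {a : ℕ} (ha : 1 ≤ a) {σ : K} (hσ : Fn y (a • U0) σ) (hσ0 : σ ≠ 0)
    (hF : ∀ x ∈ F, IsAlgebraic (IntermediateField.adjoin ℂ (rat y U0)) x) {κ : ℕ}
    {z : Fin κ → K} (hz : AlgebraicIndependent ℂ z) {m : Fin κ → ℕ} {f g : Fin κ → K}
    (hf : ∀ i, Fh y F (m i • U) (f i)) (hg : ∀ i, Fh y F (m i • U) (g i)) (hg0 : ∀ i, g i ≠ 0)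
    (hzf : ∀ i, z i = f i / g i) :
    ∃ (m0 : ℕ) (g : Fin (κ + 1) → K), 1 ≤ m0 ∧ (∀ j, Fn y (m0 • U) (g j)) ∧ g 0 ≠ 0 ∧
      AlgebraicIndependent ℂ (fun i : Fin κ => g i.succ / g 0) := by
  classical
  have hle' : ∀ m : ℕ, ∀ P, IsPrimeDivisor y P → (m • U0) P ≤ (m • U) P := by
    intro m P hP
    rw [smul_ap, smul_ap]
    exact mul_le_mul_of_nonneg_left (hle P hP) (Nat.cast_nonneg m)
  have hσU : Fn y (a • U) σ := hσ.mono (hle' a)
  -- the sections
  obtain ⟨h, hh⟩ : ∃ h, h = ∏ i, g i := ⟨_, rfl⟩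
  have hh0 : h ≠ 0 := by
    rw [hh]
    exact Finset.prod_ne_zero_iff.2 fun i _ => hg0 i
  have hprod : ∀ s : Finset (Fin κ), Fh y F ((∑ i ∈ s, m i) • U) (∏ i ∈ s, g i) := by
    intro s
    have h1 := fh_prod s (D := fun i => m i • U) (g := g) fun i _ => hg i
    rwa [← Finset.sum_smul] at h1
  obtain ⟨hj, hhj⟩ : ∃ hj : Fin (κ + 1) → K, hj = Fin.cons h fun i => z i * h := ⟨_, rfl⟩
  have hj0 : ∀ j, hj j ≠ 0 := by
    intro j
    rw [hhj]
    refine Fin.cases ?_ (fun i => ?_) j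
    · rw [Fin.cons_zero]
      exact hh0
    · rw [Fin.cons_succ]
      exact mul_ne_zero (hz.ne_zero i) hh0
  have hjF : ∀ j, Fh y F ((∑ i, m i) • U) (hj j) := by
    intro j
    rw [hhj]
    refine Fin.cases ?_ (fun i => ?_) j
    · rw [Fin.cons_zero, hh]
      exact hprod _
    · rw [Fin.cons_succ]
      have h1 : z i * h = f i * ∏ j ∈ Finset.univ.erase i, g j := by
        rw [hh, hzf i, ← Finset.mul_prod_erase Finset.univ g (Finset.mem_univ i)]
        field_simp [hg0 i]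
      have h2 : ∑ i, m i = m i + ∑ j ∈ Finset.univ.erase i, m j := by
        rw [Finset.add_sum_erase _ _ (Finset.mem_univ i)]
      rw [h1, h2, add_smul]
      exact (hf i).mul (hprod _)
  -- the vertical poles
  have hTfin : (⋃ j, {P | IsPrimeDivisor y P ∧ P.ord (hj j) ≠ 0}).Finite :=
    Set.finite_iUnion fun j => finite_ord hy (hj0 j)
  have hTfin' : {P | IsPrimeDivisor y P ∧ ¬ Horizontal F P ∧ (U P ≠ 0 ∨ ∃ j,
      P.ord (hj j) ≠ 0)}.Finite := by
    refine (hU.union hTfin).subset ?_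
    rintro P ⟨hP, -, h1 | ⟨j, h1⟩⟩
    · exact Or.inl ⟨hP, h1⟩
    · exact Or.inr (Set.mem_iUnion.2 ⟨j, hP, h1⟩)
  obtain ⟨c, hc⟩ : ∃ c : ℚ, ∀ P ∈ hTfin'.toFinset, ∀ j,
      -((∑ i, m i : ℕ) * U P) - P.ord (hj j) ≤ c := by
    refine ⟨∑ P ∈ hTfin'.toFinset, ∑ j, |-((∑ i, m i : ℕ) * U P) - P.ord (hj j)|,
      fun P hP j => ?_⟩
    refine (le_abs_self _).trans ?_
    refine (Finset.single_le_sum (f := fun j => |-((∑ i, m i : ℕ) * U P) - (P.ord (hj j) : ℚ)|)
      (fun _ _ => abs_nonneg _) (Finset.mem_univ j)).trans ?_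
    exact Finset.single_le_sum
      (f := fun P : Place ℂ K => ∑ j, |-((∑ i, m i : ℕ) * U P) - (P.ord (hj j) : ℚ)|)
      (fun _ _ => Finset.sum_nonneg fun _ _ => abs_nonneg _) hP
  obtain ⟨mt, τ, hτ0, hτ, hτT⟩ := exists_van_all ha hσ hσ0 hF c hTfin'.toFinset (by
    intro P hP
    rw [Set.Finite.mem_toFinset] at hP
    exact ⟨hP.1, hP.2.1⟩)
  have hfin : ∀ j, Fn y ((a + mt + ∑ i, m i) • U) (σ * τ * hj j) := by
    intro j P hP
    right
    have h1 := (hσU P hP).resolve_left hσ0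
    have h2 := (hτ P hP).resolve_left hτ0
    have h3 := mul_le_mul_of_nonneg_left (hle P hP) (Nat.cast_nonneg (α := ℚ) mt)
    rw [P.ord_mul (mul_ne_zero hσ0 hτ0) (hj0 j), P.ord_mul hσ0 hτ0]
    rw [smul_ap] at h1 h2 ⊢
    push_cast
    by_cases hPF : Horizontal F P
    · have h4 := (hjF j P hP hPF).resolve_left (hj0 j)
      rw [smul_ap] at h4
      push_cast at h4
      linarith
    · by_cases hPT : P ∈ hTfin'.toFinset
      · have h4 := hc P hPT j
        have h5 := hτT P hPT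
        push_cast at h4
        linarith
      · rw [Set.Finite.mem_toFinset] at hPT
        have h4 : U P = 0 := by
          by_contra h5
          exact hPT ⟨hP, hPF, Or.inl h5⟩
        have h5 : P.ord (hj j) = 0 := by
          by_contra h5
          exact hPT ⟨hP, hPF, Or.inr ⟨j, h5⟩⟩
        rw [h4] at h1 h3 ⊢
        rw [h5]
        push_cast
        linarith
  refine ⟨a + mt + ∑ i, m i, fun j => σ * τ * hj j, by omega, hfin, ?_, ?_⟩
  · exact mul_ne_zero (mul_ne_zero hσ0 hτ0) (hj0 0)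
  · have h1 : (fun i : Fin κ => σ * τ * hj i.succ / (σ * τ * hj 0)) = z := by
      funext i
      rw [mul_div_mul_left _ _ (mul_ne_zero hσ0 hτ0), hhj, Fin.cons_zero, Fin.cons_succ,
        mul_div_assoc, div_self hh0, mul_one]
    rw [h1]
    exact hz

/-- **Growth of the sections whose rank over a subfield is bounded.** -/
theorem fn_rank_growth (hy : NormalModel y) {a l : ℕ} {u : Fin a → F}
    (hu : IsTranscendenceBasis ℂ u) {v : Fin l → K} (hv : IsTranscendenceBasis F v)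
    {U A : Place ℂ K → ℚ} (hU : FinSup y U) (hA : FinSup y A) (R : ℕ → ℕ)
    (hR : ∀ m, 1 ≤ m → ∀ (r : ℕ) (g : Fin r → K), LinearIndependent F g →
      (∀ i, Fn y (m • U + A) (g i)) → r ≤ R m) :
    ∃ C : ℕ, ∀ m, 1 ≤ m → ∀ (r : ℕ) (f : Fin r → K), LinearIndependent ℂ f →
      (∀ i, Fn y (m • U + A) (f i)) → r ≤ C * R m * m ^ a := by
  classical
  obtain ⟨D, hD⟩ : ∃ D : Place ℂ K → ℕ, D = fun P => bnd U P + bnd A P := ⟨_, rfl⟩
  have hDsup : {P | IsPrimeDivisor y P ∧ D P ≠ 0}.Finite := by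
    refine ((bnd_sup hU).union (bnd_sup hA)).subset ?_
    rintro P ⟨hP, hne⟩
    by_contra hcon
    rw [Set.mem_union] at hcon
    push Not at hcon
    have h1 : bnd U P = 0 := by
      by_contra h3
      exact hcon.1 ⟨hP, h3⟩
    have h2 : bnd A P = 0 := by
      by_contra h3
      exact hcon.2 ⟨hP, h3⟩
    exact hne (by rw [hD]; simp [h1, h2])
  choose s hs hs0 hsf using fun j => fn_chart hy hDsup j
  have hess := hy.ess
  have hFf : ∀ m, 1 ≤ m → ∀ f, Fn y (m • U + A) f → ∀ P, IsPrimeDivisor y P →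
      f = 0 ∨ -((m * D P : ℕ) : ℤ) ≤ P.ord f := by
    intro m hm f hf P hP
    refine (hf P hP).imp_right fun h1 => ?_
    have h2 := le_bnd U P
    have h3 := le_bnd A P
    have hm1 : (1 : ℚ) ≤ m := by exact_mod_cast hm
    have hA0 : (0 : ℚ) ≤ bnd A P := Nat.cast_nonneg _
    rw [Pi.add_apply, smul_ap] at h1
    have h4 : -((m * D P : ℕ) : ℚ) ≤ (P.ord f : ℚ) := by
      refine le_trans ?_ h1
      rw [hD]
      push_cast
      have h5 := mul_le_mul_of_nonneg_left h2 (Nat.cast_nonneg (α := ℚ) m)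
      nlinarith
    exact_mod_cast h4
  exact growth_rank F hu hv (Finset.univ.image fun j => (s j)⁻¹)
    (fun m => {f | Fn y (m • U + A) f})
    (by
      intro P
      obtain ⟨j, hj⟩ := exists_centred hy P
      have h0 := (P.reg_iff (hs0 j)).1 (hj.reg _ (hs j))
      refine ⟨(P.ord (s j)).toNat, fun m hm f hf => ?_⟩
      have h1 := localRing_reg (hsf j m f (hFf m hm f hf) P hj)
      by_cases hf0 : f = 0
      · exact Or.inl hf0
      right
      rw [P.reg_iff (mul_ne_zero hf0 (pow_ne_zero _ (hs0 j))),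
        P.ord_mul hf0 (pow_ne_zero _ (hs0 j)), P.ord_pow] at h1
      push_cast
      rw [Int.toNat_of_nonneg h0]
      linarith)
    (by
      intro P hP m hm f hf
      obtain ⟨j, hj⟩ := exists_centred hy P
      have h0 := (P.reg_iff (hs0 j)).1 (hj.reg _ (hs j))
      have h2 := (P.reg_iff (inv_ne_zero (hs0 j))).1
        (hP _ (Finset.mem_image_of_mem _ (Finset.mem_univ j)))
      rw [P.ord_inv] at h2
      have h3 : P.ord (s j) = 0 := by omega
      have h1 := localRing_reg (hsf j m f (hFf m hm f hf) P hj)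
      by_cases hf0 : f = 0
      · exact Or.inl hf0
      right
      rw [P.reg_iff (mul_ne_zero hf0 (pow_ne_zero _ (hs0 j))),
        P.ord_mul hf0 (pow_ne_zero _ (hs0 j)), P.ord_pow, h3] at h1
      linarith)
    R hR

end

end Pool.Agent.NH31
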