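import Pool.Agent.NH31.M7
import Pool.Agent.NH31.M6

/-!
Abundance for divisors on a variety from abundance on the generic fibre over a base.
-/

set_option autoImplicit false
set_option linter.overlappingInstances false
set_option linter.unusedSectionVars false

open FF Pool.Agent.W602.GT Pool.Agent.W603.LV Pool.Agent.Y172

namespace Pool.Agent.NH31

section

variable {K : Type} [Field K] [Algebra ℂ K] {N n : ℕ} {y : Fin (N + 1) → K}
  {F : IntermediateField ℂ K}

theorem exists_tb (F : Type) [Field F] (K : Type) [Field K] [Algebra F K]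
    [Algebra.EssFiniteType F K] : ∃ (l : ℕ) (v : Fin l → K), IsTranscendenceBasis F v := by
  obtain ⟨s, hs⟩ := exists_isTranscendenceBasis F K
  have hfin : Finite s := finite_of_isTranscendenceBasis hs
  have := Fintype.ofFinite s
  exact ⟨_, _, hs.comp_equiv (Fintype.equivFin s).symm⟩

theorem exists_tb_sub [Algebra.EssFiniteType ℂ K] (F : IntermediateField ℂ K) :
    ∃ (a : ℕ) (u : Fin a → F), IsTranscendenceBasis ℂ u := by
  obtain ⟨s, hs⟩ := exists_isTranscendenceBasis ℂ F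
  have h1 : AlgebraicIndependent ℂ (fun i : s => algebraMap F K (i : F)) :=
    hs.1.map' (f := IsScalarTower.toAlgHom ℂ F K) (algebraMap F K).injective
  have hfin : Finite s := finite_of_algebraicIndependent h1
  have := Fintype.ofFinite s
  exact ⟨_, _, hs.comp_equiv (Fintype.equivFin s).symm⟩

/-- **Growth of the sections** on a variety such that abundance holds on the generic fibre. -/
theorem fib_growth (hy : NormalModel y)
    (hab : ∀ D : Place ℂ K → ℤ, {P | IsPrimeDivisor y P ∧ D P ≠ 0}.Finite →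
      (∀ P, IsPrimeDivisor y P → Horizontal F P → 0 ≤ D P) → FibreAbundant y F D)
    {U0 U : Place ℂ K → ℚ} (hU : FinSup y U) (hle : ∀ P, IsPrimeDivisor y P → U0 P ≤ U P)
    {a : ℕ} (ha : 1 ≤ a) {σ : K} (hσ : Fn y (a • U0) σ) (hσ0 : σ ≠ 0)
    (hF : ∀ x ∈ F, IsAlgebraic (IntermediateField.adjoin ℂ (rat y U0)) x) :
    ∃ (κ m0 : ℕ) (g : Fin (κ + 1) → K), 1 ≤ m0 ∧ (∀ j, Fn y (m0 • U) (g j)) ∧ g 0 ≠ 0 ∧
      AlgebraicIndependent ℂ (fun i : Fin κ => g i.succ / g 0) ∧
      ∀ A, FinSup y A → ∃ C : ℕ, ∀ m : ℕ, 1 ≤ m → ∀ (r : ℕ) (f : Fin r → K),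
        LinearIndependent ℂ f → (∀ i, Fn y (m • U + A) (f i)) → r ≤ C * m ^ κ := by
  classical
  have hess := hy.ess
  have hessF : Algebra.EssFiniteType F K := Algebra.EssFiniteType.of_comp ℂ F K
  have hle' : ∀ m : ℕ, ∀ P, IsPrimeDivisor y P → (m • U0) P ≤ (m • U) P := by
    intro m P hP
    rw [smul_ap, smul_ap]
    exact mul_le_mul_of_nonneg_left (hle P hP) (Nat.cast_nonneg m)
  have hσU : Fn y (a • U) σ := hσ.mono (hle' a)
  obtain ⟨d0, hd0, hden⟩ := exists_den_fin hU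
  obtain ⟨N1, hN1def⟩ : ∃ N1, N1 = a * d0 := ⟨_, rfl⟩
  have hN1 : 1 ≤ N1 := by
    rw [hN1def]
    exact Nat.succ_le_of_lt (Nat.mul_pos (by omega) (by omega))
  obtain ⟨h₀, hh₀⟩ : ∃ h₀, h₀ = σ ^ d0 := ⟨_, rfl⟩
  have hh₀0 : h₀ ≠ 0 := by
    rw [hh₀]
    exact pow_ne_zero _ hσ0
  have hh₀U : Fn y (N1 • U) h₀ := by
    rw [hh₀, hN1def, mul_comm a d0, mul_smul]
    exact hσU.pow d0
  -- the integral divisor
  obtain ⟨D, hD⟩ : ∃ D : Place ℂ K → ℤ, D = fun P => ⌊(P.ord h₀ : ℚ) + N1 * U P⌋ := ⟨_, rfl⟩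
  have hDeq : ∀ P, IsPrimeDivisor y P → (D P : ℚ) = P.ord h₀ + N1 * U P := by
    intro P hP
    obtain ⟨z, hz⟩ := hden P hP
    have h1 : (P.ord h₀ : ℚ) + N1 * U P = ((P.ord h₀ + a * z : ℤ) : ℚ) := by
      rw [hN1def]
      push_cast
      rw [← hz]
      ring
    rw [hD]
    change ((⌊(P.ord h₀ : ℚ) + N1 * U P⌋ : ℤ) : ℚ) = _
    rw [h1, Int.floor_intCast]
  have hD0 : ∀ P, IsPrimeDivisor y P → 0 ≤ D P := by
    intro P hP
    have h1 := (hh₀U P hP).resolve_left hh₀0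
    rw [smul_ap] at h1
    have h2 : (0 : ℚ) ≤ D P := by
      rw [hDeq P hP]
      linarith
    exact_mod_cast h2
  have hDfin : {P | IsPrimeDivisor y P ∧ D P ≠ 0}.Finite := by
    refine (hU.union (finite_ord hy hh₀0)).subset ?_
    rintro P ⟨hP, hne⟩
    by_contra hcon
    rw [Set.mem_union] at hcon
    push Not at hcon
    have h1 : U P = 0 := by
      by_contra h3
      exact hcon.1 ⟨hP, h3⟩
    have h2 : P.ord h₀ = 0 := by
      by_contra h3
      exact hcon.2 ⟨hP, h3⟩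
    have h3 := hDeq P hP
    rw [h1, h2, mul_zero, Int.cast_zero, add_zero] at h3
    exact hne (by exact_mod_cast h3)
  obtain ⟨k, ⟨m1, hm1, g, hg, hg0, hgi⟩, hup⟩ := hab D hDfin fun P hP _ => hD0 P hP
  obtain ⟨b, u, hu⟩ := exists_tb_sub F
  obtain ⟨l, v, hv⟩ := exists_tb F K
  -- the lower bound
  let e : Fin (k + b) ≃ Fin k ⊕ Fin b := finSumFinEquiv.symm
  obtain ⟨w, hw⟩ : ∃ w : Fin k ⊕ Fin b → K,
      w = Sum.elim (fun i => g i.succ / g 0) (algebraMap F K ∘ u) := ⟨_, rfl⟩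
  have hwi : AlgebraicIndependent ℂ w := by
    rw [hw]
    exact hu.1.sumElim_comp hgi
  have hwS : ∀ x, ∃ (m : ℕ) (f f' : K), Fh y F (m • U) f ∧ Fh y F (m • U) f' ∧ f' ≠ 0 ∧
      w x = f / f' := by
    intro x
    rw [hw]
    rcases x with i | j
    · refine ⟨m1 * N1, g i.succ * h₀ ^ m1, g 0 * h₀ ^ m1, ?_, ?_,
        mul_ne_zero hg0 (pow_ne_zero _ hh₀0), ?_⟩
      · intro P hP hPF
        by_cases h0 : g i.succ = 0
        · left
          rw [h0, zero_mul]
        right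
        have h1 := (hg i.succ P hP hPF).resolve_left h0
        rw [P.ord_mul h0 (pow_ne_zero _ hh₀0), P.ord_pow, smul_ap]
        have h2 : (-((m1 • D) P) : ℚ) ≤ P.ord (g i.succ) := by exact_mod_cast h1
        rw [Pi.smul_apply, nsmul_eq_mul] at h2
        push_cast at h2 ⊢
        rw [hDeq P hP] at h2
        linarith
      · intro P hP hPF
        right
        have h1 := (hg 0 P hP hPF).resolve_left hg0
        rw [P.ord_mul hg0 (pow_ne_zero _ hh₀0), P.ord_pow, smul_ap]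
        have h2 : (-((m1 • D) P) : ℚ) ≤ P.ord (g 0) := by exact_mod_cast h1
        rw [Pi.smul_apply, nsmul_eq_mul] at h2
        push_cast at h2 ⊢
        rw [hDeq P hP] at h2
        linarith
      · rw [Sum.elim_inl, mul_div_mul_right _ _ (pow_ne_zero _ hh₀0)]
    · refine ⟨a, (u j : K) * σ, σ, ?_, hσU.fh, hσ0, ?_⟩
      · intro P hP hPF
        by_cases hx0 : (u j : K) = 0
        · left
          rw [hx0, zero_mul]
        · right
          rw [P.ord_mul hx0 hσ0, hPF _ (u j).2 hx0, zero_add]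
          exact (hσU P hP).resolve_left hσ0
      · rw [Sum.elim_inr, mul_div_assoc, div_self hσ0, mul_one]
        rfl
  choose mw fw gw hfw hgw hgw0 hwfg using hwS
  obtain ⟨m0, G, hm0, hG, hG0, hGi⟩ := fh_lower hy hU hle ha hσ hσ0 hF
    (z := w ∘ e) (hwi.comp e e.injective) (m := fun i => mw (e i)) (f := fun i => fw (e i))
    (g := fun i => gw (e i)) (fun i => hfw _) (fun i => hgw _) (fun i => hgw0 _) fun i => hwfg _
  refine ⟨k + b, m0, G, hm0, hG, hG0, hGi, ?_⟩
  -- the upper bound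
  intro A hA
  obtain ⟨A', hA'⟩ : ∃ A' : Place ℂ K → ℤ, A' = fun P => ((N1 * bnd U P + bnd A P : ℕ) : ℤ) :=
    ⟨_, rfl⟩
  have hA'fin : {P | IsPrimeDivisor y P ∧ A' P ≠ 0}.Finite := by
    refine ((bnd_sup hU).union (bnd_sup hA)).subset ?_
    rintro P ⟨hP, hne⟩
    by_contra hcon
    rw [Set.mem_union] at hcon
    push Not at hcon
    have h1 : bnd U P = 0 := by
      by_contra h3
      exact hcon.1 ⟨hP, h3⟩
    have h2 : bnd A P = 0 := by
      by_contra h3
      exact hcon.2 ⟨hP, h3⟩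
    exact hne (by rw [hA']; simp [h1, h2])
  obtain ⟨C, hC⟩ := hup A' hA'fin
  obtain ⟨C', hC'⟩ := fn_rank_growth hy hu hv hU hA (fun m => C * (m / N1 + 1) ^ k) (by
    intro m hm r f hf hfm
    have h1 : LinearIndependent F fun i => f i / h₀ ^ (m / N1) := by
      have h2 := hf.map' (LinearMap.mulRight F (h₀ ^ (m / N1))⁻¹) (LinearMap.ker_eq_bot.2
        (mul_left_injective₀ (inv_ne_zero (pow_ne_zero _ hh₀0))))
      have h3 : (fun i => f i / h₀ ^ (m / N1)) =
          (⇑(LinearMap.mulRight F (h₀ ^ (m / N1))⁻¹) ∘ f) := by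
        funext i
        rw [div_eq_mul_inv]
        rfl
      rw [h3]
      exact h2
    refine hC (m / N1 + 1) (Nat.succ_le_succ (Nat.zero_le _)) r _ h1 fun i P hP hPF => ?_
    by_cases hf0 : f i = 0
    · left
      rw [hf0, zero_div]
    right
    have h2 := (hfm i P hP).resolve_left hf0
    rw [Pi.add_apply, smul_ap] at h2
    have h3 := hDeq P hP
    have h4 : (0 : ℚ) ≤ D P := by exact_mod_cast hD0 P hP
    have h5 := le_bnd U P
    have h6 := le_bnd A P
    obtain ⟨q, hq⟩ : ∃ q, q = m / N1 := ⟨_, rfl⟩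
    obtain ⟨ρ, hρ⟩ : ∃ ρ, ρ = m % N1 := ⟨_, rfl⟩
    rw [← hq]
    have h7 : (m : ℚ) = N1 * q + ρ := by
      rw [hq, hρ]
      exact_mod_cast (Nat.div_add_mod m N1).symm
    have h8 : (ρ : ℚ) ≤ N1 := by
      rw [hρ]
      exact_mod_cast (Nat.mod_lt m (by omega)).le
    have h9 : (0 : ℚ) ≤ ρ := Nat.cast_nonneg _
    have h10 : (0 : ℚ) ≤ bnd U P := Nat.cast_nonneg _
    have h11 : (ρ : ℚ) * U P ≤ N1 * bnd U P :=
      (mul_le_mul_of_nonneg_left h5 h9).trans (mul_le_mul_of_nonneg_right h8 h10)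
    have h12 : (-((((q + 1) • D + A') P : ℤ) : ℚ)) ≤ ((P.ord (f i / h₀ ^ q) : ℤ) : ℚ) := by
      rw [P.ord_div hf0 (pow_ne_zero _ hh₀0), P.ord_pow, Pi.add_apply, Pi.smul_apply,
        nsmul_eq_mul, hA']
      push_cast
      have h13 : (P.ord h₀ : ℚ) = D P - N1 * U P := by linarith
      rw [h13]
      rw [h7] at h2
      linarith
    exact_mod_cast h12)
  refine ⟨C' * (C * 2 ^ k), fun m hm r f hf hfm => ?_⟩
  refine (hC' m hm r f hf hfm).trans ?_
  have h1 : (m / N1 + 1) ^ k ≤ 2 ^ k * m ^ k := by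
    rw [← mul_pow]
    refine Nat.pow_le_pow_left ?_ _
    have := Nat.div_le_self m N1
    omega
  calc C' * (C * (m / N1 + 1) ^ k) * m ^ b ≤ C' * (C * (2 ^ k * m ^ k)) * m ^ b :=
        Nat.mul_le_mul_right _ (Nat.mul_le_mul_left _ (Nat.mul_le_mul_left _ h1))
    _ = C' * (C * 2 ^ k) * m ^ (k + b) := by rw [pow_add]; ring

/-- **Abundance from abundance on the generic fibre over a base below the Iitaka fibration.** -/
theorem fib_abund (hy : NormalModel y) (hn : Algebra.trdeg ℂ K = n) {F : IntermediateField ℂ K}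
    (hab : ∀ D : Place ℂ K → ℤ, {P | IsPrimeDivisor y P ∧ D P ≠ 0}.Finite →
      (∀ P, IsPrimeDivisor y P → Horizontal F P → 0 ≤ D P) → FibreAbundant y F D)
    {B V : Place ℂ K → ℚ} (hF : BelowIitaka y n B F) (hV : FinSup y V)
    (hBV : ∀ P, IsPrimeDivisor y P → B P ≤ V P)
    {a : ℕ} (ha : 1 ≤ a) {σ : (Fin n → Derivation ℂ K K) → K} (hσ : IsSection y n a (a • B) σ)
    (hσ0 : σ ≠ 0) : Abund y n V := by
  classical
  obtain ⟨x, E, hx, hE⟩ := exists_crd hn
  obtain ⟨w, hw, hwf⟩ := exists_canon hy hn hx hE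
  have hfr := frame_of_dual hx hE
  -- sections and functions
  have hsec : ∀ (m : ℕ) (D : Place ℂ K → ℚ) (ω : (Fin n → Derivation ℂ K K) → K),
      IsPluri m ω → (IsSection y n m D ω ↔ Fn y (m • w + D) (ω E)) := by
    intro m D ω hω
    constructor
    · rintro ⟨-, h⟩ P hP
      have h1 := (hwf P hP m ω _ hω).1 (h P hP)
      refine h1.imp_right fun h2 => le_trans (le_of_eq ?_) h2
      simp only [Pi.add_apply, smul_ap]
      ring
    · intro h
      refine ⟨hω, fun P hP => (hwf P hP m ω _ hω).2 ?_⟩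
      refine (h P hP).imp_right fun h2 => le_trans (le_of_eq ?_) h2
      simp only [Pi.add_apply, smul_ap]
      ring
  have hσE : σ E ≠ 0 := fun h => hσ0 (pluri_zero hfr hσ.1 h)
  have h1 : Fn y (a • (w + B)) (σ E) := by
    rw [smul_add]
    exact (hsec a _ σ hσ.1).1 hσ
  have hrat : pluriRatios y n B ⊆ rat y (w + B) := by
    rintro f ⟨m, hm, ω, ω', hω, hω', E1, hE1, rfl⟩
    have e1 := pluri_coord hx hE hω.1 E1
    have e2 := pluri_coord hx hE hω'.1 E1
    have hd : (Matrix.of fun i j => E1 i (x j)).det ^ m ≠ 0 := by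
      intro h
      rw [h, zero_mul] at e2
      exact hE1 e2
    have h0 : ω' E ≠ 0 := by
      intro h
      rw [h, mul_zero] at e2
      exact hE1 e2
    refine ⟨m, ω E, ω' E, hm, ?_, ?_, h0, ?_⟩
    · rw [smul_add]
      exact (hsec m _ ω hω.1).1 hω
    · rw [smul_add]
      exact (hsec m _ ω' hω'.1).1 hω'
    · rw [e1, e2, mul_div_mul_left _ _ hd]
  have hF' : ∀ x ∈ F, IsAlgebraic (IntermediateField.adjoin ℂ (rat y (w + B))) x := fun x hx =>
    isAlg_mono (IntermediateField.adjoin.mono ℂ _ _ hrat) (hF x hx)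
  obtain ⟨κ, m0, g, hm0, hg, hg0, hind, hup⟩ := fib_growth hy hab (U0 := w + B) (hw.add hV)
    (fun P hP => by
      simp only [Pi.add_apply]
      linarith [hBV P hP]) ha h1 hσE hF'
  refine ⟨κ, m0, fun j => frm x m0 (g j), hm0, fun j => ?_, ⟨E, ?_, ?_⟩, ?_⟩
  · rw [hsec m0 _ _ (frm_pluri x m0 (g j)), frm_eval hE, ← smul_add]
    exact hg j
  · change frm x m0 (g 0) E ≠ 0
    rw [frm_eval hE]
    exact hg0
  · simp only [frm_eval hE]
    exact hind
  · intro x' E' hx' hE' A hA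
    obtain ⟨C, hC⟩ := hup A hA
    refine ⟨C, fun m hm r f hf h => hC m hm r (fun i =>
      ((Matrix.of fun i j => E' i (x j)).det ^ m)⁻¹ * f i) ?_ fun i => ?_⟩
    · have hd := det_ne hx' hE' hE
      exact hf.map' (LinearMap.mulLeft ℂ _) (LinearMap.ker_eq_bot.2
        (mul_right_injective₀ (inv_ne_zero (pow_ne_zero _ hd))))
    · have hd := det_ne hx' hE' hE
      obtain ⟨ω, hω, hωf⟩ := h i
      have h2 := (hsec m _ ω hω.1).1 hω
      have h3 : ω E' = (Matrix.of fun i j => E' i (x j)).det ^ m * ω E :=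
        pluri_coord hx hE hω.1 E'
      have h4 : ((Matrix.of fun i j => E' i (x j)).det ^ m)⁻¹ * f i = ω E := by
        rw [← hωf, h3, inv_mul_cancel_left₀ (pow_ne_zero _ hd)]
      rw [h4, smul_add, add_assoc]
      exact h2

end

end Pool.Agent.NH31
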