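import Pool.Agent.NH31.Defs3
import Pool.Agent.NH31.M8

/-!
Semiample divisors on the generic fibre over a base.
-/

set_option autoImplicit false
set_option linter.overlappingInstances false
set_option linter.unusedSectionVars false

open FF Pool.Agent.W602.GT Pool.Agent.W603.LV Pool.Agent.Y172

namespace Pool.Agent.NH31

/-! ### fields -/

section

variable {F K : Type} [Field F] [Field K] [Algebra F K]

/-- a maximal independent family -/
theorem exists_maxF [Algebra.EssFiniteType F K] (S : Set K) :
    ∃ (κ : ℕ) (z : Fin κ → K), (∀ i, z i ∈ S) ∧ AlgebraicIndependent F z ∧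
      ∀ x ∈ S, x ∈ acl F (Set.range z) := by
  obtain ⟨I, hI⟩ := (AlgebraicIndependent.matroid F K).exists_isBasis S (Set.subset_univ _)
  rw [AlgebraicIndependent.matroid_isBasis_iff] at hI
  obtain ⟨h1, h2, h3⟩ := hI
  have h4 : AlgebraicIndependent F ((↑) : I → K) := h1
  have hfin : Finite I := finite_of_algebraicIndependent h4
  obtain ⟨κ, ⟨e⟩⟩ := Finite.exists_equiv_fin I
  refine ⟨κ, fun i => (e.symm i : K), fun i => h2 (e.symm i).2, h4.comp _ e.symm.injective,
    fun x hx => ?_⟩
  rw [mem_acl, IntermediateField.isAlgebraic_adjoin_iff]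
  have h6 : Set.range (fun i => (e.symm i : K)) = I := by
    ext z
    constructor
    · rintro ⟨i, rfl⟩
      exact (e.symm i).2
    · intro hz
      exact ⟨e ⟨z, hz⟩, by simp⟩
  rw [h6]
  exact h3 x hx

/-- extension to a transcendence basis -/
theorem ext_indepF [Algebra.EssFiniteType F K] {κ : ℕ} {z : Fin κ → K}
    (hz : AlgebraicIndependent F z) : ∃ (n l : ℕ) (Z : Fin n → K) (u : Fin l → K),
      IsTranscendenceBasis F Z ∧ n = κ + l ∧ AlgebraicIndependent (acl F (Set.range z)) u := by
  classical
  obtain ⟨t, hzt, ht⟩ := exists_isTranscendenceBasis_superset (R := F) (s := Set.range z)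
    (hz.to_subtype_range)
  have hfin : Finite t := finite_of_isTranscendenceBasis ht
  obtain ⟨n, hn⟩ : ∃ n, n = Nat.card t := ⟨_, rfl⟩
  have hcard' : Nat.card t = n := hn.symm
  obtain ⟨s, hs⟩ : ∃ s : Set t, s = {i : t | (i : K) ∈ Set.range z} := ⟨_, rfl⟩
  have h1 := ((AlgebraicIndependent.iff_adjoin_image (R := F) (x := ((↑) : t → K)) s).1 ht.1).2
  have himg : ((↑) : t → K) '' s = Set.range z := by
    ext x
    constructor
    · rintro ⟨i, hi, rfl⟩
      rw [hs] at hi
      exact hi
    · intro hx
      refine ⟨⟨x, hzt hx⟩, ?_, rfl⟩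
      rw [hs]
      exact hx
  rw [himg] at h1
  have hs1 : Nat.card s = κ := by
    have h2 : Nat.card (((↑) : t → K) '' s) = Nat.card s :=
      Nat.card_image_of_injective Subtype.val_injective s
    rw [← h2, himg, Nat.card_range_of_injective hz.injective, Nat.card_fin]
  have hs2 : Nat.card s + Nat.card (sᶜ : Set t) = n := by
    rw [← hcard']
    have := Set.ncard_add_ncard_compl s
    exact this
  have hfin2 : Finite (sᶜ : Set t) := inferInstance
  let e := Finite.equivFin (sᶜ : Set t)
  have e' : t ≃ Fin n := by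
    rw [hn]
    exact Finite.equivFin t
  refine ⟨n, Nat.card (sᶜ : Set t), fun i => ((e'.symm i : t) : K),
    fun i => ((e.symm i : t) : K), ht.comp_equiv e'.symm, ?_, ?_⟩
  · rw [← hs2, hs1]
  · have h3 : AlgebraicIndependent (Algebra.adjoin F (Set.range z))
      (fun i : (sᶜ : Set t) => ((i : t) : K)) := h1
    have h4 := h3.comp _ e.symm.injective
    have h5 := IntermediateField.algebraicIndependent_adjoin_iff.2 h4
    have hle : IntermediateField.adjoin F (Set.range z) ≤ acl F (Set.range z) :=
      adjoin_le_acl _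
    let _ : Algebra (IntermediateField.adjoin F (Set.range z)) (acl F (Set.range z)) :=
      (IntermediateField.inclusion hle).toAlgebra
    have : IsScalarTower (IntermediateField.adjoin F (Set.range z)) (acl F (Set.range z)) K :=
      IsScalarTower.of_algebraMap_eq fun x => rfl
    have : Algebra.IsAlgebraic (IntermediateField.adjoin F (Set.range z))
        (acl F (Set.range z)) := by
      refine ⟨fun x => ?_⟩
      have h1 : IsAlgebraic (IntermediateField.adjoin F (Set.range z)) (x : K) := mem_acl.1 x.2
      exact (isAlgebraic_algebraMap_iff (R := IntermediateField.adjoin F (Set.range z)) (A := K)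
        (FaithfulSMul.algebraMap_injective (acl F (Set.range z)) K)).1 h1
    exact h5.extendScalars (acl F (Set.range z))

/-- restriction of scalars -/
def restr {k M : Type} [Field k] [Field M] [Algebra k M] [Algebra k K] [Algebra M K]
    [IsScalarTower k M K] (P : Place M K) : Place k K where
  ord := P.ord
  ord_zero := P.ord_zero
  ord_mul := P.ord_mul
  ord_add := P.ord_add
  ord_const := by
    intro c hc
    rw [IsScalarTower.algebraMap_apply k M K]
    exact P.ord_const (by simpa using hc)
  surj := P.surj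

/-- **Finite-dimensionality.** -/
theorem fin_dim [CharZero F] [Algebra.EssFiniteType F K] (S : Finset K) (𝓕 : Set K)
    (h : ∀ P : Place F K, ∀ x ∈ 𝓕, ∃ s ∈ S, Ge P (P.ord s) x) :
    ∃ (τ : ℕ) (w : Fin τ → K), ∀ x ∈ 𝓕, x ∈ Submodule.span F (Set.range w) := by
  classical
  obtain ⟨l, v, hv⟩ := exists_tb F K
  obtain ⟨C, hC⟩ := growth hv (fd_basis hv) S (fun _ => 𝓕)
    (by
      intro P
      refine ⟨∑ s ∈ S, (P.ord s).natAbs, fun m hm x hx => ?_⟩
      obtain ⟨s, hs, h1⟩ := h P x hx
      refine h1.mono ?_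
      have h2 : (P.ord s).natAbs ≤ ∑ s ∈ S, (P.ord s).natAbs :=
        Finset.single_le_sum (f := fun s => (P.ord s).natAbs) (fun _ _ => Nat.zero_le _) hs
      have h3 : (P.ord s).natAbs ≤ (∑ s ∈ S, (P.ord s).natAbs) * m :=
        h2.trans (Nat.le_mul_of_pos_right _ (by omega))
      omega)
    (by
      intro P hP m hm x hx
      obtain ⟨s, hs, h1⟩ := h P x hx
      rcases h1 with h1 | h1
      · exact Or.inl h1
      · by_cases hs0 : s = 0
        · rw [hs0, P.ord_zero] at h1
          exact Or.inr h1
        · exact Or.inr (((P.reg_iff hs0).1 (hP s hs)).trans h1))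
  obtain ⟨κ, a, ha, hspan, hlin⟩ := exists_linearIndependent' F (fun x : 𝓕 => (x : K))
  have hfin : Finite κ := by
    by_contra hcon
    rw [not_finite_iff_infinite] at hcon
    have h1 := hC 1 le_rfl (C + 1) (fun i => ((a (Infinite.natEmbedding κ i)) : K))
      (hlin.comp _ ((Infinite.natEmbedding κ).injective.comp Fin.val_injective))
      fun i => (a _).2
    rw [one_pow, mul_one] at h1
    omega
  obtain ⟨τ, ⟨e⟩⟩ := Finite.exists_equiv_fin κ
  refine ⟨τ, fun i => (a (e.symm i) : K), fun x hx => ?_⟩
  have h1 : x ∈ Submodule.span F (Set.range fun x : 𝓕 => (x : K)) :=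
    Submodule.subset_span ⟨⟨x, hx⟩, rfl⟩
  rw [← hspan] at h1
  have h2 : Set.range ((fun x : 𝓕 => (x : K)) ∘ a) = Set.range fun i => (a (e.symm i) : K) := by
    ext t
    constructor
    · rintro ⟨i, rfl⟩
      exact ⟨e i, by simp⟩
    · rintro ⟨i, rfl⟩
      exact ⟨e.symm i, rfl⟩
  rwa [h2] at h1

end

end Pool.Agent.NH31
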